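import Pool.Agent.LibTwHL.U1
import Pool.Agent.LibTwHL.K7b
import Pool.Agent.LibTwHL.H1
import Pool.Agent.LibTwC.C4
import Pool.Agent.LibRD69.SU

/-! Theorem N (MP_a1107e): small second coefficient and the torsion class. Notation of `TwHL`:
`PP x` = primes up to `x`, `LL x = log (1 + log x)`, `FF w n` = multiplicative function with squarefree
support and value `w p` at `p`. -/

namespace N44

open TwHL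

/-- the box `|a| ≤ H`, `|b| ≤ H ^ 2`, `b ≠ 0`, `a ^ 2 - 4 b ≠ 0` -/
def Box (H : ℕ) (z : ℤ × ℤ) : Prop :=
  |z.1| ≤ (H : ℤ) ∧ |z.2| ≤ (H : ℤ) ^ 2 ∧ z.2 ≠ 0 ∧ z.1 ^ 2 - 4 * z.2 ≠ 0

/-- pairs which are removed once and for all: `a = 0`, or the square of a prime `p > w` divides
`a ^ 2 - 4 b`, or a prime `p > w` divides `a` and `b` -/
def Few (w : ℕ) (z : ℤ × ℤ) : Prop :=
  z.1 = 0 ∨ ∃ p : ℕ, p.Prime ∧ w < p ∧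
    ((p : ℤ) ^ 2 ∣ z.1 ^ 2 - 4 * z.2 ∨ ((p : ℤ) ∣ z.1 ∧ (p : ℤ) ∣ z.2))

/-- the datum `(U)` of the torsion class `b = d s²`: `f = m² - d r²`, `g r = ρ Y²`,
`g f ρ X² = a r - 2 s m`, `ρ ∣ 2 s`, `g ∣ 2 s`, `(m, r) = 1` (all of `ρ, g, X, Y, r` positive, `f ≠ 0`) -/
def UU (a : ℤ) (d s ρ g X Y r : ℕ) (m f : ℤ) : Prop :=
  0 < ρ ∧ 0 < g ∧ 0 < X ∧ 0 < Y ∧ 0 < r ∧ ρ ∣ 2 * s ∧ g ∣ 2 * s ∧ IsCoprime m (r : ℤ) ∧ f ≠ 0 ∧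
    f = m ^ 2 - (d : ℤ) * (r : ℤ) ^ 2 ∧ g * r = ρ * Y ^ 2 ∧
    (g : ℤ) * f * ρ * (X : ℤ) ^ 2 = a * r - 2 * s * m

end N44
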