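import Pool.Agent.LibN44.Defs

namespace N44

theorem s2a_gcd {p : ℕ} (hp : p.Prime) {x : ℤ} (h : ¬ (p : ℤ) ∣ x) : x.gcd p = 1 := by
  rw [Int.gcd_comm]
  change Nat.gcd (p : ℤ).natAbs x.natAbs = 1
  rw [Int.natAbs_natCast]
  exact (hp.coprime_iff_not_dvd).2 fun h' => h (Int.natCast_dvd.2 h')

theorem s2a_sq {p : ℕ} (hp : p.Prime) {x : ℤ} (h : ¬ (p : ℤ) ∣ x) : jacobiSym (x ^ 2) p = 1 :=
  jacobiSym.sq_one' (s2a_gcd hp h)

theorem s2a_congr {p : ℕ} {x y : ℤ} (h : (p : ℤ) ∣ x - y) : jacobiSym x p = jacobiSym y p :=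
  jacobiSym.mod_left' ((Int.emod_emod_of_dvd x (dvd_refl _)).symm.trans
    ((Int.emod_emod_of_dvd x (dvd_refl _)).trans (Int.emod_eq_emod_iff_emod_sub_eq_zero.2
      (Int.emod_eq_zero_of_dvd h))))

/-- Row S2a. If `w² = d u⁴ + a u² + e`, `b = d e`, then `(e/p) = 1` for every odd prime `p` which divides
`D = a² - 4 b` exactly once and does not divide `b`.
Proof: `4 d w² = (2 d u² + a)² - D`. `p ∤ d, p ∤ e` (as `p ∤ b`). If `p ∣ 2 d u² + a` then `p ∣ 4 d w²`, so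
`p ∣ w`, so `p² ∣ D`, no. So `4 d w² ≡ (2du²+a)² ≢ 0`, `p ∤ w` and `(d/p) = 1` (`jacobiSym.mul_left`,
`jacobiSym.sq_one`). `a² ≡ 4 b`, `p ∤ b`: `(b/p) = 1`. `(b/p) = (d/p)(e/p)`. Compare
`Pool/Agent/LibTwC/C1.lean` (class_cond), same argument. -/
theorem class_e (a b d e u w : ℤ) (hb : b = d * e) (h : w ^ 2 = d * u ^ 4 + a * u ^ 2 + e)
    (p : ℕ) (hp : p.Prime) (hp2 : p ≠ 2) (hD : (p : ℤ) ∣ a ^ 2 - 4 * b)
    (hD2 : ¬ (p : ℤ) ^ 2 ∣ a ^ 2 - 4 * b) (hpb : ¬ (p : ℤ) ∣ b) : jacobiSym e p = 1 := by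
  have hpp : Prime (p : ℤ) := Nat.prime_iff_prime_int.1 hp
  have hd : ¬ (p : ℤ) ∣ d := fun h1 => hpb (hb ▸ Dvd.dvd.mul_right h1 e)
  have h2 : ¬ (p : ℤ) ∣ 2 := by
    intro h1
    have h3 : p ∣ 2 := by exact_mod_cast h1
    exact hp2 ((Nat.prime_dvd_prime_iff_eq hp Nat.prime_two).1 h3)
  have hid : 4 * d * w ^ 2 = (2 * d * u ^ 2 + a) ^ 2 - (a ^ 2 - 4 * b) := by
    rw [h, hb]
    ring
  have hne : ¬ (p : ℤ) ∣ 2 * d * u ^ 2 + a := by
    intro h1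
    have h3 : (p : ℤ) ∣ 4 * d * w ^ 2 := by
      rw [hid]
      exact dvd_sub (dvd_pow h1 two_ne_zero) hD
    have h4 : (p : ℤ) ∣ w := by
      rcases hpp.dvd_or_dvd h3 with h5 | h5
      · rcases hpp.dvd_or_dvd h5 with h6 | h6
        · have h7 : (p : ℤ) ∣ 2 * 2 := by
            have h8 : (2 * 2 : ℤ) = 4 := by norm_num
            rw [h8]
            exact h6
          rcases hpp.dvd_or_dvd h7 with h8 | h8
          · exact absurd h8 h2
          · exact absurd h8 h2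
        · exact absurd h6 hd
      · exact hpp.dvd_of_dvd_pow h5
    apply hD2
    have h5 : a ^ 2 - 4 * b = (2 * d * u ^ 2 + a) ^ 2 - 4 * d * w ^ 2 := by
      rw [hid]
      ring
    rw [h5]
    exact dvd_sub (pow_dvd_pow_of_dvd h1 2) (Dvd.dvd.mul_left (pow_dvd_pow_of_dvd h4 2) _)
  have hw : ¬ (p : ℤ) ∣ w := by
    intro h1
    apply hne
    have h3 : (p : ℤ) ∣ (2 * d * u ^ 2 + a) ^ 2 := by
      have h4 : (2 * d * u ^ 2 + a) ^ 2 = 4 * d * w ^ 2 + (a ^ 2 - 4 * b) := by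
        rw [hid]
        ring
      rw [h4]
      exact dvd_add (Dvd.dvd.mul_left (dvd_pow h1 two_ne_zero) _) hD
    exact hpp.dvd_of_dvd_pow h3
  have hJ4 : jacobiSym 4 p = 1 := by
    have h1 : (4 : ℤ) = 2 ^ 2 := by norm_num
    rw [h1]
    exact s2a_sq hp h2
  have hJd : jacobiSym d p = 1 := by
    have h1 : jacobiSym (4 * d * w ^ 2) p = 1 := by
      rw [s2a_congr (y := (2 * d * u ^ 2 + a) ^ 2) (by
        rw [hid]
        have h3 : (2 * d * u ^ 2 + a) ^ 2 - (a ^ 2 - 4 * b) - (2 * d * u ^ 2 + a) ^ 2 =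
          -(a ^ 2 - 4 * b) := by ring
        rw [h3]
        exact (dvd_neg).2 hD)]
      exact s2a_sq hp hne
    rw [jacobiSym.mul_left, jacobiSym.mul_left, hJ4, s2a_sq hp hw, one_mul, mul_one] at h1
    exact h1
  have hJb : jacobiSym b p = 1 := by
    have ha : ¬ (p : ℤ) ∣ a := by
      intro h1
      have h3 : (p : ℤ) ∣ 2 * 2 * b := by
        have h4 : 2 * 2 * b = a ^ 2 - (a ^ 2 - 4 * b) := by ring
        rw [h4]
        exact dvd_sub (dvd_pow h1 two_ne_zero) hD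
      rcases hpp.dvd_or_dvd h3 with h5 | h5
      · rcases hpp.dvd_or_dvd h5 with h6 | h6
        · exact h2 h6
        · exact h2 h6
      · exact hpb h5
    have h1 : jacobiSym (4 * b) p = 1 := by
      rw [s2a_congr (y := a ^ 2) (by
        have h3 : 4 * b - a ^ 2 = -(a ^ 2 - 4 * b) := by ring
        rw [h3]
        exact (dvd_neg).2 hD)]
      exact s2a_sq hp ha
    rw [jacobiSym.mul_left, hJ4, one_mul] at h1
    exact h1
  rw [hb, jacobiSym.mul_left, hJd, one_mul] at hJb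
  exact hJb

end N44
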