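import Pool.Agent.LibN44.Defs

namespace N44

theorem s2b_class (T : Finset ℤ) (H m : ℕ) (hm : 0 < m) (hT : ∀ e ∈ T, |e| ≤ (H : ℤ))
    (hc : ∀ e ∈ T, ∀ e' ∈ T, (m : ℤ) ∣ e - e') : T.card ≤ 2 * H / m + 1 := by
  rcases T.eq_empty_or_nonempty with rfl | hne
  · simp
  · set e0 := T.min' hne with he0
    have he0T : e0 ∈ T := T.min'_mem hne
    have hm' : (0 : ℤ) < m := by exact_mod_cast hm
    have h : T.card ≤ (Finset.range (2 * H / m + 1)).card := by
      refine Finset.card_le_card_of_injOn (fun e => ((e - e0) / m).toNat) ?_ ?_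
      · intro e he
        have he' : e ∈ T := he
        have h1 : e0 ≤ e := T.min'_le e he'
        have h2 := abs_le.1 (hT e he')
        have h3 := abs_le.1 (hT e0 he0T)
        simp only [Finset.coe_range, Set.mem_Iio]
        have h4 : (e - e0) / m ≤ (2 * H) / m := Int.ediv_le_ediv hm' (by linarith)
        have h5 : 0 ≤ (e - e0) / m := Int.ediv_nonneg (by linarith) hm'.le
        have h6 : (((2 * H / m : ℕ)) : ℤ) = (2 * H) / m := by push_cast; rfl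
        omega
      · intro e he e' he' hee
        have h1 : e0 ≤ e := T.min'_le e he
        have h1' : e0 ≤ e' := T.min'_le e' he'
        have h5 : 0 ≤ (e - e0) / m := Int.ediv_nonneg (by linarith) hm'.le
        have h5' : 0 ≤ (e' - e0) / m := Int.ediv_nonneg (by linarith) hm'.le
        have h6 : (e - e0) / m = (e' - e0) / m := by
          simp only at hee
          omega
        have h7 := Int.ediv_mul_cancel (hc e he e0 he0T)
        have h8 := Int.ediv_mul_cancel (hc e' he' e0 he0T)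
        rw [h6, h8] at h7
        linarith
    rwa [Finset.card_range] at h

theorem s2b_A (S : Finset (ℤ × ℤ)) (H p : ℕ) (hH : 1 ≤ H) (hp : p.Prime) (hp2 : 2 < p)
    (hS : ∀ z ∈ S, |z.1| ≤ (H : ℤ) ∧ |z.2| ≤ (H : ℤ) ^ 2 ∧ (p : ℤ) ^ 2 ∣ z.1 ^ 2 - 4 * z.2) :
    (S.card : ℝ) ≤ 6 * (H : ℝ) ^ 3 * ((p : ℝ) ^ 2)⁻¹ + 3 * H := by
  have hp0 : (0 : ℝ) < p := by exact_mod_cast hp.pos
  have hH1 : (1 : ℝ) ≤ H := by exact_mod_cast hH
  have hcop : IsCoprime ((p : ℤ) ^ 2) 4 := by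
    have h4 : (4 : ℤ) = 2 ^ 2 := by norm_num
    rw [h4]
    apply IsCoprime.pow
    rw [Int.isCoprime_iff_gcd_eq_one]
    have : Nat.Coprime p 2 := (Nat.coprime_primes hp Nat.prime_two).2 (by omega)
    exact_mod_cast this
  have hfib : ∀ c ∈ S.image Prod.fst,
      (S.filter (fun x => x.1 = c)).card ≤ 2 * H ^ 2 / p ^ 2 + 1 := by
    intro c _
    have hinj : Set.InjOn Prod.snd ((S.filter (fun x => x.1 = c) : Finset (ℤ × ℤ)) :
        Set (ℤ × ℤ)) := by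
      intro a ha b hb hab
      rw [Finset.mem_coe, Finset.mem_filter] at ha hb
      exact Prod.ext (ha.2.trans hb.2.symm) hab
    rw [← Finset.card_image_of_injOn hinj]
    refine s2b_class _ (H ^ 2) (p ^ 2) (pow_pos hp.pos 2) ?_ ?_
    · intro e he
      rw [Finset.mem_image] at he
      obtain ⟨x, hx, rfl⟩ := he
      have h1 := (hS x (Finset.mem_filter.1 hx).1).2.1
      push_cast
      exact h1
    · intro e he e' he'
      rw [Finset.mem_image] at he he'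
      obtain ⟨x, hx, rfl⟩ := he
      obtain ⟨x', hx', rfl⟩ := he'
      rw [Finset.mem_filter] at hx hx'
      have h5 := (hS x hx.1).2.2
      have h6 := (hS x' hx'.1).2.2
      have h7 : (p : ℤ) ^ 2 ∣ 4 * (x.2 - x'.2) := by
        have h8 : 4 * (x.2 - x'.2) = (x'.1 ^ 2 - 4 * x'.2) - (x.1 ^ 2 - 4 * x.2) := by
          rw [hx.2, hx'.2]
          ring
        rw [h8]
        exact dvd_sub h6 h5
      push_cast
      exact hcop.dvd_of_dvd_mul_left h7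
  have hcard := Finset.card_le_mul_card_image S _ hfib
  have himg : (S.image Prod.fst).card ≤ 2 * H + 1 := by
    have h5 : S.image Prod.fst ⊆ Finset.Icc (-(H : ℤ)) H := by
      intro c hc
      rw [Finset.mem_image] at hc
      obtain ⟨x, hx, rfl⟩ := hc
      exact Finset.mem_Icc.2 (abs_le.1 (hS x hx).1)
    have h6 := Finset.card_le_card h5
    rw [Int.card_Icc] at h6
    omega
  have hN : S.card ≤ (2 * H ^ 2 / p ^ 2 + 1) * (2 * H + 1) :=
    hcard.trans (Nat.mul_le_mul_left _ himg)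
  have hR : (S.card : ℝ) ≤ (((2 * H ^ 2 / p ^ 2 : ℕ) : ℝ) + 1) * (2 * H + 1) := by
    exact_mod_cast hN
  have hdiv : ((2 * H ^ 2 / p ^ 2 : ℕ) : ℝ) ≤ 2 * (H : ℝ) ^ 2 / (p : ℝ) ^ 2 := by
    have := @Nat.cast_div_le ℝ _ _ _ (2 * H ^ 2) (p ^ 2)
    push_cast at this
    exact this
  calc (S.card : ℝ) ≤ _ := hR
    _ ≤ (2 * (H : ℝ) ^ 2 / (p : ℝ) ^ 2 + 1) * (3 * H) := by
      refine mul_le_mul (by linarith) (by linarith) (by positivity) (by positivity)
    _ = 6 * (H : ℝ) ^ 3 * ((p : ℝ) ^ 2)⁻¹ + 3 * H := by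
      rw [div_eq_mul_inv]
      ring

theorem s2b_B (S : Finset (ℤ × ℤ)) (H p : ℕ) (hp : 0 < p)
    (hS : ∀ z ∈ S, |z.1| ≤ (H : ℤ) ∧ |z.2| ≤ (H : ℤ) ^ 2 ∧ z.1 ≠ 0 ∧ (p : ℤ) ∣ z.1 ∧
      (p : ℤ) ∣ z.2) : (S.card : ℝ) ≤ 9 * (H : ℝ) ^ 3 * ((p : ℝ) ^ 2)⁻¹ := by
  have hp0 : (0 : ℝ) < p := by exact_mod_cast hp
  rcases S.eq_empty_or_nonempty with rfl | ⟨z, hz⟩
  · simp only [Finset.card_empty, Nat.cast_zero]
    positivity
  · obtain ⟨h1, h2, h3, h4, h5⟩ := hS z hz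
    have hpH : (p : ℤ) ≤ H := (Int.le_of_dvd (abs_pos.2 h3) ((dvd_abs _ _).2 h4)).trans h1
    have hpHR : (p : ℝ) ≤ H := by exact_mod_cast hpH
    have hp1 : (1 : ℝ) ≤ p := by exact_mod_cast hp
    have hT1 : (S.image Prod.fst).card ≤ 2 * H / p + 1 := by
      refine s2b_class _ H p hp ?_ ?_
      · intro e he
        rw [Finset.mem_image] at he
        obtain ⟨x, hx, rfl⟩ := he
        exact (hS x hx).1
      · intro e he e' he'
        rw [Finset.mem_image] at he he'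
        obtain ⟨x, hx, rfl⟩ := he
        obtain ⟨x', hx', rfl⟩ := he'
        exact dvd_sub (hS x hx).2.2.2.1 (hS x' hx').2.2.2.1
    have hT2 : (S.image Prod.snd).card ≤ 2 * H ^ 2 / p + 1 := by
      refine s2b_class _ (H ^ 2) p hp ?_ ?_
      · intro e he
        rw [Finset.mem_image] at he
        obtain ⟨x, hx, rfl⟩ := he
        have h6 := (hS x hx).2.1
        push_cast
        exact h6
      · intro e he e' he'
        rw [Finset.mem_image] at he he'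
        obtain ⟨x, hx, rfl⟩ := he
        obtain ⟨x', hx', rfl⟩ := he'
        exact dvd_sub (hS x hx).2.2.2.2 (hS x' hx').2.2.2.2
    have hsub : S ⊆ (S.image Prod.fst) ×ˢ (S.image Prod.snd) := by
      intro x hx
      rw [Finset.mem_product]
      exact ⟨Finset.mem_image_of_mem _ hx, Finset.mem_image_of_mem _ hx⟩
    have hcard := Finset.card_le_card hsub
    rw [Finset.card_product] at hcard
    have hN : S.card ≤ (2 * H / p + 1) * (2 * H ^ 2 / p + 1) :=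
      hcard.trans (Nat.mul_le_mul hT1 hT2)
    have hR : (S.card : ℝ) ≤ (((2 * H / p : ℕ) : ℝ) + 1) * (((2 * H ^ 2 / p : ℕ) : ℝ) + 1) := by
      exact_mod_cast hN
    have hdiv : ((2 * H / p : ℕ) : ℝ) ≤ 2 * H / (p : ℝ) := by
      have := @Nat.cast_div_le ℝ _ _ _ (2 * H) p
      push_cast at this
      exact this
    have hdiv2 : ((2 * H ^ 2 / p : ℕ) : ℝ) ≤ 2 * (H : ℝ) ^ 2 / (p : ℝ) := by
      have := @Nat.cast_div_le ℝ _ _ _ (2 * H ^ 2) p
      push_cast at this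
      exact this
    have h1le : (1 : ℝ) ≤ H / (p : ℝ) := by
      rw [le_div_iff₀ hp0]
      linarith
    have h1le2 : (1 : ℝ) ≤ (H : ℝ) ^ 2 / (p : ℝ) := by
      rw [le_div_iff₀ hp0]
      nlinarith
    have h6 : ((2 * H / p : ℕ) : ℝ) + 1 ≤ 3 * H / (p : ℝ) := by
      have : 3 * (H : ℝ) / (p : ℝ) = 2 * H / (p : ℝ) + H / (p : ℝ) := by ring
      rw [this]
      linarith
    have h7 : ((2 * H ^ 2 / p : ℕ) : ℝ) + 1 ≤ 3 * (H : ℝ) ^ 2 / (p : ℝ) := by
      have : 3 * (H : ℝ) ^ 2 / (p : ℝ) = 2 * (H : ℝ) ^ 2 / (p : ℝ) + (H : ℝ) ^ 2 / (p : ℝ) := by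
        ring
      rw [this]
      linarith
    calc (S.card : ℝ) ≤ _ := hR
      _ ≤ (3 * H / (p : ℝ)) * (3 * (H : ℝ) ^ 2 / (p : ℝ)) := by
        refine mul_le_mul h6 h7 (by positivity) (by positivity)
      _ = 9 * (H : ℝ) ^ 3 * ((p : ℝ) ^ 2)⁻¹ := by
        field_simp
        ring

theorem s2b_zero (S : Finset (ℤ × ℤ)) (H : ℕ) (hH : 1 ≤ H)
    (hS : ∀ z ∈ S, |z.2| ≤ (H : ℤ) ^ 2 ∧ z.1 = 0) : (S.card : ℝ) ≤ 3 * (H : ℝ) ^ 2 := by
  have hH1 : (1 : ℝ) ≤ H := by exact_mod_cast hH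
  have hinj : Set.InjOn Prod.snd (S : Set (ℤ × ℤ)) := by
    intro a ha b hb hab
    exact Prod.ext ((hS a ha).2.trans (hS b hb).2.symm) hab
  have h1 : (S.image Prod.snd).card = S.card := Finset.card_image_of_injOn hinj
  have h5 : S.image Prod.snd ⊆ Finset.Icc (-((H : ℤ) ^ 2)) ((H : ℤ) ^ 2) := by
    intro c hc
    rw [Finset.mem_image] at hc
    obtain ⟨x, hx, rfl⟩ := hc
    exact Finset.mem_Icc.2 (abs_le.1 (hS x hx).1)
  have h6 := Finset.card_le_card h5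
  rw [Int.card_Icc, h1] at h6
  have h7 : S.card ≤ 2 * H ^ 2 + 1 := by
    have h8 : ((H ^ 2 : ℕ) : ℤ) = (H : ℤ) ^ 2 := by push_cast; rfl
    rw [← h8] at h6
    omega
  have h9 : (S.card : ℝ) ≤ 2 * (H : ℝ) ^ 2 + 1 := by exact_mod_cast h7
  nlinarith

/-- Row S2b. The removed pairs are few. `a = 0`: at most `2 H² + 1` pairs. `p² ∣ a² - 4 b` with `p > w`
(so `p` odd): `p² ≤ |D| ≤ 5 H²`, `p ≤ 3 H`; for given `a` the numbers `b` are in one class mod `p²`, at most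
`2 H² / p² + 1` of them; `∑_{w < p ≤ 3H} (2H+1) (2H²/p² + 1) ≤ C (H³ / w + H²)`. `p ∣ a ≠ 0`, `p ∣ b ≠ 0`:
`p ≤ H`, at most `(2H/p + 1)(2H²/p + 1) ≤ 9 H³/p²` pairs. (`∑_{n > w} 1/n² ≤ 1/w`.) Compare
`Pool/Agent/LibTwC/C2.lean` (few_pairs). -/
theorem few_ab : ∃ C : ℝ, 0 < C ∧ ∀ H w : ℕ, 1 ≤ H → 2 ≤ w → ∀ S : Finset (ℤ × ℤ),
    (∀ z ∈ S, Box H z ∧ Few w z) → (S.card : ℝ) ≤ C * ((H : ℝ) ^ 3 / w + (H : ℝ) ^ 2) := by
  classical
  refine ⟨15, by norm_num, fun H w hH hw S hS => ?_⟩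
  have hw0 : (0 : ℝ) < w := by
    have : 0 < w := by omega
    exact_mod_cast this
  have hH1 : (1 : ℝ) ≤ H := by exact_mod_cast hH
  set S0 := S.filter (fun z => z.1 = 0) with hS0
  set Sp : ℕ → Finset (ℤ × ℤ) := fun p => if p.Prime then
    S.filter (fun z => z.1 ≠ 0 ∧ ((p : ℤ) ^ 2 ∣ z.1 ^ 2 - 4 * z.2 ∨
      ((p : ℤ) ∣ z.1 ∧ (p : ℤ) ∣ z.2))) else ∅ with hSp
  have hcover : S ⊆ S0 ∪ (Finset.Ioc w (3 * H)).biUnion Sp := by
    intro z hz
    obtain ⟨⟨h1, h2, h3, h4⟩, hf⟩ := hS z hz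
    rw [Finset.mem_union]
    by_cases h0 : z.1 = 0
    · left
      rw [hS0, Finset.mem_filter]
      exact ⟨hz, h0⟩
    · right
      rcases hf with hf | ⟨p, hp, hwp, hdiv⟩
      · exact absurd hf h0
      · rw [Finset.mem_biUnion]
        refine ⟨p, ?_, ?_⟩
        · rw [Finset.mem_Ioc]
          refine ⟨hwp, ?_⟩
          have ha1 := abs_le.1 h1
          have ha2 := abs_le.1 h2
          have hHz : (1 : ℤ) ≤ H := by exact_mod_cast hH
          have hp1 : (1 : ℤ) ≤ p := by exact_mod_cast hp.one_lt.le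
          rcases hdiv with hd | ⟨hd, _⟩
          · have h5 : (p : ℤ) ^ 2 ≤ |z.1 ^ 2 - 4 * z.2| :=
              Int.le_of_dvd (abs_pos.2 h4) ((dvd_abs _ _).2 hd)
            have h6 : |z.1 ^ 2 - 4 * z.2| ≤ 5 * (H : ℤ) ^ 2 := by
              have h7 : z.1 ^ 2 ≤ (H : ℤ) ^ 2 := sq_le_sq' ha1.1 ha1.2
              have h8 : 0 ≤ z.1 ^ 2 := sq_nonneg _
              rw [abs_le]
              constructor <;> linarith [ha2.1, ha2.2]
            have h9 : (p : ℤ) ≤ 3 * H := by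
              by_contra hcon
              push Not at hcon
              nlinarith
            exact_mod_cast h9
          · have h5 : (p : ℤ) ≤ |z.1| := Int.le_of_dvd (abs_pos.2 h0) ((dvd_abs _ _).2 hd)
            have h9 : (p : ℤ) ≤ 3 * H := by linarith
            exact_mod_cast h9
        · simp only [hSp, if_pos hp, Finset.mem_filter]
          exact ⟨hz, h0, hdiv⟩
  have hSpcard : ∀ p ∈ Finset.Ioc w (3 * H),
      ((Sp p).card : ℝ) ≤ 15 * (H : ℝ) ^ 3 * ((p : ℝ) ^ 2)⁻¹ + 3 * H := by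
    intro p hpm
    rw [Finset.mem_Ioc] at hpm
    by_cases hp : p.Prime
    · set A := S.filter (fun z => (p : ℤ) ^ 2 ∣ z.1 ^ 2 - 4 * z.2) with hA
      set B := S.filter (fun z => z.1 ≠ 0 ∧ (p : ℤ) ∣ z.1 ∧ (p : ℤ) ∣ z.2) with hB
      have hsub : Sp p ⊆ A ∪ B := by
        intro z hz
        simp only [hSp, if_pos hp, Finset.mem_filter] at hz
        simp only [hA, hB, Finset.mem_union, Finset.mem_filter]
        rcases hz.2.2 with hd | hd
        · left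
          exact ⟨hz.1, hd⟩
        · right
          exact ⟨hz.1, hz.2.1, hd⟩
      have hcA : (A.card : ℝ) ≤ 6 * (H : ℝ) ^ 3 * ((p : ℝ) ^ 2)⁻¹ + 3 * H := by
        refine s2b_A A H p hH hp (by omega) fun z hz => ?_
        rw [hA, Finset.mem_filter] at hz
        obtain ⟨⟨h1, h2, -⟩, -⟩ := hS z hz.1
        exact ⟨h1, h2, hz.2⟩
      have hcB : (B.card : ℝ) ≤ 9 * (H : ℝ) ^ 3 * ((p : ℝ) ^ 2)⁻¹ := by
        refine s2b_B B H p hp.pos fun z hz => ?_
        rw [hB, Finset.mem_filter] at hz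
        obtain ⟨⟨h1, h2, -⟩, -⟩ := hS z hz.1
        exact ⟨h1, h2, hz.2.1, hz.2.2.1, hz.2.2.2⟩
      have h5 : (Sp p).card ≤ A.card + B.card :=
        (Finset.card_le_card hsub).trans (Finset.card_union_le _ _)
      have h6 : ((Sp p).card : ℝ) ≤ A.card + B.card := by exact_mod_cast h5
      linarith
    · have h5 : Sp p = ∅ := by simp only [hSp, if_neg hp]
      rw [h5, Finset.card_empty, Nat.cast_zero]
      positivity
  have hsum : (S.card : ℝ) ≤ S0.card + ∑ p ∈ Finset.Ioc w (3 * H), ((Sp p).card : ℝ) := by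
    have h5 := (Finset.card_le_card hcover).trans ((Finset.card_union_le _ _).trans
      (Nat.add_le_add_left Finset.card_biUnion_le _))
    exact_mod_cast h5
  have h0card : (S0.card : ℝ) ≤ 3 * (H : ℝ) ^ 2 := by
    refine s2b_zero S0 H hH fun z hz => ?_
    rw [hS0, Finset.mem_filter] at hz
    obtain ⟨⟨h1, h2, -⟩, -⟩ := hS z hz.1
    exact ⟨h2, hz.2⟩
  have hinv : ∑ p ∈ Finset.Ioc w (3 * H), ((p : ℝ) ^ 2)⁻¹ ≤ (w : ℝ)⁻¹ := by
    rcases le_or_gt w (3 * H) with h | h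
    · have h5 := sum_Ioc_inv_sq_le_sub (α := ℝ) (k := w) (n := 3 * H) (by omega) h
      have h6 : (0 : ℝ) ≤ ((3 * H : ℕ) : ℝ)⁻¹ := by positivity
      linarith
    · rw [Finset.Ioc_eq_empty (by omega), Finset.sum_empty]
      positivity
  have hcnt : ((Finset.Ioc w (3 * H)).card : ℝ) ≤ 3 * H := by
    rw [Nat.card_Ioc]
    have : 3 * H - w ≤ 3 * H := Nat.sub_le _ _
    exact_mod_cast this
  have hmain : ∑ p ∈ Finset.Ioc w (3 * H), ((Sp p).card : ℝ) ≤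
      15 * (H : ℝ) ^ 3 * (w : ℝ)⁻¹ + 9 * (H : ℝ) ^ 2 := by
    calc ∑ p ∈ Finset.Ioc w (3 * H), ((Sp p).card : ℝ)
        ≤ ∑ p ∈ Finset.Ioc w (3 * H), (15 * (H : ℝ) ^ 3 * ((p : ℝ) ^ 2)⁻¹ + 3 * H) :=
          Finset.sum_le_sum hSpcard
      _ = 15 * (H : ℝ) ^ 3 * ∑ p ∈ Finset.Ioc w (3 * H), ((p : ℝ) ^ 2)⁻¹ +
          (Finset.Ioc w (3 * H)).card * (3 * H) := by
        rw [Finset.sum_add_distrib, Finset.mul_sum, Finset.sum_const, nsmul_eq_mul]
      _ ≤ 15 * (H : ℝ) ^ 3 * (w : ℝ)⁻¹ + (3 * H) * (3 * H) :=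
        add_le_add (mul_le_mul_of_nonneg_left hinv (by positivity))
          (mul_le_mul_of_nonneg_right hcnt (by positivity))
      _ = _ := by ring
  have hfin : (15 : ℝ) * ((H : ℝ) ^ 3 / w + (H : ℝ) ^ 2) =
      15 * (H : ℝ) ^ 3 * (w : ℝ)⁻¹ + 15 * (H : ℝ) ^ 2 := by
    rw [div_eq_mul_inv]
    ring
  rw [hfin]
  have hsq : 0 ≤ (H : ℝ) ^ 2 := sq_nonneg _
  linarith

end N44
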