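import Pool.Agent.LibN44.Defs

namespace N44

/-- the class of `j` mod `p` given by the class `h` mod `p` of `t + δ j` -/
private noncomputable def s2c_f (δ : ℕ) (t : ℤ) (p h : ℕ) : ℕ :=
  (((h : ZMod p) - (t : ZMod p)) * ((δ : ZMod p))⁻¹).val

private theorem s2c_lt {p : ℕ} (hp : p.Prime) (δ : ℕ) (t : ℤ) (h : ℕ) : s2c_f δ t p h < p := by
  have : NeZero p := ⟨hp.ne_zero⟩
  exact ZMod.val_lt _

private theorem s2c_key {p : ℕ} (hp : p.Prime) {δ : ℕ} (hδ : ¬ p ∣ δ) (t : ℤ) (h : ℕ) (j : ℤ)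
    (hj : j ≡ (s2c_f δ t p h : ℤ) [ZMOD p]) : t + δ * j ≡ (h : ℤ) [ZMOD p] := by
  have : Fact p.Prime := ⟨hp⟩
  have hδ0 : (δ : ZMod p) ≠ 0 := by
    rw [Ne, ZMod.natCast_eq_zero_iff]; exact hδ
  rw [← ZMod.intCast_eq_intCast_iff] at hj ⊢
  have h1 : ((s2c_f δ t p h : ℤ) : ZMod p) = ((h : ZMod p) - (t : ZMod p)) * ((δ : ZMod p))⁻¹ := by
    rw [s2c_f, Int.cast_natCast, ZMod.natCast_zmod_val]
  rw [h1] at hj
  push_cast
  rw [hj]
  field_simp
  ring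

private theorem s2c_inj {p : ℕ} (hp : p.Prime) {δ : ℕ} (hδ : ¬ p ∣ δ) (t : ℤ) {h h' : ℕ}
    (hh : h < p) (hh' : h' < p) (he : s2c_f δ t p h = s2c_f δ t p h') : h = h' := by
  have h1 := s2c_key hp hδ t h (s2c_f δ t p h : ℤ) (Int.ModEq.refl _)
  have h2 := s2c_key hp hδ t h' (s2c_f δ t p h : ℤ) (by rw [he])
  have h3 : (h : ℤ) ≡ (h' : ℤ) [ZMOD p] := h1.symm.trans h2
  rw [Int.natCast_modEq_iff] at h3
  exact h3.eq_of_lt_of_lt hh hh'

/-- Row S2c. Upper bound sieve in an arithmetic progression, at most two classes removed for each prime.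
Proof: `n = t + δ j`, `j` in an interval of `M` consecutive integers (start `⌈(A - t)/δ⌉`); for `p ∈ Q`
(`p ∤ δ`) the class `h` mod `p` of `n` is one class mod `p` of `j` (take the representative in `[0,p)` of
`(h - t) δ⁻¹`); `RD69.sieve_ub` with `r = 2`, `k = 2 C`, and `∏ (1 - x_p) ≤ exp (- ∑ x_p)`. -/
theorem sieve_ap : ∃ k : ℕ, 1 ≤ k ∧ ∀ (M z δ : ℕ) (A t : ℤ) (Q : Finset ℕ) (Ω : ℕ → Finset ℕ),
    2 ≤ z → z ^ k ≤ M → 0 < δ →
    (∀ p ∈ Q, p.Prime ∧ 4 ≤ p ∧ p ≤ z ∧ ¬ p ∣ δ ∧ (Ω p).card ≤ 2 ∧ ∀ h ∈ Ω p, h < p) →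
    ∀ S : Finset ℤ, (∀ n ∈ S, A ≤ n ∧ n < A + δ * M ∧ n ≡ t [ZMOD δ] ∧
      ∀ p ∈ Q, ∀ h ∈ Ω p, ¬ n ≡ (h : ℤ) [ZMOD p]) →
    (S.card : ℝ) ≤ 18 * M * Real.exp (- ∑ p ∈ Q, ((Ω p).card : ℝ) / p) := by
  classical
  obtain ⟨C, hC, hsv⟩ := RD69.sieve_ub
  refine ⟨C * 2, by omega, ?_⟩
  intro M z δ A t Q Ω hz hzM hδ hQ S hS
  have hδ' : (0 : ℤ) < δ := by exact_mod_cast hδ
  have hdiv : ∀ n ∈ S, n = t + δ * ((n - t) / δ) := by
    intro n hn
    obtain ⟨_, _, h3, _⟩ := hS n hn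
    have h4 : (δ : ℤ) ∣ n - t := h3.symm.dvd
    have h5 := Int.mul_ediv_cancel' h4
    linarith
  have hcard : (S.image (fun n => (n - t) / (δ : ℤ))).card = S.card := by
    apply Finset.card_image_of_injOn
    intro n hn m hm h
    simp only at h
    rw [hdiv n hn, hdiv m hm, h]
  have hΩcard : ∀ p ∈ Q, ((Ω p).image (s2c_f δ t p)).card = (Ω p).card := by
    intro p hp
    obtain ⟨h1, _, _, h4, _, h6⟩ := hQ p hp
    apply Finset.card_image_of_injOn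
    intro a ha b hb h
    exact s2c_inj h1 h4 t (h6 a ha) (h6 b hb) h
  have key := hsv 2 z M Q (fun p => (Ω p).image (s2c_f δ t p)) (by norm_num) hz ?_ hzM
    (-((t - A) / δ)) (S.image (fun n => (n - t) / (δ : ℤ))) ?_ ?_
  · rw [hcard] at key
    refine key.trans ?_
    rw [← Finset.sum_neg_distrib, Real.exp_sum]
    apply mul_le_mul_of_nonneg_left _ (by positivity)
    apply Finset.prod_le_prod
    · intro p hp
      obtain ⟨h1, h2, _, _, h5, _⟩ := hQ p hp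
      rw [hΩcard p hp]
      have h6 : (4 : ℝ) ≤ p := by exact_mod_cast h2
      have h7 : ((Ω p).card : ℝ) ≤ 2 := by exact_mod_cast h5
      rw [sub_nonneg, div_le_one (by linarith)]
      linarith
    · intro p hp
      rw [hΩcard p hp]
      exact Real.one_sub_le_exp_neg _
  · intro p hp
    obtain ⟨h1, h2, h3, h4, h5, h6⟩ := hQ p hp
    refine ⟨h1, h2, h3, ?_, ?_⟩
    · rw [hΩcard p hp]; exact h5
    · intro h hh
      rw [Finset.mem_image] at hh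
      obtain ⟨a, _, rfl⟩ := hh
      exact s2c_lt h1 δ t a
  · intro j hj
    rw [Finset.mem_image] at hj
    obtain ⟨n, hn, rfl⟩ := hj
    obtain ⟨h1, h2, _, _⟩ := hS n hn
    have h3 := hdiv n hn
    set j := (n - t) / (δ : ℤ) with hj
    rw [Finset.mem_Ico]
    constructor
    · have : -j ≤ (t - A) / δ := by
        apply Int.le_ediv_of_mul_le hδ'
        nlinarith
      linarith
    · have : (t - A) / δ < M - j := by
        apply Int.ediv_lt_of_lt_mul hδ'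
        nlinarith
      linarith
  · intro p hp j hj h hh hmod
    rw [Finset.mem_image] at hj hh
    obtain ⟨n, hn, rfl⟩ := hj
    obtain ⟨a, ha, rfl⟩ := hh
    obtain ⟨h1, h2, h3, h4, h5, h6⟩ := hQ p hp
    obtain ⟨_, _, _, h7⟩ := hS n hn
    apply h7 p hp a ha
    have h8 := s2c_key h1 h4 t a _ hmod
    rw [← hdiv n hn] at h8
    exact h8

end N44
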