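import Pool.Agent.LibN44.Defs

namespace N44

open TwHL

private theorem s2d_split (f : ℕ → ℝ) {w z : ℕ} (h : w ≤ z) :
    ∑ p ∈ (PP z).filter (fun p => w < p), f p = ∑ p ∈ PP z, f p - ∑ p ∈ PP w, f p := by
  classical
  have h1 : (PP z).filter (fun p => ¬ w < p) = PP w := by
    ext p
    simp only [PP, Finset.mem_filter, Finset.mem_Icc]
    constructor
    · rintro ⟨⟨⟨a, b⟩, c⟩, d⟩; exact ⟨⟨a, by omega⟩, c⟩
    · rintro ⟨⟨a, b⟩, c⟩; exact ⟨⟨⟨a, by omega⟩, c⟩, by omega⟩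
  have h2 := Finset.sum_filter_add_sum_filter_not (PP z) (fun p => w < p) f
  rw [h1] at h2
  linarith

private theorem s2d_card {n : ℕ} (hn : n ≠ 0) :
    (n.primeFactors.card : ℝ) * Real.log 2 ≤ Real.log n := by
  have h1 : 2 ^ n.primeFactors.card ≤ n := by
    calc 2 ^ n.primeFactors.card = ∏ p ∈ n.primeFactors, 2 := by simp
      _ ≤ ∏ p ∈ n.primeFactors, p :=
        Finset.prod_le_prod' fun p hp => (Nat.prime_of_mem_primeFactors hp).two_le
      _ ≤ n := Nat.le_of_dvd (Nat.pos_of_ne_zero hn) (Nat.prod_primeFactors_dvd n)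
  have h2 : ((2 : ℝ) ^ n.primeFactors.card) ≤ n := by exact_mod_cast h1
  have h3 := Real.log_le_log (by positivity) h2
  rw [Real.log_pow] at h3
  exact h3

/-- Row S2d. Many primes with `(κ/p) = -1`, uniformly in the nonsquare `κ`. Proof: the sum is
`∑_{w<p≤z, p∤κ} (1 - (κ/p))/(2p) ≥ (1/2) ∑_{w<p≤z} 1/p - (1/2) ∑_{w<p≤z} (κ/p)/p - (1/2) ∑_{p>w, p∣κ} 1/p`.
First: `TwHL.mertens` twice: `≥ LL z - LL w - 2C`. Second: `∑_{p≤z}` by `TwHL.chi_upper` `≤ LL |κ| + C`,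
minus `∑_{p≤w} ≥ - ∑_{p≤w} 1/p ≥ - LL w - C`. Third: at most `log |κ| / log 2` primes divide `κ`, each term
`≤ 1/w`, and `log |κ| ≤ w`. (Here `(κ/p)` is `jacobiSym κ p`; for `p ∣ κ` it is `0`; for `p = 2` and `κ` odd
it is `1`.) Compare `Pool/Agent/LibTwC/C6.lean`. -/
theorem chi_minus : ∃ C : ℝ, 0 < C ∧ ∀ κ : ℤ, ¬ IsSquare κ → ∀ w z : ℕ, 1 ≤ w → w ≤ z →
    Real.log κ.natAbs ≤ w →
    1 / 2 * LL z - LL w - 1 / 2 * LL κ.natAbs - C ≤
      ∑ p ∈ (PP z).filter (fun p => w < p ∧ ¬ (p : ℤ) ∣ κ ∧ jacobiSym κ p = -1), 1 / (p : ℝ) := by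
  classical
  obtain ⟨C1, hC1, hm⟩ := mertens
  obtain ⟨C2, hC2, hch⟩ := chi_upper
  refine ⟨3 / 2 * C1 + C2 / 2 + 1, by positivity, ?_⟩
  intro κ hκ w z hw hwz hlog
  have hκ0 : κ ≠ 0 := by rintro rfl; exact hκ ⟨0, by simp⟩
  have hn0 : κ.natAbs ≠ 0 := by simpa using hκ0
  have hw0 : (0 : ℝ) < w := by exact_mod_cast hw
  -- the three sums
  have hA := s2d_split (fun p => 1 / (p : ℝ)) hwz
  have hB := s2d_split (fun p => (jacobiSym κ p : ℝ) / p) hwz
  have hmz := abs_le.1 (hm z (hw.trans hwz))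
  have hmw := abs_le.1 (hm w hw)
  have hcz := hch κ hκ z (hw.trans hwz)
  have hjac : ∀ p : ℕ, |(jacobiSym κ p : ℝ)| ≤ 1 := by
    intro p
    rcases jacobiSym.trichotomy κ p with h | h | h <;> rw [h] <;> simp
  have hw1 : -∑ p ∈ PP w, 1 / (p : ℝ) ≤ ∑ p ∈ PP w, (jacobiSym κ p : ℝ) / p := by
    rw [← Finset.sum_neg_distrib]
    apply Finset.sum_le_sum
    intro p _
    have h1 := (abs_le.1 (hjac p)).1
    rw [← neg_div]
    gcongr
  have hC : ∑ p ∈ (PP z).filter (fun p => w < p ∧ (p : ℤ) ∣ κ), 1 / (p : ℝ) ≤ 2 := by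
    have h1 : ∑ p ∈ (PP z).filter (fun p => w < p ∧ (p : ℤ) ∣ κ), 1 / (p : ℝ) ≤
        ∑ p ∈ (PP z).filter (fun p => w < p ∧ (p : ℤ) ∣ κ), 1 / (w : ℝ) := by
      apply Finset.sum_le_sum
      intro p hp
      rw [Finset.mem_filter] at hp
      have : (w : ℝ) ≤ p := by exact_mod_cast hp.2.1.le
      exact one_div_le_one_div_of_le hw0 this
    have h2 : ((PP z).filter (fun p => w < p ∧ (p : ℤ) ∣ κ)).card ≤
        κ.natAbs.primeFactors.card := by
      apply Finset.card_le_card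
      intro p hp
      rw [Finset.mem_filter] at hp
      obtain ⟨h1, _, h2⟩ := hp
      rw [Nat.mem_primeFactors]
      refine ⟨?_, ?_, hn0⟩
      · rw [PP, Finset.mem_filter] at h1; exact h1.2
      · exact Int.natCast_dvd.1 h2
    have h3 := s2d_card hn0
    have h4 : (1 : ℝ) / 2 ≤ Real.log 2 := by
      have := Real.log_two_gt_d9; linarith
    rw [Finset.sum_const, nsmul_eq_mul] at h1
    have h5 : (((PP z).filter (fun p => w < p ∧ (p : ℤ) ∣ κ)).card : ℝ) ≤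
        κ.natAbs.primeFactors.card := by exact_mod_cast h2
    have h6 : (κ.natAbs.primeFactors.card : ℝ) ≤ 2 * w := by
      have h7 : (0 : ℝ) ≤ κ.natAbs.primeFactors.card := Nat.cast_nonneg _
      nlinarith
    calc _ ≤ _ := h1
      _ ≤ (2 * w) * (1 / w) := by gcongr; exact h5.trans h6
      _ = 2 := by field_simp
  -- the comparison
  have hkey : ∑ p ∈ (PP z).filter (fun p => w < p), (1 / 2 * (1 / (p : ℝ)) -
      1 / 2 * ((jacobiSym κ p : ℝ) / p)) ≤
      ∑ p ∈ (PP z).filter (fun p => w < p ∧ ¬ (p : ℤ) ∣ κ ∧ jacobiSym κ p = -1), 1 / (p : ℝ) +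
      1 / 2 * ∑ p ∈ (PP z).filter (fun p => w < p ∧ (p : ℤ) ∣ κ), 1 / (p : ℝ) := by
    rw [Finset.mul_sum]
    have e1 : (PP z).filter (fun p => w < p ∧ ¬ (p : ℤ) ∣ κ ∧ jacobiSym κ p = -1) =
        ((PP z).filter (fun p => w < p)).filter
          (fun p => ¬ ((p : ℕ) : ℤ) ∣ κ ∧ jacobiSym κ p = -1) := by
      rw [Finset.filter_filter]
    have e2 : (PP z).filter (fun p => w < p ∧ (p : ℤ) ∣ κ) =
        ((PP z).filter (fun p => w < p)).filter (fun p => ((p : ℕ) : ℤ) ∣ κ) := by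
      rw [Finset.filter_filter]
    rw [e1, e2, Finset.sum_filter (fun p : ℕ => ¬ ((p : ℕ) : ℤ) ∣ κ ∧ jacobiSym κ p = -1),
      Finset.sum_filter (fun p : ℕ => ((p : ℕ) : ℤ) ∣ κ), ← Finset.sum_add_distrib]
    apply Finset.sum_le_sum
    intro p hp
    rw [Finset.mem_filter, PP, Finset.mem_filter] at hp
    have hp' : p.Prime := hp.1.2
    have hp0 : (0 : ℝ) < p := by exact_mod_cast hp'.pos
    have hp1 : (0 : ℝ) < 1 / (p : ℝ) := by positivity
    have hdiv : (jacobiSym κ p : ℝ) / p = (jacobiSym κ p : ℝ) * (1 / p) := by ring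
    rw [hdiv]
    by_cases h : (p : ℤ) ∣ κ
    · have h1 : ¬ (¬ (p : ℤ) ∣ κ ∧ jacobiSym κ p = -1) := fun h2 => h2.1 h
      rw [if_neg h1, if_pos h]
      have h2 : jacobiSym κ p = 0 := by
        have : NeZero p := ⟨hp'.ne_zero⟩
        rw [jacobiSym.eq_zero_iff_not_coprime]
        intro h3
        have h4 : (p : ℤ) ∣ (κ.gcd p : ℤ) := Int.dvd_coe_gcd h (dvd_refl _)
        rw [h3] at h4
        have h5 : p ∣ 1 := by exact_mod_cast h4
        exact hp'.one_lt.ne' (Nat.dvd_one.1 h5)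
      rw [h2]; simp
    · rcases jacobiSym.trichotomy κ p with h2 | h2 | h2
      · exfalso
        have : NeZero p := ⟨hp'.ne_zero⟩
        rw [jacobiSym.eq_zero_iff_not_coprime] at h2
        apply h2
        have h3 : IsCoprime (p : ℤ) κ := by
          rw [Int.isCoprime_iff_gcd_eq_one]
          have h4 : p.Coprime κ.natAbs := by
            rw [Nat.Prime.coprime_iff_not_dvd hp']
            intro h5; exact h (Int.natCast_dvd.2 h5)
          simpa [Int.gcd] using h4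
        rw [Int.gcd_comm, ← Int.isCoprime_iff_gcd_eq_one]
        exact h3
      · rw [if_neg h, h2]
        have h3 : ¬ (¬ (p : ℤ) ∣ κ ∧ (1 : ℤ) = -1) := fun h4 => by
          have := h4.2; omega
        rw [if_neg h3]
        push_cast
        linarith
      · rw [if_neg h, h2, if_pos ⟨h, rfl⟩]
        push_cast
        linarith
  rw [Finset.sum_sub_distrib, ← Finset.mul_sum, ← Finset.mul_sum, hA, hB] at hkey
  linarith [hmz.1, hmw.2]

end N44
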