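import Pool.Agent.LibN44.S2b
import Pool.Agent.LibN44.S2c
import Pool.Agent.LibN44.S2d

namespace N44

open TwHL

/-- the class mod `p` which is avoided -/
noncomputable def s2e_cls (a e : ℤ) (p : ℕ) : ℕ :=
  ((a : ZMod p) ^ 2 * (4 * (e : ZMod p))⁻¹).val

theorem s2e_cls_spec (a e : ℤ) (p : ℕ) (hp : p.Prime) (hp4 : 4 ≤ p) (hpe : ¬ (p : ℤ) ∣ e) (t : ℤ)
    (ht : t ≡ (s2e_cls a e p : ℤ) [ZMOD p]) : (p : ℤ) ∣ a ^ 2 - 4 * (e * t) := by
  haveI : Fact p.Prime := ⟨hp⟩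
  have h1 : (t : ZMod p) = ((s2e_cls a e p : ℤ) : ZMod p) := (ZMod.intCast_eq_intCast_iff _ _ _).2 ht
  have h2 : (((s2e_cls a e p : ℕ) : ℤ) : ZMod p) = (a : ZMod p) ^ 2 * (4 * (e : ZMod p))⁻¹ := by
    rw [Int.cast_natCast, s2e_cls, ZMod.natCast_zmod_val]
  have h3 : (e : ZMod p) ≠ 0 := by
    intro h
    exact hpe ((ZMod.intCast_zmod_eq_zero_iff_dvd e p).1 h)
  have h4 : (4 : ZMod p) ≠ 0 := by
    intro h
    have h5 : ((4 : ℕ) : ZMod p) = 0 := by exact_mod_cast h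
    rw [ZMod.natCast_eq_zero_iff] at h5
    have h6 : p ∣ 2 ^ 2 := by
      have : (2 : ℕ) ^ 2 = 4 := by norm_num
      rw [this]
      exact h5
    have h7 := Nat.le_of_dvd (by norm_num) (hp.dvd_of_dvd_pow h6)
    omega
  rw [← ZMod.intCast_zmod_eq_zero_iff_dvd]
  push_cast
  rw [h1, h2]
  field_simp
  ring

/-- the size of the top of the sieve -/
theorem s2e_z (k : ℕ) (hk : 1 ≤ k) : ∃ H₀ : ℕ, ∀ H : ℕ, H₀ ≤ H → ∃ z : ℕ, z ^ k ≤ H ∧
    2 * Real.log H + 4 ≤ z + 1 ∧ (∀ w : ℕ, (w : ℝ) ≤ 2 * Real.log H + 4 → w ≤ z) ∧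
    LL H - Real.log (2 * k) ≤ LL z ∧ 3 ≤ H := by
  have hk0 : (0 : ℝ) < 1 / (k : ℝ) := by
    have : (0 : ℝ) < k := by exact_mod_cast hk
    positivity
  have h1 := (isLittleO_log_rpow_atTop hk0).bound (show (0 : ℝ) < 1 / 7 by norm_num)
  have h2 : ∀ᶠ H : ℕ in Filter.atTop, ‖Real.log (H : ℝ)‖ ≤ 1 / 7 * ‖(H : ℝ) ^ (1 / (k : ℝ))‖ :=
    tendsto_natCast_atTop_atTop.eventually h1
  obtain ⟨H₁, h3⟩ := Filter.eventually_atTop.1 h2
  refine ⟨max H₁ 3, fun H hH => ?_⟩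
  have hH1 : H₁ ≤ H := (le_max_left _ _).trans hH
  have hH3 : 3 ≤ H := (le_max_right _ _).trans hH
  have hHr : (3 : ℝ) ≤ H := by exact_mod_cast hH3
  have hlog : 1 ≤ Real.log H := by
    rw [Real.le_log_iff_exp_le (by linarith)]
    have := Real.exp_one_lt_d9
    linarith
  have h4 := h3 H hH1
  rw [Real.norm_of_nonneg (by linarith), Real.norm_of_nonneg (by positivity)] at h4
  set x : ℝ := (H : ℝ) ^ (1 / (k : ℝ)) with hx
  have hx7 : 7 * Real.log H ≤ x := by linarith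
  have hx0 : 0 < x := by positivity
  have hfl : (⌊x⌋₊ : ℝ) ≤ x := Nat.floor_le hx0.le
  have hfl2 : x < ⌊x⌋₊ + 1 := Nat.lt_floor_add_one x
  have hxk : x ^ k = H := by
    rw [hx, ← Real.rpow_natCast, ← Real.rpow_mul (by positivity)]
    have : (1 / (k : ℝ)) * (k : ℝ) = 1 := by
      have : (k : ℝ) ≠ 0 := by
        have : (0 : ℝ) < k := by exact_mod_cast hk
        exact this.ne'
      field_simp
    rw [this, Real.rpow_one]
  refine ⟨⌊x⌋₊, ?_, ?_, ?_, ?_, hH3⟩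
  · have h5 : ((⌊x⌋₊ : ℝ)) ^ k ≤ x ^ k := pow_le_pow_left₀ (by positivity) hfl k
    rw [hxk] at h5
    exact_mod_cast h5
  · linarith
  · intro w hw
    exact Nat.le_floor (by linarith)
  · have hz1 : x / 2 ≤ ⌊x⌋₊ := by linarith
    have hlz : Real.log x - Real.log 2 ≤ Real.log ⌊x⌋₊ := by
      rw [← Real.log_div hx0.ne' (by norm_num)]
      exact Real.log_le_log (by positivity) hz1
    have hlx : Real.log x = 1 / (k : ℝ) * Real.log H := by
      rw [hx, Real.log_rpow (by positivity)]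
    have hkr : (1 : ℝ) ≤ k := by exact_mod_cast hk
    have hl2 : Real.log 2 < 1 := by
      have := Real.log_two_lt_d9
      linarith
    have h6 : (1 + Real.log H) / (2 * k) ≤ 1 + Real.log ⌊x⌋₊ := by
      have h7 : (1 + Real.log H) / (2 * k) ≤ 1 / (k : ℝ) * Real.log H := by
        rw [div_le_iff₀ (by positivity)]
        have h8 : 1 / (k : ℝ) * Real.log H * (2 * k) = 2 * Real.log H := by
          field_simp
        rw [h8]
        linarith
      rw [hlx] at hlz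
      linarith
    unfold LL
    rw [← Real.log_div (by linarith) (by positivity)]
    exact Real.log_le_log (by positivity) h6

/-- Row S2e. One nonsquare `e`. Fix `a` (`2H+1` values) and write `b = e t`, `|t| ≤ H²/|e|`: an interval of
length `M = 2 (H² / |e|) + 1 ≥ H` (natural division). `Q` = the primes `w < p ≤ z`, `p ∤ e`, `(e/p) = -1`,
`z = ⌊H^(1/k)⌋` (`k` from `sieve_ap`; `z ^ k ≤ H ≤ M`, and `LL z ≥ LL H - log (2k)` for `H ≥ H₀`, `w ≤ z`).
If `p ∈ Q` and `p ∣ a² - 4 e t`, then `p² ∤ D` and `p ∤ b` (not `Few`: `p ∣ D`, `p ∣ b` would give `p ∣ a`),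
so `(e/p) = 1`, no. So `t` avoids one class mod `p` for every `p ∈ Q` (`Ω p` = one element), and
`sieve_ap` (`δ = 1`) and `chi_minus` give the bound. `M ≤ 3 H² / |e|`. -/
theorem sect2_e : ∃ C : ℝ, 0 < C ∧ ∃ H₀ : ℕ, ∀ H w : ℕ, H₀ ≤ H → 4 ≤ w → Real.log H ≤ w →
    (w : ℝ) ≤ 2 * Real.log H + 4 → ∀ e : ℤ, ¬ IsSquare e → e.natAbs ≤ H → ∀ S : Finset (ℤ × ℤ),
    (∀ z ∈ S, Box H z ∧ ¬ Few w z ∧ e ∣ z.2 ∧ ∀ p : ℕ, p.Prime → p ≠ 2 →
      (p : ℤ) ∣ z.1 ^ 2 - 4 * z.2 → ¬ (p : ℤ) ^ 2 ∣ z.1 ^ 2 - 4 * z.2 → ¬ (p : ℤ) ∣ z.2 →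
      jacobiSym e p = 1) →
    (S.card : ℝ) ≤ C * ((H : ℝ) ^ 3 / e.natAbs) *
      Real.exp (- (1 / 2) * LL H + LL w + 1 / 2 * LL e.natAbs) := by
  obtain ⟨k, hk, hsieve⟩ := sieve_ap
  obtain ⟨C₁, hC₁, hchi⟩ := chi_minus
  obtain ⟨H₀, hz⟩ := s2e_z k hk
  refine ⟨162 * Real.exp (C₁ + 1 / 2 * Real.log (2 * k)), by positivity, H₀, ?_⟩
  intro H w hH hw4 hw1 hw2 e he heH S hS
  obtain ⟨z, hzk, -, hwz, hLL, hH3⟩ := hz H hH
  have hwz' : w ≤ z := hwz w hw2
  have he0 : e ≠ 0 := by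
    rintro rfl
    exact he ⟨0, by norm_num⟩
  have hn1 : 1 ≤ e.natAbs := Nat.one_le_iff_ne_zero.2 (Int.natAbs_ne_zero.2 he0)
  set n := e.natAbs with hn
  set N := H ^ 2 / n with hN
  set M := 2 * N + 1 with hM
  set Q := (PP z).filter (fun p => w < p ∧ ¬ (p : ℤ) ∣ e ∧ jacobiSym e p = -1) with hQ
  have hNH : H ≤ N := by
    rw [hN, Nat.le_div_iff_mul_le (by omega), pow_two]
    exact Nat.mul_le_mul_left H heH
  have hHr : (3 : ℝ) ≤ H := by exact_mod_cast hH3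
  have hnr : (1 : ℝ) ≤ n := by exact_mod_cast hn1
  have hnH : (n : ℝ) ≤ H := by exact_mod_cast heH
  have hMr : (M : ℝ) ≤ 3 * ((H : ℝ) ^ 2 / n) := by
    have h1 : (N : ℝ) ≤ (H : ℝ) ^ 2 / n := by
      have := @Nat.cast_div_le ℝ _ _ _ (H ^ 2) n
      rw [hN]
      push_cast at this ⊢
      exact this
    have h2 : (1 : ℝ) ≤ (H : ℝ) ^ 2 / n := by
      rw [le_div_iff₀ (by linarith), one_mul]
      nlinarith
    rw [hM]
    push_cast
    linarith
  have hlogn : Real.log n ≤ w := (Real.log_le_log (by linarith) hnH).trans hw1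
  have hsum := hchi e he w z (by omega) hwz' hlogn
  -- the bound for one fibre
  have key : ∀ a ∈ Finset.Icc (-(H : ℤ)) H, ((S.filter fun z => z.1 = a).card : ℝ) ≤
      18 * M * Real.exp (- ∑ p ∈ Q, 1 / (p : ℝ)) := by
    intro a _
    have hinj : Set.InjOn (fun z : ℤ × ℤ => z.2 / e) (S.filter fun z => z.1 = a : Finset (ℤ × ℤ)) := by
      intro x hx y hy hxy
      rw [Finset.mem_coe, Finset.mem_filter] at hx hy
      have h1 := (hS x hx.1).2.2.1
      have h2 := (hS y hy.1).2.2.1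
      have h3 : x.2 = y.2 := by
        have h3 : x.2 / e = y.2 / e := hxy
        rw [← Int.mul_ediv_cancel' h1, ← Int.mul_ediv_cancel' h2, h3]
      exact Prod.ext (hx.2.trans hy.2.symm) h3
    rw [← Finset.card_image_of_injOn hinj]
    have h := hsieve M z 1 (-(N : ℤ)) 0 Q (fun p => {s2e_cls a e p}) (by omega)
      (by omega) one_pos ?_ ((S.filter fun z => z.1 = a).image fun z : ℤ × ℤ => z.2 / e) ?_
    · simpa only [Finset.card_singleton, Nat.cast_one] using h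
    · intro p hp
      rw [hQ, Finset.mem_filter, PP, Finset.mem_filter, Finset.mem_Icc] at hp
      obtain ⟨⟨⟨-, hpz⟩, hpp⟩, hwp, -, -⟩ := hp
      refine ⟨hpp, by omega, hpz, ?_, ?_, ?_⟩
      · intro h1
        exact hpp.one_lt.ne' (Nat.dvd_one.1 h1)
      · rw [Finset.card_singleton]
        norm_num
      · intro h hh
        rw [Finset.mem_singleton] at hh
        rw [hh]
        haveI : NeZero p := ⟨hpp.ne_zero⟩
        exact ZMod.val_lt _
    · intro t ht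
      rw [Finset.mem_image] at ht
      obtain ⟨x, hx, rfl⟩ := ht
      rw [Finset.mem_filter] at hx
      obtain ⟨hxS, hxa⟩ := hx
      obtain ⟨hbox, hfew, hdiv, hp⟩ := hS x hxS
      have hx2 : e * (x.2 / e) = x.2 := Int.mul_ediv_cancel' hdiv
      have habs : (x.2 / e).natAbs ≤ N := by
        rw [hN, Nat.le_div_iff_mul_le (by omega)]
        have h1 : x.2.natAbs ≤ H ^ 2 := by
          have h2 := hbox.2.1
          zify
          exact h2
        calc (x.2 / e).natAbs * n = (e * (x.2 / e)).natAbs := by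
              rw [Int.natAbs_mul, mul_comm]
          _ = x.2.natAbs := by rw [hx2]
          _ ≤ H ^ 2 := h1
      have habs' : |x.2 / e| ≤ (N : ℤ) := by
        rw [Int.abs_eq_natAbs]
        exact_mod_cast habs
      rw [abs_le] at habs'
      refine ⟨habs'.1, ?_, ?_, ?_⟩
      · rw [hM]
        push_cast
        linarith [habs'.2]
      · exact Int.modEq_one
      · intro p hpQ h hh hmod
        rw [Finset.mem_singleton] at hh
        rw [hh] at hmod
        rw [hQ, Finset.mem_filter, PP, Finset.mem_filter, Finset.mem_Icc] at hpQ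
        obtain ⟨⟨⟨-, hpz⟩, hpp⟩, hwp, hpe, hjac⟩ := hpQ
        have hD := s2e_cls_spec a e p hpp (by omega) hpe _ hmod
        rw [hx2, ← hxa] at hD
        have hD2 : ¬ (p : ℤ) ^ 2 ∣ x.1 ^ 2 - 4 * x.2 := fun h2 =>
          hfew (Or.inr ⟨p, hpp, hwp, Or.inl h2⟩)
        have hb : ¬ (p : ℤ) ∣ x.2 := by
          intro h2
          have h3 : (p : ℤ) ∣ x.1 ^ 2 := by
            have h4 := dvd_add hD (h2.mul_left 4)
            rwa [sub_add_cancel] at h4
          have h4 : (p : ℤ) ∣ x.1 := (Nat.prime_iff_prime_int.1 hpp).dvd_of_dvd_pow h3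
          exact hfew (Or.inr ⟨p, hpp, hwp, Or.inr ⟨h4, h2⟩⟩)
        have hj := hp p hpp (by omega) hD hD2 hb
        rw [hjac] at hj
        norm_num at hj
  have hcard : (S.card : ℝ) ≤ (2 * H + 1) * (18 * M * Real.exp (- ∑ p ∈ Q, 1 / (p : ℝ))) := by
    have h1 : S.card = ∑ a ∈ Finset.Icc (-(H : ℤ)) H, (S.filter fun z => z.1 = a).card := by
      refine Finset.card_eq_sum_card_fiberwise fun x hx => ?_
      have h2 := (hS x hx).1.1
      rw [abs_le] at h2
      exact Finset.mem_Icc.2 h2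
    rw [h1]
    push_cast
    have h2 := Finset.sum_le_card_nsmul _ _ _ key
    rw [Int.card_Icc, nsmul_eq_mul] at h2
    have h3 : (((H : ℤ) + 1 - (-(H : ℤ))).toNat : ℝ) = 2 * H + 1 := by
      have h4 : ((H : ℤ) + 1 - (-(H : ℤ))).toNat = 2 * H + 1 := by omega
      rw [h4]
      push_cast
      ring
    rw [h3] at h2
    exact h2
  have hexp : Real.exp (- ∑ p ∈ Q, 1 / (p : ℝ)) ≤ Real.exp (C₁ + 1 / 2 * Real.log (2 * k)) *
      Real.exp (- (1 / 2) * LL H + LL w + 1 / 2 * LL n) := by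
    rw [← Real.exp_add]
    apply Real.exp_le_exp.2
    linarith
  calc (S.card : ℝ) ≤ (2 * H + 1) * (18 * M * Real.exp (- ∑ p ∈ Q, 1 / (p : ℝ))) := hcard
    _ ≤ (3 * H) * (18 * (3 * ((H : ℝ) ^ 2 / n)) *
        (Real.exp (C₁ + 1 / 2 * Real.log (2 * k)) *
          Real.exp (- (1 / 2) * LL H + LL w + 1 / 2 * LL n))) := by
        apply mul_le_mul
        · linarith
        · apply mul_le_mul
          · linarith
          · exact hexp
          · positivity
          · positivity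
        · positivity
        · positivity
    _ = 162 * Real.exp (C₁ + 1 / 2 * Real.log (2 * k)) * ((H : ℝ) ^ 3 / n) *
        Real.exp (- (1 / 2) * LL H + LL w + 1 / 2 * LL n) := by
        ring

end N44
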