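import Pool.Agent.LibN44.S2e

namespace N44

open TwHL

theorem s2f_LL_exp (n : ℕ) (hn : 1 ≤ n) : Real.exp (1 / 2 * LL n) ≤ 1 + Real.log n := by
  have h1 : (1 : ℝ) ≤ n := by exact_mod_cast hn
  have h0 : 0 ≤ Real.log n := Real.log_nonneg h1
  have h2 : 0 ≤ LL n := Real.log_nonneg (by linarith)
  calc Real.exp (1 / 2 * LL n) ≤ Real.exp (LL n) := Real.exp_le_exp.2 (by linarith)
    _ = 1 + Real.log n := by
      unfold LL
      rw [Real.exp_log (by linarith)]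

theorem s2f_harm (E : ℕ) : ∑ n ∈ Finset.Icc 1 E, 1 / (n : ℝ) ≤ 1 + Real.log E := by
  have h := harmonic_le_one_add_log E
  have h1 : ∑ n ∈ Finset.Icc 1 E, 1 / (n : ℝ) = (harmonic E : ℝ) := by
    rw [harmonic_eq_sum_Icc]
    push_cast
    refine Finset.sum_congr rfl fun n _ => ?_
    rw [one_div]
  rw [h1]
  exact h

/-- Row S2f. All nonsquare `e`, `|e| ≤ E`, `log E ≤ (log H)^(1/10)`. Put `w = ⌈log H⌉₊ + 4`.
`few_ab`: the pairs with `Few w` are `≤ C (H³/log H + H²)`. For the others sum `sect2_e` over `e`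
(`card_biUnion_le`): `∑_{1≤|e|≤E} exp (LL |e| / 2)/|e| ≤ 2 (1 + log E)^(1/2) ∑_{n ≤ E} 1/n ≤ 2 (1 + log E)^2`,
`(1 + log E)^2 ≤ 4 (1 + log H)^(1/5)`, `exp (LL w) = 1 + log w ≤ 1 + log (2 log H + 5) ≤ (log H)^(1/100)`: total
`≤ C H³ (log H)^(-0.29)`. (`E ≤ H` for `H ≥ H₀`.) -/
theorem sect2 : ∃ C : ℝ, 0 < C ∧ ∃ H₀ : ℕ, ∀ H : ℕ, H₀ ≤ H → ∀ E : ℕ, 1 ≤ E →
    Real.log E ≤ (Real.log H) ^ (1 / 10 : ℝ) → ∀ S : Finset (ℤ × ℤ),
    (∀ z ∈ S, Box H z ∧ ∃ e : ℤ, ¬ IsSquare e ∧ e.natAbs ≤ E ∧ e ∣ z.2 ∧ ∀ p : ℕ, p.Prime → p ≠ 2 →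
      (p : ℤ) ∣ z.1 ^ 2 - 4 * z.2 → ¬ (p : ℤ) ^ 2 ∣ z.1 ^ 2 - 4 * z.2 → ¬ (p : ℤ) ∣ z.2 →
      jacobiSym e p = 1) →
    (S.card : ℝ) ≤ C * (H : ℝ) ^ 3 / (Real.log H) ^ (1 / 4 : ℝ) := by
  classical
  obtain ⟨C₁, hC₁, hfew⟩ := few_ab
  obtain ⟨C₂, hC₂, H₁, hsec⟩ := sect2_e
  refine ⟨2 * C₁ + 208 * C₂, by positivity, max H₁ 3, ?_⟩
  intro H hH E hE hEH S hS
  have hH1 : H₁ ≤ H := (le_max_left _ _).trans hH
  have hH3 : 3 ≤ H := (le_max_right _ _).trans hH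
  have hHr : (3 : ℝ) ≤ H := by exact_mod_cast hH3
  have hEr : (1 : ℝ) ≤ E := by exact_mod_cast hE
  set x : ℝ := Real.log H with hx
  have hx1 : 1 ≤ x := by
    rw [hx, Real.le_log_iff_exp_le (by linarith)]
    have := Real.exp_one_lt_d9
    linarith
  have hxH : x ≤ H := by
    have := Real.log_le_sub_one_of_pos (show (0 : ℝ) < H by linarith)
    rw [hx]
    linarith
  have hx10 : (1 : ℝ) ≤ x ^ (1 / 10 : ℝ) := Real.one_le_rpow hx1 (by norm_num)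
  have hx10' : x ^ (1 / 10 : ℝ) ≤ x := by
    calc x ^ (1 / 10 : ℝ) ≤ x ^ (1 : ℝ) := Real.rpow_le_rpow_of_exponent_le hx1 (by norm_num)
      _ = x := Real.rpow_one x
  have hEleH : E ≤ H := by
    have h1 : Real.log E ≤ Real.log H := hEH.trans hx10'
    have h2 := (Real.log_le_log_iff (by linarith) (by linarith)).1 h1
    exact_mod_cast h2
  set w : ℕ := ⌈x⌉₊ + 4 with hw
  have hw4 : 4 ≤ w := by omega
  have hwr : (w : ℝ) = (⌈x⌉₊ : ℝ) + 4 := by rw [hw]; push_cast; ring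
  have hceil : x ≤ (⌈x⌉₊ : ℝ) := Nat.le_ceil x
  have hceil2 : (⌈x⌉₊ : ℝ) < x + 1 := Nat.ceil_lt_add_one (by linarith)
  have hw1 : Real.log H ≤ w := by
    rw [hwr, ← hx]
    linarith
  have hw2 : (w : ℝ) ≤ 2 * Real.log H + 4 := by
    rw [hwr, ← hx]
    linarith
  -- the pieces
  let A : ℤ → Finset (ℤ × ℤ) := fun e => S.filter fun z => ¬ IsSquare e ∧ ¬ Few w z ∧ e ∣ z.2 ∧
    ∀ p : ℕ, p.Prime → p ≠ 2 →
      (p : ℤ) ∣ z.1 ^ 2 - 4 * z.2 → ¬ (p : ℤ) ^ 2 ∣ z.1 ^ 2 - 4 * z.2 → ¬ (p : ℤ) ∣ z.2 →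
      jacobiSym e p = 1
  let T : ℕ → ℝ := fun n => C₂ * ((H : ℝ) ^ 3 / n) *
      Real.exp (- (1 / 2) * LL H + LL w + 1 / 2 * LL n)
  have hA : ∀ e : ℤ, e.natAbs ≤ E → ((A e).card : ℝ) ≤ T e.natAbs := by
    intro e he
    by_cases hsq : IsSquare e
    · have h0 : A e = ∅ := by
        refine Finset.filter_eq_empty_iff.2 fun z _ hz => hz.1 hsq
      rw [h0, Finset.card_empty, Nat.cast_zero]
      have : 0 ≤ C₂ * ((H : ℝ) ^ 3 / e.natAbs) *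
        Real.exp (- (1 / 2) * LL H + LL w + 1 / 2 * LL e.natAbs) := by positivity
      exact this
    · refine hsec H w hH1 hw4 hw1 hw2 e hsq (he.trans hEleH) (A e) fun z hz => ?_
      have hz' := Finset.mem_filter.1 hz
      exact ⟨(hS z hz'.1).1, hz'.2.2.1, hz'.2.2.2.1, hz'.2.2.2.2⟩
  have hcover : S ⊆ (S.filter fun z => Few w z) ∪
      (Finset.Icc 1 E).biUnion fun n => A (n : ℤ) ∪ A (-(n : ℤ)) := by
    intro z hz
    by_cases hf : Few w z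
    · exact Finset.mem_union_left _ (Finset.mem_filter.2 ⟨hz, hf⟩)
    · refine Finset.mem_union_right _ (Finset.mem_biUnion.2 ?_)
      obtain ⟨-, e, he1, he2, he3, he4⟩ := hS z hz
      have he0 : e ≠ 0 := by
        rintro rfl
        exact he1 ⟨0, by norm_num⟩
      refine ⟨e.natAbs, Finset.mem_Icc.2 ⟨Nat.one_le_iff_ne_zero.2 (Int.natAbs_ne_zero.2 he0), he2⟩,
        ?_⟩
      have hz' : z ∈ A e := Finset.mem_filter.2 ⟨hz, he1, hf, he3, he4⟩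
      rcases Int.natAbs_eq e with h | h
      · refine Finset.mem_union_left _ ?_
        rw [← h]
        exact hz'
      · refine Finset.mem_union_right _ ?_
        rw [← h]
        exact hz'
  have hcard : (S.card : ℝ) ≤ C₁ * ((H : ℝ) ^ 3 / w + (H : ℝ) ^ 2) +
      ∑ n ∈ Finset.Icc 1 E, 2 * T n := by
    have h1 : (S.card : ℝ) ≤ ((S.filter fun z => Few w z).card : ℝ) +
        ∑ n ∈ Finset.Icc 1 E, (((A (n : ℤ)).card : ℝ) + ((A (-(n : ℤ))).card : ℝ)) := by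
      have h2 : S.card ≤ (S.filter fun z => Few w z).card +
          ∑ n ∈ Finset.Icc 1 E, ((A (n : ℤ)).card + (A (-(n : ℤ))).card) := by
        refine (Finset.card_le_card hcover).trans ((Finset.card_union_le _ _).trans
          (Nat.add_le_add_left (Finset.card_biUnion_le.trans
            (Finset.sum_le_sum fun n _ => Finset.card_union_le _ _)) _))
      exact_mod_cast h2
    refine h1.trans (add_le_add ?_ (Finset.sum_le_sum fun n hn => ?_))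
    · refine hfew H w (by omega) (by omega) _ fun z hz => ?_
      have hz' := Finset.mem_filter.1 hz
      exact ⟨(hS z hz'.1).1, hz'.2⟩
    · have hn' := (Finset.mem_Icc.1 hn).2
      have h2 := hA (n : ℤ) (by rw [Int.natAbs_natCast]; exact hn')
      have h3 := hA (-(n : ℤ)) (by rw [Int.natAbs_neg, Int.natAbs_natCast]; exact hn')
      rw [Int.natAbs_neg] at h3
      rw [Int.natAbs_natCast] at h2 h3
      linarith
  -- the size of `1 + log w`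
  have hlw : Real.exp (LL w) ≤ 26 * x ^ (1 / 20 : ℝ) := by
    have hwpos : (4 : ℝ) ≤ w := by exact_mod_cast hw4
    have h0 : 0 ≤ Real.log w := Real.log_nonneg (by linarith)
    have h1 : Real.exp (LL w) = 1 + Real.log w := by
      unfold LL
      rw [Real.exp_log (by linarith)]
    have h2 : Real.log w ≤ Real.log 6 + Real.log x := by
      rw [← Real.log_mul (by norm_num) (by linarith)]
      refine Real.log_le_log (by linarith) ?_
      rw [← hx] at hw2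
      linarith
    have h3 : Real.log x ≤ x ^ (1 / 20 : ℝ) / (1 / 20) :=
      Real.log_le_rpow_div (by linarith) (by norm_num)
    have h4 : Real.log 6 ≤ 5 := by
      have := Real.log_le_sub_one_of_pos (show (0 : ℝ) < 6 by norm_num)
      linarith
    have h5 : (1 : ℝ) ≤ x ^ (1 / 20 : ℝ) := Real.one_le_rpow hx1 (by norm_num)
    rw [h1]
    linarith
  have hLH : Real.exp (- (1 / 2) * LL H) ≤ x ^ (-(1 / 2) : ℝ) := by
    have h1 : Real.exp (- (1 / 2) * LL H) = (1 + x) ^ (-(1 / 2) : ℝ) := by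
      unfold LL
      rw [Real.rpow_def_of_pos (by linarith), ← hx]
      ring_nf
    rw [h1]
    exact Real.rpow_le_rpow_of_nonpos (by linarith) (by linarith) (by norm_num)
  have hlE : 1 + Real.log E ≤ 2 * x ^ (1 / 10 : ℝ) := by linarith
  have hlE0 : 0 ≤ Real.log E := Real.log_nonneg hEr
  -- the sum
  have hT : ∀ n ∈ Finset.Icc 1 E, 2 * T n ≤
      (2 * C₂ * (H : ℝ) ^ 3 * (x ^ (-(1 / 2) : ℝ) * (26 * x ^ (1 / 20 : ℝ))) *
        (2 * x ^ (1 / 10 : ℝ))) * (1 / (n : ℝ)) := by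
    intro n hn
    obtain ⟨hn1, hnE⟩ := Finset.mem_Icc.1 hn
    have hnr : (1 : ℝ) ≤ n := by exact_mod_cast hn1
    have hnEr : (n : ℝ) ≤ E := by exact_mod_cast hnE
    have h1 : Real.exp (1 / 2 * LL n) ≤ 2 * x ^ (1 / 10 : ℝ) := by
      have h2 := s2f_LL_exp n hn1
      have h3 := Real.log_le_log (by linarith) hnEr
      linarith
    have h4 : Real.exp (- (1 / 2) * LL H + LL w + 1 / 2 * LL n) ≤
        (x ^ (-(1 / 2) : ℝ) * (26 * x ^ (1 / 20 : ℝ))) * (2 * x ^ (1 / 10 : ℝ)) := by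
      rw [Real.exp_add, Real.exp_add]
      refine mul_le_mul (mul_le_mul hLH hlw (Real.exp_nonneg _) (by positivity)) h1
        (Real.exp_nonneg _) (by positivity)
    calc 2 * T n = 2 * C₂ * (H : ℝ) ^ 3 * (1 / (n : ℝ)) *
          Real.exp (- (1 / 2) * LL H + LL w + 1 / 2 * LL n) := by
          change 2 * (C₂ * ((H : ℝ) ^ 3 / n) *
            Real.exp (- (1 / 2) * LL H + LL w + 1 / 2 * LL n)) = _
          ring
      _ ≤ 2 * C₂ * (H : ℝ) ^ 3 * (1 / (n : ℝ)) *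
          ((x ^ (-(1 / 2) : ℝ) * (26 * x ^ (1 / 20 : ℝ))) * (2 * x ^ (1 / 10 : ℝ))) :=
          mul_le_mul_of_nonneg_left h4 (by positivity)
      _ = _ := by ring
  have hsum : ∑ n ∈ Finset.Icc 1 E, 2 * T n ≤
      208 * C₂ * (H : ℝ) ^ 3 * x ^ (-(1 / 4) : ℝ) := by
    calc ∑ n ∈ Finset.Icc 1 E, 2 * T n ≤ ∑ n ∈ Finset.Icc 1 E,
          (2 * C₂ * (H : ℝ) ^ 3 * (x ^ (-(1 / 2) : ℝ) * (26 * x ^ (1 / 20 : ℝ))) *
          (2 * x ^ (1 / 10 : ℝ))) * (1 / (n : ℝ)) := Finset.sum_le_sum hT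
      _ = (2 * C₂ * (H : ℝ) ^ 3 * (x ^ (-(1 / 2) : ℝ) * (26 * x ^ (1 / 20 : ℝ))) *
          (2 * x ^ (1 / 10 : ℝ))) * ∑ n ∈ Finset.Icc 1 E, 1 / (n : ℝ) := by
          rw [Finset.mul_sum]
      _ ≤ (2 * C₂ * (H : ℝ) ^ 3 * (x ^ (-(1 / 2) : ℝ) * (26 * x ^ (1 / 20 : ℝ))) *
          (2 * x ^ (1 / 10 : ℝ))) * (2 * x ^ (1 / 10 : ℝ)) :=
          mul_le_mul_of_nonneg_left ((s2f_harm E).trans hlE) (by positivity)
      _ = 208 * C₂ * (H : ℝ) ^ 3 * (x ^ (-(1 / 2) : ℝ) * x ^ (1 / 20 : ℝ) *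
          x ^ (1 / 10 : ℝ) * x ^ (1 / 10 : ℝ)) := by ring
      _ = 208 * C₂ * (H : ℝ) ^ 3 * x ^ (-(1 / 4) : ℝ) := by
          rw [← Real.rpow_add (by linarith), ← Real.rpow_add (by linarith),
            ← Real.rpow_add (by linarith)]
          norm_num
  have hfirst : C₁ * ((H : ℝ) ^ 3 / w + (H : ℝ) ^ 2) ≤
      2 * C₁ * (H : ℝ) ^ 3 * x ^ (-(1 / 4) : ℝ) := by
    have h1 : x⁻¹ ≤ x ^ (-(1 / 4) : ℝ) := by
      rw [← Real.rpow_neg_one]
      exact Real.rpow_le_rpow_of_exponent_le hx1 (by norm_num)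
    have hxpos : 0 < x := by linarith
    have h2 : (H : ℝ) ^ 3 / w ≤ (H : ℝ) ^ 3 * x⁻¹ := by
      rw [div_eq_mul_inv]
      refine mul_le_mul_of_nonneg_left ?_ (by positivity)
      exact inv_anti₀ hxpos hw1
    have h3 : (H : ℝ) ^ 2 ≤ (H : ℝ) ^ 3 * x⁻¹ := by
      rw [← div_eq_mul_inv, le_div_iff₀ hxpos]
      have h4 : (H : ℝ) ^ 3 = (H : ℝ) ^ 2 * H := by ring
      rw [h4]
      exact mul_le_mul_of_nonneg_left hxH (by positivity)
    have h5 : (H : ℝ) ^ 3 * x⁻¹ ≤ (H : ℝ) ^ 3 * x ^ (-(1 / 4) : ℝ) :=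
      mul_le_mul_of_nonneg_left h1 (by positivity)
    calc C₁ * ((H : ℝ) ^ 3 / w + (H : ℝ) ^ 2) ≤
        C₁ * (2 * ((H : ℝ) ^ 3 * x ^ (-(1 / 4) : ℝ))) :=
          mul_le_mul_of_nonneg_left (by linarith) hC₁.le
      _ = _ := by ring
  calc (S.card : ℝ) ≤ 2 * C₁ * (H : ℝ) ^ 3 * x ^ (-(1 / 4) : ℝ) +
        208 * C₂ * (H : ℝ) ^ 3 * x ^ (-(1 / 4) : ℝ) := hcard.trans (add_le_add hfirst hsum)
    _ = (2 * C₁ + 208 * C₂) * (H : ℝ) ^ 3 / x ^ (1 / 4 : ℝ) := by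
        rw [Real.rpow_neg (by linarith)]
        ring

end N44
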