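import Pool.Agent.LibN44.Defs

namespace N44

/-- Row T1. The torsion class datum. `(w-s)(w+s) = u²(d u²+a)`. Put `r' = gcd (u², w+s)`, `R = u²/r'`,
`w + s = r' n`, `gcd (R, n) = 1`; `(w-s) n = R (d u²+a)`, so `w - s = R m` and `m n = d u² + a`,
`r' n - R m = 2 s`, `m ≠ 0` (`w ≠ s`), `n > 0`. With `f₀ = m² - d r'²`, `g₀ = n² - d R²`:
`f₀ g₀ = (m n - d R r')² - d (r' n - R m)² = a² - 4 d s²` (use `R r' = u²`), `f₀ R = a r' - 2 s m`,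
`g₀ r' = a R + 2 s n`. With `ρ = gcd (R, r')` (it divides `2 s`): `R/ρ`, `r'/ρ` are coprime with square product
(`R r' = u²`), so `R = ρ X²`, `r' = ρ Y²`. `|f₀ g₀| < 9 H²`, so `|f₀| < 3H` or `|g₀| < 3H`.
First case: `g = gcd (m, r')` (divides `2 s`), `m = g m₁`, `r' = g r₁`, `f₀ = g² f₁`: datum
`(ρ, g, X, Y, r₁, m₁, f₁)`. Second case: datum `(ρ, 1, Y, X, R, -n, g₀)` (`gcd (n, R) = 1`,
`g₀ · ρ Y² = a R - 2 s (-n)`). -/
theorem config (a : ℤ) (d s u w H : ℕ) (hd : 0 < d) (hs : 0 < s) (hu : 0 < u) (hw : 0 < w)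
    (hws : w ≠ s) (h : (w : ℤ) ^ 2 = d * (u : ℤ) ^ 4 + a * (u : ℤ) ^ 2 + (s : ℤ) ^ 2)
    (hD : a ^ 2 - 4 * (d * (s : ℤ) ^ 2) ≠ 0) (hDH : |a ^ 2 - 4 * (d * (s : ℤ) ^ 2)| < 9 * (H : ℤ) ^ 2) :
    ∃ (ρ g X Y r : ℕ) (m f : ℤ), UU a d s ρ g X Y r m f ∧
      (g : ℤ) ^ 2 * f ∣ a ^ 2 - 4 * (d * (s : ℤ) ^ 2) ∧ |(g : ℤ) ^ 2 * f| < 3 * H := by
  have hu2 : 0 < u ^ 2 := by positivity
  obtain ⟨r', hr'⟩ : ∃ r' : ℕ, r' = Nat.gcd (u ^ 2) (w + s) := ⟨_, rfl⟩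
  have hr'0 : 0 < r' := by rw [hr']; exact Nat.gcd_pos_of_pos_left _ hu2
  obtain ⟨R, hR⟩ : ∃ R : ℕ, u ^ 2 = r' * R := by rw [hr']; exact Nat.gcd_dvd_left _ _
  obtain ⟨n, hn⟩ : ∃ n : ℕ, w + s = r' * n := by rw [hr']; exact Nat.gcd_dvd_right _ _
  have hR0 : 0 < R := by
    rcases Nat.eq_zero_or_pos R with h0 | h0
    · rw [h0] at hR; omega
    · exact h0
  have hn0 : 0 < n := by
    rcases Nat.eq_zero_or_pos n with h0 | h0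
    · rw [h0] at hn; omega
    · exact h0
  have hRn : Nat.Coprime R n := by
    have h1 := Nat.coprime_div_gcd_div_gcd (m := u ^ 2) (n := w + s) (by rw [← hr']; exact hr'0)
    rw [← hr'] at h1
    rw [hR, hn, Nat.mul_div_cancel_left _ hr'0, Nat.mul_div_cancel_left _ hr'0] at h1
    exact h1
  have hRz : (u : ℤ) ^ 2 = r' * R := by exact_mod_cast hR
  have hnz : (w : ℤ) + s = r' * n := by exact_mod_cast hn
  have hr'z : (r' : ℤ) ≠ 0 := by exact_mod_cast hr'0.ne'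
  have hRz0 : (R : ℤ) ≠ 0 := by exact_mod_cast hR0.ne'
  have hK : (n : ℤ) * (w - s) = R * (d * (u : ℤ) ^ 2 + a) := by
    have h1 : (r' : ℤ) * (n * (w - s)) = r' * (R * (d * (u : ℤ) ^ 2 + a)) := by
      calc (r' : ℤ) * (n * (w - s)) = (r' * n) * (w - s) := by ring
        _ = (w + s) * (w - s) := by rw [hnz]
        _ = (u : ℤ) ^ 2 * (d * (u : ℤ) ^ 2 + a) := by linear_combination h
        _ = r' * (R * (d * (u : ℤ) ^ 2 + a)) := by rw [hRz]; ring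
    exact mul_left_cancel₀ hr'z h1
  have hcop : IsCoprime (R : ℤ) (n : ℤ) := Nat.isCoprime_iff_coprime.2 hRn
  obtain ⟨m, hm⟩ : (R : ℤ) ∣ (w : ℤ) - s := hcop.dvd_of_dvd_mul_left ⟨_, hK⟩
  have hmn : m * n = d * (u : ℤ) ^ 2 + a := by
    have h1 : (R : ℤ) * (m * n) = R * (d * (u : ℤ) ^ 2 + a) := by rw [← hK, hm]; ring
    exact mul_left_cancel₀ hRz0 h1
  have ha : a = m * n - d * (r' * R) := by rw [← hRz]; linarith
  have h2s : 2 * (s : ℤ) = r' * n - R * m := by rw [← hnz, ← hm]; ring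
  set f₀ : ℤ := m ^ 2 - d * (r' : ℤ) ^ 2 with hf₀
  set g₀ : ℤ := (n : ℤ) ^ 2 - d * (R : ℤ) ^ 2 with hg₀
  have hfg : f₀ * g₀ = a ^ 2 - 4 * (d * (s : ℤ) ^ 2) := by
    have h4 : 4 * (d * (s : ℤ) ^ 2) = d * (r' * n - R * m) ^ 2 := by rw [← h2s]; ring
    rw [h4, ha, hf₀, hg₀]; ring
  have hfR : f₀ * R = a * r' - 2 * s * m := by rw [h2s, ha, hf₀]; ring
  have hgr : g₀ * r' = a * R + 2 * s * n := by rw [h2s, ha, hg₀]; ring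
  obtain ⟨ρ, hρ⟩ : ∃ ρ : ℕ, ρ = Nat.gcd R r' := ⟨_, rfl⟩
  have hρ0 : 0 < ρ := by rw [hρ]; exact Nat.gcd_pos_of_pos_left _ hR0
  obtain ⟨R₁, hR₁⟩ : ∃ R₁ : ℕ, R = ρ * R₁ := by rw [hρ]; exact Nat.gcd_dvd_left _ _
  obtain ⟨r₁', hr₁'⟩ : ∃ r₁' : ℕ, r' = ρ * r₁' := by rw [hρ]; exact Nat.gcd_dvd_right _ _
  have hcop1 : Nat.Coprime R₁ r₁' := by
    have h1 := Nat.coprime_div_gcd_div_gcd (m := R) (n := r') (by rw [← hρ]; exact hρ0)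
    rw [← hρ] at h1
    rw [hR₁, hr₁', Nat.mul_div_cancel_left _ hρ0, Nat.mul_div_cancel_left _ hρ0] at h1
    exact h1
  have hsq : ρ ^ 2 * (R₁ * r₁') = u ^ 2 := by rw [hR, hR₁, hr₁']; ring
  obtain ⟨v, hv⟩ : ρ ∣ u := by
    rw [← Nat.pow_dvd_pow_iff (two_ne_zero)]
    exact ⟨_, hsq.symm⟩
  have hv2 : R₁ * r₁' = v ^ 2 := by
    have h1 : ρ ^ 2 * (R₁ * r₁') = ρ ^ 2 * v ^ 2 := by rw [hsq, hv]; ring
    exact Nat.eq_of_mul_eq_mul_left (by positivity) h1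
  have hR₁0 : 0 < R₁ := by
    rcases Nat.eq_zero_or_pos R₁ with h0 | h0
    · rw [h0] at hR₁; omega
    · exact h0
  have hr₁0 : 0 < r₁' := by
    rcases Nat.eq_zero_or_pos r₁' with h0 | h0
    · rw [h0] at hr₁'; omega
    · exact h0
  have key : ∀ x y : ℕ, Nat.Coprime x y → x * y = v ^ 2 → ∃ z : ℕ, x = z ^ 2 := by
    intro x y hxy hp
    have h1 : Int.gcd (x : ℤ) (y : ℤ) = 1 := by exact_mod_cast hxy
    obtain ⟨z, hz⟩ := Int.sq_of_gcd_eq_one h1 (by exact_mod_cast hp : (x : ℤ) * y = (v : ℤ) ^ 2)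
    refine ⟨z.natAbs, ?_⟩
    zify
    rw [sq_abs]
    rcases hz with hz | hz
    · exact hz
    · have h3 : (0 : ℤ) ≤ x := by positivity
      have h4 := sq_nonneg z
      have h5 : z ^ 2 = 0 := by linarith
      rw [hz, h5]; rfl
  obtain ⟨X, hX⟩ := key R₁ r₁' hcop1 hv2
  obtain ⟨Y, hY⟩ := key r₁' R₁ hcop1.symm (by rw [mul_comm]; exact hv2)
  have hX0 : 0 < X := by
    rcases Nat.eq_zero_or_pos X with h0 | h0
    · rw [h0] at hX; omega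
    · exact h0
  have hY0 : 0 < Y := by
    rcases Nat.eq_zero_or_pos Y with h0 | h0
    · rw [h0] at hY; omega
    · exact h0
  have hρ2s : ρ ∣ 2 * s := by
    have h1 : (ρ : ℤ) ∣ 2 * (s : ℤ) := by
      rw [h2s]
      refine dvd_sub ?_ ?_
      · exact Dvd.dvd.mul_right ⟨(r₁' : ℤ), by exact_mod_cast hr₁'⟩ _
      · exact Dvd.dvd.mul_right ⟨(R₁ : ℤ), by exact_mod_cast hR₁⟩ _
    exact_mod_cast h1
  have hf₀0 : f₀ ≠ 0 := by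
    intro h0
    apply hD
    rw [← hfg, h0, zero_mul]
  have hg₀0 : g₀ ≠ 0 := by
    intro h0
    apply hD
    rw [← hfg, h0, mul_zero]
  have hRX : (R : ℤ) = ρ * (X : ℤ) ^ 2 := by rw [hR₁, hX]; push_cast; ring
  have hrY : (r' : ℤ) = ρ * (Y : ℤ) ^ 2 := by rw [hr₁', hY]; push_cast; ring
  have hsplit : |f₀| < 3 * H ∨ |g₀| < 3 * H := by
    by_contra hcon
    push Not at hcon
    obtain ⟨h1, h2⟩ := hcon
    rw [← hfg, abs_mul] at hDH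
    have h3 : (0 : ℤ) ≤ 3 * H := by positivity
    nlinarith [mul_le_mul h1 h2 h3 (abs_nonneg f₀)]
  rcases hsplit with h1 | h1
  · obtain ⟨g, hg⟩ : ∃ g : ℕ, g = Int.gcd m (r' : ℤ) := ⟨_, rfl⟩
    have hg0 : 0 < g := by
      rw [hg]; exact Int.gcd_pos_of_ne_zero_right _ hr'z
    have hgz : (g : ℤ) ≠ 0 := by exact_mod_cast hg0.ne'
    obtain ⟨m₁, hm₁⟩ : (g : ℤ) ∣ m := by rw [hg]; exact Int.gcd_dvd_left _ _
    have hgr' : (g : ℤ) ∣ (r' : ℤ) := by rw [hg]; exact Int.gcd_dvd_right _ _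
    obtain ⟨r₁, hr₁⟩ : g ∣ r' := by exact_mod_cast hgr'
    have hr₁z : (r' : ℤ) = g * r₁ := by exact_mod_cast hr₁
    have hr₁0 : 0 < r₁ := by
      rcases Nat.eq_zero_or_pos r₁ with h0 | h0
      · rw [h0] at hr₁; omega
      · exact h0
    have hff : f₀ = (g : ℤ) ^ 2 * (m₁ ^ 2 - d * (r₁ : ℤ) ^ 2) := by
      rw [hf₀, hm₁, hr₁z]; ring
    have hcop2 : IsCoprime m₁ (r₁ : ℤ) := by
      rw [Int.isCoprime_iff_gcd_eq_one]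
      have h2 : Int.gcd (g * m₁) (g * (r₁ : ℤ)) = g * Int.gcd m₁ r₁ := by
        rw [Int.gcd_mul_left]; simp
      rw [← hm₁, ← hr₁z, ← hg] at h2
      have h3 : g * Int.gcd m₁ r₁ = g * 1 := by rw [← h2, mul_one]
      exact Nat.eq_of_mul_eq_mul_left hg0 h3
    refine ⟨ρ, g, X, Y, r₁, m₁, m₁ ^ 2 - d * (r₁ : ℤ) ^ 2,
      ⟨hρ0, hg0, hX0, hY0, hr₁0, hρ2s, ?_, hcop2, ?_, rfl, ?_, ?_⟩, ?_, ?_⟩
    · have h2 : (g : ℤ) ∣ 2 * (s : ℤ) := by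
        rw [h2s]
        refine dvd_sub (Dvd.dvd.mul_right hgr' _) (Dvd.dvd.mul_left ⟨m₁, hm₁⟩ _)
      exact_mod_cast h2
    · intro h0
      apply hf₀0
      rw [hff, h0, mul_zero]
    · rw [← hr₁, hr₁', hY]
    · have h2 : (g : ℤ) * ((g : ℤ) * (m₁ ^ 2 - d * (r₁ : ℤ) ^ 2) * ρ * (X : ℤ) ^ 2) =
          g * (a * r₁ - 2 * s * m₁) := by
        calc (g : ℤ) * ((g : ℤ) * (m₁ ^ 2 - d * (r₁ : ℤ) ^ 2) * ρ * (X : ℤ) ^ 2)
            = ((g : ℤ) ^ 2 * (m₁ ^ 2 - d * (r₁ : ℤ) ^ 2)) * (ρ * (X : ℤ) ^ 2) := by ring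
          _ = f₀ * R := by rw [← hff, ← hRX]
          _ = a * r' - 2 * s * m := hfR
          _ = g * (a * r₁ - 2 * s * m₁) := by rw [hr₁z, hm₁]; ring
      exact mul_left_cancel₀ hgz h2
    · rw [← hff, ← hfg]; exact dvd_mul_right _ _
    · rw [← hff]; exact h1
  · refine ⟨ρ, 1, Y, X, R, -(n : ℤ), g₀,
      ⟨hρ0, one_pos, hY0, hX0, hR0, hρ2s, one_dvd _, ?_, hg₀0, ?_, ?_, ?_⟩, ?_, ?_⟩
    · exact (IsCoprime.neg_left hcop.symm)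
    · rw [hg₀]; ring
    · rw [one_mul, hR₁, hX]
    · calc ((1 : ℕ) : ℤ) * g₀ * ρ * (Y : ℤ) ^ 2 = g₀ * (ρ * (Y : ℤ) ^ 2) := by push_cast; ring
        _ = g₀ * r' := by rw [← hrY]
        _ = a * R + 2 * s * n := hgr
        _ = a * R - 2 * s * -(n : ℤ) := by ring
    · have h2 : ((1 : ℕ) : ℤ) ^ 2 * g₀ = g₀ := by push_cast; ring
      rw [h2, ← hfg]; exact dvd_mul_left _ _
    · have h2 : ((1 : ℕ) : ℤ) ^ 2 * g₀ = g₀ := by push_cast; ring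
      rw [h2]; exact h1

end N44
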