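import Pool.Agent.LibN44.Defs

namespace N44

/- Row T2. Two small counts (assembly). (i) `w = s`: then `a = - d u²`, `b = d s²`: at most
`∑_{d ≤ H} √(H/d) · (H/√d) = H^(3/2) ∑ 1/d ≤ C H²` pairs (crude: `(d,u)` with `d u² ≤ H`: at most `H` choices
of `d u²`... use: the pairs are determined by `(d, u, s)` with `d u² ≤ H`, `d s² ≤ H²`; for each `d ≤ H` there
are at most `H` values `u` with `u² ≤ H/d`, i.e. `u ≤ √(H/d)`, and `s ≤ H/√d`; so `≤ ∑_d H^(3/2)/d ≤ 2 H²`).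
(ii) `s² ∣ b` for some `s > W`: `b ≠ 0`, at most `2 H²/s²` values `b` for each `s`, `∑_{s > W} 1/s² ≤ 1/W`. -/

theorem t2_sum (k n : ℕ) : ∑ i ∈ Finset.Ioo k n, ((i : ℝ) ^ 2)⁻¹ ≤ 2 / ((k : ℝ) + 1) :=
  sum_Ioo_inv_sq_le k n

theorem ws_count : ∃ C : ℝ, 0 < C ∧ ∀ H : ℕ, 1 ≤ H → ∀ S : Finset (ℤ × ℤ),
    (∀ z ∈ S, Box H z ∧ ∃ d u s : ℕ, 0 < d ∧ 0 < u ∧ 0 < s ∧ z.1 = - (d * (u : ℤ) ^ 2) ∧
      z.2 = d * (s : ℤ) ^ 2) → (S.card : ℝ) ≤ C * (H : ℝ) ^ 2 := by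
  classical
  refine ⟨2, by norm_num, fun H hH S hS => ?_⟩
  let T : Finset (ℤ × ℤ) := (Finset.Ioo 0 (H + 1)).biUnion (fun u : ℕ =>
    ((Finset.Icc 1 (H / u ^ 2)) ×ˢ (Finset.Icc 1 H)).image
      (fun x : ℕ × ℕ => ((-((x.1 : ℤ) * (u : ℤ) ^ 2), (x.1 : ℤ) * (x.2 : ℤ) ^ 2) : ℤ × ℤ)))
  have hST : S ⊆ T := by
    intro z hz
    obtain ⟨⟨h1, h2, -, -⟩, d, u, s, hd, hu, hs, e1, e2⟩ := hS z hz
    have h3 : d * u ^ 2 ≤ H := by
      rw [e1, abs_neg, abs_of_nonneg (by positivity)] at h1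
      exact_mod_cast h1
    have h4 : d * s ^ 2 ≤ H ^ 2 := by
      rw [e2, abs_of_nonneg (by positivity)] at h2
      exact_mod_cast h2
    have hs' : s ≤ H := by
      have h5 : s ^ 2 ≤ H ^ 2 := le_trans (Nat.le_mul_of_pos_left _ hd) h4
      exact (Nat.pow_le_pow_iff_left (by norm_num)).1 h5
    have hu' : u ≤ H := by
      have h5 : u ^ 2 ≤ H := le_trans (Nat.le_mul_of_pos_left _ hd) h3
      nlinarith
    rw [Finset.mem_biUnion]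
    refine ⟨u, Finset.mem_Ioo.2 ⟨hu, by omega⟩, Finset.mem_image.2 ⟨(d, s),
      Finset.mem_product.2 ⟨Finset.mem_Icc.2 ⟨hd, ?_⟩, Finset.mem_Icc.2 ⟨hs, hs'⟩⟩, ?_⟩⟩
    · exact (Nat.le_div_iff_mul_le (by positivity)).2 h3
    · exact Prod.ext e1.symm e2.symm
  have hcard : S.card ≤ ∑ u ∈ Finset.Ioo 0 (H + 1), (H / u ^ 2) * H := by
    refine (Finset.card_le_card hST).trans (Finset.card_biUnion_le.trans ?_)
    refine Finset.sum_le_sum fun u _ => Finset.card_image_le.trans ?_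
    rw [Finset.card_product, Nat.card_Icc, Nat.card_Icc, Nat.add_sub_cancel, Nat.add_sub_cancel]
  have h1 : (S.card : ℝ) ≤ ∑ u ∈ Finset.Ioo 0 (H + 1), ((H : ℝ) ^ 2) * ((u : ℝ) ^ 2)⁻¹ := by
    have h2 : (S.card : ℝ) ≤ ((∑ u ∈ Finset.Ioo 0 (H + 1), (H / u ^ 2) * H : ℕ) : ℝ) := by
      exact_mod_cast hcard
    refine h2.trans ?_
    push_cast
    refine Finset.sum_le_sum fun u _ => ?_
    have h3 : ((H / u ^ 2 : ℕ) : ℝ) ≤ (H : ℝ) / ((u : ℝ) ^ 2) := by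
      have h4 := Nat.cast_div_le (α := ℝ) (m := H) (n := u ^ 2)
      push_cast at h4
      exact h4
    calc ((H / u ^ 2 : ℕ) : ℝ) * (H : ℝ) ≤ (H : ℝ) / ((u : ℝ) ^ 2) * H := by
          exact mul_le_mul_of_nonneg_right h3 (Nat.cast_nonneg _)
      _ = _ := by rw [div_eq_mul_inv]; ring
  rw [← Finset.mul_sum] at h1
  have h2 := t2_sum 0 (H + 1)
  have h3 : (2 : ℝ) / (((0 : ℕ) : ℝ) + 1) = 2 := by norm_num
  rw [h3] at h2
  calc (S.card : ℝ) ≤ (H : ℝ) ^ 2 * ∑ u ∈ Finset.Ioo 0 (H + 1), ((u : ℝ) ^ 2)⁻¹ := h1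
    _ ≤ (H : ℝ) ^ 2 * 2 := mul_le_mul_of_nonneg_left h2 (by positivity)
    _ = 2 * (H : ℝ) ^ 2 := by ring

theorem s_large : ∃ C : ℝ, 0 < C ∧ ∀ H W : ℕ, 1 ≤ H → 1 ≤ W → ∀ S : Finset (ℤ × ℤ),
    (∀ z ∈ S, Box H z ∧ ∃ s : ℕ, W < s ∧ (s : ℤ) ^ 2 ∣ z.2) →
    (S.card : ℝ) ≤ C * (H : ℝ) ^ 3 / W := by
  classical
  refine ⟨12, by norm_num, fun H W hH hW S hS => ?_⟩
  let B : Finset ℤ := (Finset.Ioo W (H + 1)).biUnion (fun s : ℕ =>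
    ((Finset.Icc (-((H ^ 2 / s ^ 2 : ℕ) : ℤ)) ((H ^ 2 / s ^ 2 : ℕ) : ℤ)).erase 0).image
      (fun k : ℤ => (s : ℤ) ^ 2 * k))
  have hST : S ⊆ (Finset.Icc (-(H : ℤ)) H) ×ˢ B := by
    intro z hz
    obtain ⟨⟨h1, h2, h0, -⟩, s, hs, k, hk⟩ := hS z hz
    have hs0 : 0 < s := by omega
    have hk0 : k ≠ 0 := by
      rintro rfl
      exact h0 (by rw [hk, mul_zero])
    have h3 : (s : ℤ) ^ 2 * |k| ≤ (H : ℤ) ^ 2 := by
      rw [hk, abs_mul, abs_of_nonneg (by positivity : (0 : ℤ) ≤ (s : ℤ) ^ 2)] at h2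
      exact h2
    have h4 : s ^ 2 * k.natAbs ≤ H ^ 2 := by
      have h5 : ((s ^ 2 * k.natAbs : ℕ) : ℤ) ≤ ((H ^ 2 : ℕ) : ℤ) := by
        push_cast
        exact h3
      exact_mod_cast h5
    have hk1 : 1 ≤ k.natAbs := Int.natAbs_pos.2 hk0
    have hsH : s ≤ H := by
      have h5 : s ^ 2 ≤ H ^ 2 := le_trans (Nat.le_mul_of_pos_right _ hk1) h4
      exact (Nat.pow_le_pow_iff_left (by norm_num)).1 h5
    have h6 : k.natAbs ≤ H ^ 2 / s ^ 2 := by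
      rw [Nat.le_div_iff_mul_le (by positivity), mul_comm]
      exact h4
    have h7 : |k| ≤ ((H ^ 2 / s ^ 2 : ℕ) : ℤ) := by
      rw [Int.abs_eq_natAbs]
      exact_mod_cast h6
    rw [Finset.mem_product]
    refine ⟨Finset.mem_Icc.2 (abs_le.1 h1), ?_⟩
    rw [Finset.mem_biUnion]
    refine ⟨s, Finset.mem_Ioo.2 ⟨hs, by omega⟩, Finset.mem_image.2 ⟨k, ?_, hk.symm⟩⟩
    exact Finset.mem_erase.2 ⟨hk0, Finset.mem_Icc.2 (abs_le.1 h7)⟩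
  have hB : B.card ≤ ∑ s ∈ Finset.Ioo W (H + 1), 2 * (H ^ 2 / s ^ 2) := by
    refine Finset.card_biUnion_le.trans ?_
    refine Finset.sum_le_sum fun s _ => Finset.card_image_le.trans ?_
    rw [Finset.card_erase_of_mem, Int.card_Icc]
    · omega
    · have h0 : (0 : ℤ) ≤ ((H ^ 2 / s ^ 2 : ℕ) : ℤ) := Int.natCast_nonneg _
      exact Finset.mem_Icc.2 ⟨by linarith, h0⟩
  have hcard : S.card ≤ (2 * H + 1) * ∑ s ∈ Finset.Ioo W (H + 1), 2 * (H ^ 2 / s ^ 2) := by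
    refine (Finset.card_le_card hST).trans ?_
    rw [Finset.card_product, Int.card_Icc]
    refine Nat.mul_le_mul ?_ hB
    omega
  have h1 : (S.card : ℝ) ≤ (2 * H + 1) * ∑ s ∈ Finset.Ioo W (H + 1),
      2 * ((H : ℝ) ^ 2 * ((s : ℝ) ^ 2)⁻¹) := by
    have h2 : (S.card : ℝ) ≤
        (((2 * H + 1) * ∑ s ∈ Finset.Ioo W (H + 1), 2 * (H ^ 2 / s ^ 2) : ℕ) : ℝ) := by
      exact_mod_cast hcard
    refine h2.trans ?_
    push_cast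
    refine mul_le_mul_of_nonneg_left ?_ (by positivity)
    refine Finset.sum_le_sum fun s _ => ?_
    have h3 : ((H ^ 2 / s ^ 2 : ℕ) : ℝ) ≤ (H : ℝ) ^ 2 / ((s : ℝ) ^ 2) := by
      have h4 := Nat.cast_div_le (α := ℝ) (m := H ^ 2) (n := s ^ 2)
      push_cast at h4
      exact h4
    rw [div_eq_mul_inv] at h3
    linarith
  have h2 := t2_sum W (H + 1)
  have h3 : ∑ s ∈ Finset.Ioo W (H + 1), 2 * ((H : ℝ) ^ 2 * ((s : ℝ) ^ 2)⁻¹) =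
      2 * (H : ℝ) ^ 2 * ∑ s ∈ Finset.Ioo W (H + 1), ((s : ℝ) ^ 2)⁻¹ := by
    rw [Finset.mul_sum]
    exact Finset.sum_congr rfl fun s _ => by ring
  rw [h3] at h1
  have hH1 : (1 : ℝ) ≤ H := by exact_mod_cast hH
  have hW1 : (1 : ℝ) ≤ W := by exact_mod_cast hW
  have h4 : (2 : ℝ) / ((W : ℝ) + 1) ≤ 2 / W :=
    div_le_div_of_nonneg_left (by norm_num) (by linarith) (by linarith)
  calc (S.card : ℝ) ≤ (2 * H + 1) * (2 * (H : ℝ) ^ 2 *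
        ∑ s ∈ Finset.Ioo W (H + 1), ((s : ℝ) ^ 2)⁻¹) := h1
    _ ≤ (3 * H) * (2 * (H : ℝ) ^ 2 * (2 / W)) := by
        refine mul_le_mul (by linarith) ?_ ?_ (by positivity)
        · exact mul_le_mul_of_nonneg_left (h2.trans h4) (by positivity)
        · refine mul_nonneg (by positivity) (Finset.sum_nonneg fun s _ => by positivity)
    _ = 12 * (H : ℝ) ^ 3 / W := by ring

end N44
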