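import Pool.Agent.LibN44.Defs

namespace N44

open TwHL

/- Row T4a. Partial sums of `FF w n / n` over a range `(Y, Y X]`. Proof: dyadic blocks
`(Y 2^i, Y 2^(i+1)]`, `i ≤ log X / log 2`: by `TwHL.HR` at `x = Y 2^(i+1)`,
`∑ FF w n / n ≤ (1/(Y 2^i)) · C x/(1+log x) · exp (θ LL x + K) ≤ 2 C exp K (1 + log x)^(θ-1)`
`≤ 2 C exp K · exp (-(1-θ) LL Y)`. (`FF w n ≥ 0`.) -/

theorem t4a_dyadic (f : ℕ → ℝ) (hf : ∀ n, 0 ≤ f n) (Y : ℕ) (B : ℝ)
    (hB : ∀ i : ℕ, ∑ n ∈ Finset.Ioc (Y * 2 ^ i) (Y * 2 ^ (i + 1)), f n ≤ B) (I : ℕ) :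
    ∑ n ∈ Finset.Ioc Y (Y * 2 ^ I), f n ≤ I * B := by
  induction I with
  | zero => simp
  | succ I ih =>
    have h1 : Y ≤ Y * 2 ^ I := Nat.le_mul_of_pos_right _ (by positivity)
    have h2 : Y * 2 ^ I ≤ Y * 2 ^ (I + 1) :=
      Nat.mul_le_mul_left _ (Nat.pow_le_pow_right (by norm_num) (Nat.le_succ I))
    rw [← Finset.Ioc_union_Ioc_eq_Ioc h1 h2, Finset.sum_union]
    · have h3 := hB I
      push_cast
      linarith
    · rw [Finset.disjoint_left]
      intro n hn hn'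
      have h3 := (Finset.mem_Ioc.1 hn).2
      have h4 := (Finset.mem_Ioc.1 hn').1
      omega

theorem t4a_FF_nonneg {w : ℕ → ℝ} (hw : ∀ p, 0 ≤ w p) (n : ℕ) : 0 ≤ FF w n := by
  unfold FF
  split_ifs
  · exact Finset.prod_nonneg fun p _ => hw p
  · exact le_rfl

theorem t4a_LL_mono {x y : ℕ} (hx : 1 ≤ x) (hxy : x ≤ y) : LL x ≤ LL y := by
  unfold LL
  have h1 : (1 : ℝ) ≤ x := by exact_mod_cast hx
  have h2 : (x : ℝ) ≤ y := by exact_mod_cast hxy
  have h3 : 0 ≤ Real.log x := Real.log_nonneg h1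
  have h4 : Real.log x ≤ Real.log y := Real.log_le_log (by linarith) h2
  exact Real.log_le_log (by linarith) (by linarith)

theorem sum_w : ∃ C : ℝ, 0 < C ∧ ∀ (w : ℕ → ℝ) (θ K : ℝ), (∀ p, 0 ≤ w p) → (∀ p, w p ≤ 1) →
    0 ≤ θ → θ ≤ 1 → (∀ x : ℕ, 1 ≤ x → ∑ p ∈ PP x, w p / p ≤ θ * LL x + K) →
    ∀ Y X : ℕ, 1 ≤ Y → 1 ≤ X →
    ∑ n ∈ Finset.Ioc Y (Y * X), FF w n / n
      ≤ C * Real.exp K * (1 + Real.log X) * Real.exp (- (1 - θ) * LL Y) := by
  obtain ⟨C0, hC0, hHR⟩ := HR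
  refine ⟨2 * (2 * C0), by positivity, ?_⟩
  intro w θ K hw0 hw1 hθ0 hθ1 hsum Y X hY hX
  have hX1 : (1 : ℝ) ≤ X := by exact_mod_cast hX
  have hY1 : (1 : ℝ) ≤ Y := by exact_mod_cast hY
  have hFn : ∀ n : ℕ, 0 ≤ FF w n / n := fun n =>
    div_nonneg (t4a_FF_nonneg hw0 n) (Nat.cast_nonneg n)
  set B : ℝ := 2 * C0 * Real.exp K * Real.exp (-(1 - θ) * LL Y) with hBdef
  have hB0 : 0 ≤ B := by positivity
  have hB : ∀ i : ℕ, ∑ n ∈ Finset.Ioc (Y * 2 ^ i) (Y * 2 ^ (i + 1)), FF w n / n ≤ B := by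
    intro i
    set x : ℕ := Y * 2 ^ (i + 1) with hx
    set y : ℕ := Y * 2 ^ i with hy
    have hxy : x = 2 * y := by rw [hx, hy, pow_succ]; ring
    have hy1 : 1 ≤ y := Nat.mul_pos hY (by positivity)
    have hx1 : 1 ≤ x := by omega
    have hyR : (1 : ℝ) ≤ y := by exact_mod_cast hy1
    have hxR : (1 : ℝ) ≤ x := by exact_mod_cast hx1
    have hlx : 0 ≤ Real.log x := Real.log_nonneg hxR
    have hYx : Y ≤ x := by
      have : Y ≤ y := Nat.le_mul_of_pos_right _ (by positivity)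
      omega
    have h1 : ∑ n ∈ Finset.Ioc y x, FF w n / n ≤ (1 / (y : ℝ)) * ∑ n ∈ Finset.Icc 1 x, FF w n := by
      calc ∑ n ∈ Finset.Ioc y x, FF w n / n ≤ ∑ n ∈ Finset.Ioc y x, (1 / (y : ℝ)) * FF w n := by
            refine Finset.sum_le_sum fun n hn => ?_
            have hn1 : (y : ℝ) ≤ n := by exact_mod_cast (Finset.mem_Ioc.1 hn).1.le
            rw [one_div, mul_comm, ← div_eq_mul_inv]
            exact div_le_div_of_nonneg_left (t4a_FF_nonneg hw0 n) (by linarith) hn1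
        _ = (1 / (y : ℝ)) * ∑ n ∈ Finset.Ioc y x, FF w n := by rw [Finset.mul_sum]
        _ ≤ (1 / (y : ℝ)) * ∑ n ∈ Finset.Icc 1 x, FF w n := by
            refine mul_le_mul_of_nonneg_left ?_ (by positivity)
            refine Finset.sum_le_sum_of_subset_of_nonneg ?_ fun n _ _ => t4a_FF_nonneg hw0 n
            intro n hn
            rw [Finset.mem_Ioc] at hn
            rw [Finset.mem_Icc]
            omega
    have h2 := hHR w hw0 (fun p => (hw1 p).trans (by norm_num)) x hx1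
    have h3 : Real.exp (∑ p ∈ PP x, w p / p) ≤ Real.exp (θ * LL x + K) :=
      Real.exp_le_exp.2 (hsum x hx1)
    have h4 : Real.exp (θ * LL x + K) = (1 + Real.log x) * (Real.exp K *
        Real.exp (-(1 - θ) * LL x)) := by
      have h5 : (1 + Real.log x) = Real.exp (LL x) := by
        unfold LL
        rw [Real.exp_log (by linarith)]
      rw [h5, ← Real.exp_add, ← Real.exp_add]
      congr 1
      ring
    have h6 : Real.exp (-(1 - θ) * LL x) ≤ Real.exp (-(1 - θ) * LL Y) := by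
      refine Real.exp_le_exp.2 ?_
      have h7 := t4a_LL_mono hY hYx
      nlinarith
    have hyy : (x : ℝ) = 2 * y := by exact_mod_cast hxy
    calc ∑ n ∈ Finset.Ioc y x, FF w n / n ≤ (1 / (y : ℝ)) * ∑ n ∈ Finset.Icc 1 x, FF w n := h1
      _ ≤ (1 / (y : ℝ)) * (C0 * (x / (1 + Real.log x)) * Real.exp (θ * LL x + K)) := by
          refine mul_le_mul_of_nonneg_left (h2.trans ?_) (by positivity)
          exact mul_le_mul_of_nonneg_left h3 (by positivity)
      _ = 2 * C0 * (Real.exp K * Real.exp (-(1 - θ) * LL x)) := by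
          have h8 : (1 : ℝ) + Real.log x ≠ 0 := by linarith
          have h9 : (y : ℝ) ≠ 0 := by linarith
          have h10 : (x : ℝ) / y = 2 := by
            rw [hyy]
            field_simp
          rw [h4]
          have h11 : (1 / (y : ℝ)) * (C0 * (x / (1 + Real.log x)) * ((1 + Real.log x) *
              (Real.exp K * Real.exp (-(1 - θ) * LL x)))) =
              C0 * (x / y) * (Real.exp K * Real.exp (-(1 - θ) * LL x)) *
                ((1 + Real.log x) * (1 + Real.log x)⁻¹) := by ring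
          rw [h11, h10, mul_inv_cancel₀ h8]
          ring
      _ ≤ B := by
          rw [hBdef, mul_assoc (2 * C0) (Real.exp K)]
          refine mul_le_mul_of_nonneg_left ?_ (by positivity)
          exact mul_le_mul_of_nonneg_left h6 (by positivity)
  set I : ℕ := Nat.log 2 X + 1 with hI
  have hXI : X ≤ 2 ^ I := (Nat.lt_pow_succ_log_self (by norm_num) X).le
  have h1 := t4a_dyadic (fun n => FF w n / n) hFn Y B hB I
  have h2 : ∑ n ∈ Finset.Ioc Y (Y * X), FF w n / n ≤ ∑ n ∈ Finset.Ioc Y (Y * 2 ^ I), FF w n / n := by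
    refine Finset.sum_le_sum_of_subset_of_nonneg ?_ fun n _ _ => hFn n
    exact Finset.Ioc_subset_Ioc_right (Nat.mul_le_mul_left _ hXI)
  have h3 : (I : ℝ) ≤ 2 * (1 + Real.log X) := by
    have h4 : (2 : ℝ) ^ (Nat.log 2 X) ≤ X := by
      exact_mod_cast Nat.pow_log_le_self 2 (by omega)
    have h5 := Real.log_le_log (by positivity) h4
    rw [Real.log_pow] at h5
    have h6 : (1 / 2 : ℝ) ≤ Real.log 2 := by
      have := Real.log_two_gt_d9
      linarith
    have h7 : (0 : ℝ) ≤ (Nat.log 2 X : ℕ) := Nat.cast_nonneg _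
    rw [hI]
    push_cast
    nlinarith
  calc ∑ n ∈ Finset.Ioc Y (Y * X), FF w n / n ≤ I * B := h2.trans h1
    _ ≤ 2 * (1 + Real.log X) * B := mul_le_mul_of_nonneg_right h3 hB0
    _ = _ := by rw [hBdef]; ring

end N44
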