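import Pool.Agent.LibN44.T4a

namespace N44

open TwHL

theorem t4b_FF_nonneg (n : ℕ) : 0 ≤ FF (fun _ => 3 / 5) n := by
  unfold FF
  split_ifs
  · exact Finset.prod_nonneg (fun p _ => by norm_num)
  · exact le_refl 0

theorem t4b_FF {n : ℕ} (hn : Squarefree n) :
    FF (fun _ => 3 / 5) n = (3 / 5 : ℝ) ^ n.primeFactors.card := by
  rw [FF, if_pos hn, Finset.prod_const]

theorem t4b_FF_mul {f g : ℕ} (h : Squarefree (f * g)) :
    FF (fun _ => 3 / 5) (f * g) = FF (fun _ => 3 / 5) f * FF (fun _ => 3 / 5) g := by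
  have hc : f.Coprime g := Nat.coprime_of_squarefree_mul h
  have hf : Squarefree f := h.of_mul_left
  have hg : Squarefree g := h.of_mul_right
  rw [t4b_FF h, t4b_FF hf, t4b_FF hg, hc.primeFactors_mul,
    Finset.card_union_of_disjoint hc.disjoint_primeFactors, pow_add]

/-- if `N ≤ M ^ 4` then `LL M ≥ LL N - log 4` -/
theorem t4b_LL {M N : ℕ} (hM : 1 ≤ M) (hN : 1 ≤ N) (h : N ≤ M ^ 4) :
    Real.exp (-(2 / 5) * LL M) ≤ 2 * Real.exp (-(2 / 5) * LL N) := by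
  have hM1 : (1 : ℝ) ≤ M := by exact_mod_cast hM
  have hN1 : (1 : ℝ) ≤ N := by exact_mod_cast hN
  have hlM : 0 ≤ Real.log M := Real.log_nonneg hM1
  have hlN : 0 ≤ Real.log N := Real.log_nonneg hN1
  have h1 : Real.log N ≤ 4 * Real.log M := by
    have h2 : (N : ℝ) ≤ (M : ℝ) ^ 4 := by exact_mod_cast h
    have h3 := Real.log_le_log (by linarith) h2
    rw [Real.log_pow] at h3
    exact_mod_cast h3
  have h2 : LL N ≤ Real.log 4 + LL M := by
    rw [LL, LL, ← Real.log_mul (by norm_num) (by linarith)]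
    apply Real.log_le_log (by linarith)
    linarith
  have h4 : Real.log 4 = 2 * Real.log 2 := by
    rw [show (4 : ℝ) = 2 ^ 2 by norm_num, Real.log_pow]
    norm_num
  have hl2 : 0 < Real.log 2 := Real.log_pos (by norm_num)
  calc Real.exp (-(2 / 5) * LL M) ≤ Real.exp (Real.log 2 + -(2 / 5) * LL N) := by
        apply Real.exp_le_exp.mpr
        linarith
    _ = 2 * Real.exp (-(2 / 5) * LL N) := by
        rw [Real.exp_add, Real.exp_log (by norm_num)]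

theorem t4b_inner : ∃ C : ℝ, 0 < C ∧ ∀ M : ℕ, 1 ≤ M →
    ∑ n ∈ Finset.Icc 1 M, FF (fun _ => 3 / 5) n ≤ C * M * Real.exp (-(2 / 5) * LL M) := by
  obtain ⟨C, hC, h⟩ := HR
  obtain ⟨C', hC', h'⟩ := mertens
  refine ⟨C * Real.exp (3 / 5 * C'), by positivity, fun M hM => ?_⟩
  have hM1 : (1 : ℝ) ≤ M := by exact_mod_cast hM
  have hlM : 0 ≤ Real.log M := Real.log_nonneg hM1
  have h1 := h (fun _ => 3 / 5) (fun _ => by norm_num) (fun _ => by norm_num) M hM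
  refine h1.trans ?_
  have h2 : ∑ p ∈ PP M, (3 / 5 : ℝ) / p ≤ 3 / 5 * LL M + 3 / 5 * C' := by
    have h3 := (abs_le.mp (h' M hM)).2
    have h4 : ∑ p ∈ PP M, (3 / 5 : ℝ) / p = 3 / 5 * ∑ p ∈ PP M, 1 / (p : ℝ) := by
      rw [Finset.mul_sum]
      exact Finset.sum_congr rfl fun p _ => by ring
    rw [h4]
    linarith
  have h5 : (1 + Real.log M) = Real.exp (LL M) := by
    rw [LL, Real.exp_log (by linarith)]
  calc C * (M / (1 + Real.log M)) * Real.exp (∑ p ∈ PP M, (3 / 5 : ℝ) / p)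
      ≤ C * (M / (1 + Real.log M)) * Real.exp (3 / 5 * LL M + 3 / 5 * C') := by
        gcongr
    _ = C * Real.exp (3 / 5 * C') * M * (Real.exp (3 / 5 * LL M) / Real.exp (LL M)) := by
        rw [← h5, Real.exp_add]
        field_simp
    _ = C * Real.exp (3 / 5 * C') * M * Real.exp (-(2 / 5) * LL M) := by
        rw [← Real.exp_sub]
        congr 2
        ring

/-- arithmetic of the ranges -/
theorem t4b_four {N Q R M : ℕ} (hQ : Q ^ 4 ≤ R) (hR : 59049 ≤ R) (hN : N ≤ 4 * R ^ 2)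
    (h : R ≤ 8 * Q * M) : N ≤ M ^ 4 := by
  have h1 : R ^ 4 ≤ (8 * Q * M) ^ 4 := Nat.pow_le_pow_left h 4
  have h2 : (8 * Q * M) ^ 4 = 4096 * Q ^ 4 * M ^ 4 := by ring
  have h3 : R ^ 4 ≤ 4096 * R * M ^ 4 := by
    refine h1.trans ?_
    rw [h2]
    gcongr
  have h4 : R * R ^ 3 ≤ R * (4096 * M ^ 4) := by
    calc R * R ^ 3 = R ^ 4 := by ring
      _ ≤ 4096 * R * M ^ 4 := h3
      _ = R * (4096 * M ^ 4) := by ring
  have h5 : R ^ 3 ≤ 4096 * M ^ 4 := Nat.le_of_mul_le_mul_left h4 (by omega)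
  have h6 : 59049 * R ^ 2 ≤ R ^ 3 := by
    calc 59049 * R ^ 2 ≤ R * R ^ 2 := Nat.mul_le_mul_right _ hR
      _ = R ^ 3 := by ring
  omega

theorem t4b_Q {Q R : ℕ} (hQ : Q ^ 4 ≤ R) (hR : 59049 ≤ R) : 64 * Q ≤ R := by
  rcases Nat.lt_or_ge 900 Q with h | h
  · have h1 : 64 * Q ≤ Q ^ 4 := by
      have h2 : 900 ^ 3 ≤ Q ^ 3 := Nat.pow_le_pow_left h.le 3
      calc 64 * Q ≤ 900 ^ 3 * Q := Nat.mul_le_mul_right _ (by norm_num)
        _ ≤ Q ^ 3 * Q := Nat.mul_le_mul_right _ h2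
        _ = Q ^ 4 := by ring
    exact h1.trans hQ
  · omega

/-- `Q ^ 8 ≤ N` -/
theorem t4b_pow {N Q : ℕ} (hN : 3 ^ 20 ≤ N) (hQ : 1 ≤ Q)
    (h : Real.log Q ≤ (Real.log N) ^ (1 / 9 : ℝ)) : Q ^ 8 ≤ N := by
  have hN1 : (3 : ℝ) ^ 20 ≤ N := by exact_mod_cast hN
  have hN0 : (0 : ℝ) < N := lt_of_lt_of_le (by positivity) hN1
  have hl3 : 1 ≤ Real.log 3 := by
    rw [Real.le_log_iff_exp_le (by norm_num)]
    exact Real.exp_one_lt_d9.le.trans (by norm_num)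
  have hlN : 16 ≤ Real.log N := by
    have h1 := Real.log_le_log (by positivity) hN1
    rw [Real.log_pow] at h1
    push_cast at h1
    linarith
  have hx : (Real.log N) ^ (1 / 9 : ℝ) * 8 ≤ Real.log N := by
    have h1 : (Real.log N) = (Real.log N) ^ (1 / 9 : ℝ) * (Real.log N) ^ (8 / 9 : ℝ) := by
      rw [← Real.rpow_add (by linarith)]
      norm_num
    have h2 : (8 : ℝ) ≤ (Real.log N) ^ (8 / 9 : ℝ) := by
      calc (8 : ℝ) = 2 ^ (3 : ℝ) := by norm_num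
        _ ≤ 2 ^ (32 / 9 : ℝ) := Real.rpow_le_rpow_of_exponent_le (by norm_num) (by norm_num)
        _ = (2 ^ (4 : ℝ)) ^ (8 / 9 : ℝ) := by
            rw [← Real.rpow_mul (by norm_num)]
            norm_num
        _ = 16 ^ (8 / 9 : ℝ) := by norm_num
        _ ≤ (Real.log N) ^ (8 / 9 : ℝ) := Real.rpow_le_rpow (by norm_num) hlN (by norm_num)
    have h3 : 0 ≤ (Real.log N) ^ (1 / 9 : ℝ) := Real.rpow_nonneg (by linarith) _
    calc (Real.log N) ^ (1 / 9 : ℝ) * 8 ≤ (Real.log N) ^ (1 / 9 : ℝ) * (Real.log N) ^ (8 / 9 : ℝ) :=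
          mul_le_mul_of_nonneg_left h2 h3
      _ = Real.log N := h1.symm
  have hQ0 : (0 : ℝ) < Q := by exact_mod_cast hQ
  have h1 : Real.log ((Q : ℝ) ^ 8) ≤ Real.log N := by
    rw [Real.log_pow]
    push_cast
    linarith
  have h2 : (Q : ℝ) ^ 8 ≤ N := (Real.log_le_log_iff (by positivity) hN0).mp h1
  exact_mod_cast h2

theorem t4b_log53 : Real.log (5 / 3) ≤ 52 / 100 := by
  have h1 : Real.log (5 / 3) = 1 / 2 * Real.log (25 / 9) := by
    rw [show (25 / 9 : ℝ) = (5 / 3) ^ 2 by norm_num, Real.log_pow]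
    push_cast
    ring
  have h2 : Real.log (25 / 9) ≤ 104 / 100 := by
    rw [Real.log_le_iff_le_exp (by norm_num)]
    have h3 : (104 / 100 : ℝ) = 1 + 4 / 100 := by norm_num
    rw [h3, Real.exp_add]
    have h4 := Real.exp_one_gt_d9
    have h5 := Real.add_one_le_exp (4 / 100 : ℝ)
    nlinarith
  linarith

/-- Row T4b. Multiplication table, squarefree numbers. Put `t = LL N`, `κ = 3/5`.
(1) `TwC.typical_c`: at most `C N exp(-t/60)` of the `n ≤ N` have more than `6/5 t` prime factors.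
(2) the others: `n = f g` squarefree, so `ω(n) = ω(f) + ω(g) ≤ 6/5 t` and
`1 ≤ κ^(-6/5 t) κ^(ω f) κ^(ω g)`; `f, g` squarefree: `FF (fun _ => κ) f = κ^(ω f)`. `g ≤ N/f`, where
`N/f ≥ N^(1/4)`; `HR`: `∑_{g ≤ N/f} FF κ g ≤ C (N/f) (1+log (N/f))^(κ-1) ≤ C' (N/f) exp (-(2/5) t)`.
`f` runs over `(Y, Y X]` with `Y² Q² ≥ N/4`.., `X ≤ 4 Q² + 4`: `sum_w` (`θ = κ`, `K` from `mertens`):
`∑ FF κ f / f ≤ C (1 + log Q) exp (-(2/5) t)`. Total `C N (1 + log Q) exp (t (6/5 log (5/3) - 4/5))`,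
`6/5 log(5/3) - 4/5 < -0.18` (`log (5/3) < 0.511`), and `1 + log Q ≤ 2 exp (t/9)`. -/
theorem mt_sqf : ∃ C : ℝ, 0 < C ∧ ∃ N₀ : ℕ, ∀ N Q : ℕ, N₀ ≤ N → 1 ≤ Q →
    Real.log Q ≤ (Real.log N) ^ (1 / 9 : ℝ) → ∀ S : Finset ℕ,
    (∀ n ∈ S, 1 ≤ n ∧ n ≤ N ∧ Squarefree n ∧ ∃ f : ℕ, f ∣ n ∧ N ≤ f ^ 2 * Q ^ 2 ∧ f ^ 2 ≤ N * Q ^ 2) →
    (S.card : ℝ) ≤ C * N * Real.exp (- (1 / 60) * LL N) := by
  classical
  obtain ⟨C₁, hC₁, h₁⟩ := TwC.typical_c
  obtain ⟨C₃, hC₃, h₃⟩ := mertens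
  obtain ⟨C₄, hC₄, h₄⟩ := t4b_inner
  obtain ⟨C₅, hC₅, h₅⟩ := sum_w
  refine ⟨C₁ + 24 * C₄ * C₅ * Real.exp (3 / 5 * C₃), by positivity, 3 ^ 20, ?_⟩
  intro N Q hN hQ hlQ S hS
  have hN1 : 1 ≤ N := le_trans (by norm_num) hN
  have hNr : (1 : ℝ) ≤ N := by exact_mod_cast hN1
  have hlN : 0 ≤ Real.log N := Real.log_nonneg hNr
  have ht : 0 ≤ LL N := Real.log_nonneg (by linarith)
  have hQ8 := t4b_pow hN hQ hlQ
  obtain ⟨R, hR⟩ : ∃ R, R = Nat.sqrt N := ⟨_, rfl⟩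
  have hR1 : R * R ≤ N := by rw [hR]; exact Nat.sqrt_le N
  have hR2 : N < (R + 1) * (R + 1) := by rw [hR]; exact Nat.lt_succ_sqrt N
  have hR3 : 59049 ≤ R := by
    rw [hR, Nat.le_sqrt]
    exact le_trans (by norm_num) hN
  have hQ4 : Q ^ 4 ≤ R := by
    rw [hR, Nat.le_sqrt]
    calc Q ^ 4 * Q ^ 4 = Q ^ 8 := by ring
      _ ≤ N := hQ8
  have h64 := t4b_Q hQ4 hR3
  have hN4 : N ≤ 4 * R ^ 2 := by nlinarith
  obtain ⟨Y, hY⟩ : ∃ Y, Y = R / (2 * Q) := ⟨_, rfl⟩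
  have hY1 : 2 * Q * Y ≤ R := by rw [hY]; exact Nat.mul_div_le R (2 * Q)
  have hY2 : R < 2 * Q * (Y + 1) := by
    rw [hY]
    exact Nat.lt_mul_div_succ R (by omega)
  have hY0 : 1 ≤ Y := by
    rw [hY, Nat.one_le_div_iff (by omega)]
    omega
  have hY3 : R ≤ 4 * Q * Y := by nlinarith
  have hY4 : N ≤ Y ^ 4 := t4b_four hQ4 hR3 hN4 (by nlinarith)
  -- the two parts
  have hsub : S ⊆ (Finset.Icc 1 N).filter (fun c => 6 / 5 * LL N < (c.primeFactors.card : ℝ)) ∪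
      S.filter (fun c => (c.primeFactors.card : ℝ) ≤ 6 / 5 * LL N) := by
    intro n hn
    rw [Finset.mem_union, Finset.mem_filter, Finset.mem_filter, Finset.mem_Icc]
    obtain ⟨h1, h2, -⟩ := hS n hn
    rcases lt_or_ge (6 / 5 * LL N) (n.primeFactors.card : ℝ) with h | h
    · exact Or.inl ⟨⟨h1, h2⟩, h⟩
    · exact Or.inr ⟨hn, h⟩
  have hcard : (S.card : ℝ) ≤
      (((Finset.Icc 1 N).filter (fun c => 6 / 5 * LL N < (c.primeFactors.card : ℝ))).card : ℝ) +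
      ((S.filter (fun c => (c.primeFactors.card : ℝ) ≤ 6 / 5 * LL N)).card : ℝ) := by
    exact_mod_cast (Finset.card_le_card hsub).trans (Finset.card_union_le _ _)
  obtain ⟨B, hB⟩ : ∃ B, B = S.filter (fun c => (c.primeFactors.card : ℝ) ≤ 6 / 5 * LL N) :=
    ⟨_, rfl⟩
  rw [← hB] at hcard
  have hBS : ∀ n ∈ B, n ∈ S ∧ (n.primeFactors.card : ℝ) ≤ 6 / 5 * LL N := by
    intro n hn
    rw [hB, Finset.mem_filter] at hn
    exact hn
  -- weights
  have hw : ∀ n ∈ B, (1 : ℝ) ≤ Real.exp (6 / 5 * LL N * Real.log (5 / 3)) *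
      FF (fun _ => 3 / 5) n := by
    intro n hn
    obtain ⟨h1, h2⟩ := hBS n hn
    obtain ⟨-, -, h3, -⟩ := hS n h1
    rw [t4b_FF h3]
    have h4 : (5 / 3 : ℝ) ^ n.primeFactors.card ≤ Real.exp (6 / 5 * LL N * Real.log (5 / 3)) := by
      rw [← Real.exp_log (show (0 : ℝ) < 5 / 3 by norm_num), ← Real.exp_nat_mul]
      apply Real.exp_le_exp.mpr
      rw [Real.log_exp]
      exact mul_le_mul_of_nonneg_right h2 (Real.log_nonneg (by norm_num))
    calc (1 : ℝ) = (5 / 3) ^ n.primeFactors.card * (3 / 5) ^ n.primeFactors.card := by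
          rw [← mul_pow]
          norm_num
      _ ≤ _ := mul_le_mul_of_nonneg_right h4 (by positivity)
  have hchoose : ∀ n : ℕ, ∃ f : ℕ, n ∈ B → f ∣ n ∧ N ≤ f ^ 2 * Q ^ 2 ∧ f ^ 2 ≤ N * Q ^ 2 := by
    intro n
    by_cases hn : n ∈ B
    · obtain ⟨-, -, -, f, hf⟩ := hS n (hBS n hn).1
      exact ⟨f, fun _ => hf⟩
    · exact ⟨0, fun h => absurd h hn⟩
  choose F hF using hchoose
  have hF1 : ∀ n ∈ B, 1 ≤ F n ∧ F n * (n / F n) = n ∧ Y < F n ∧ F n ≤ Y * (8 * Q ^ 2) ∧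
      1 ≤ n / F n ∧ n / F n ≤ N / F n := by
    intro n hn
    obtain ⟨h1, h2, h3⟩ := hF n hn
    obtain ⟨hn1, hnN, -⟩ := hS n (hBS n hn).1
    have hf0 : 0 < F n := Nat.pos_of_dvd_of_pos h1 hn1
    refine ⟨hf0, Nat.mul_div_cancel' h1, ?_, ?_, Nat.div_pos (Nat.le_of_dvd hn1 h1) hf0,
      Nat.div_le_div_right hnN⟩
    · by_contra hc
      push Not at hc
      have h4 : 2 * Q * F n ≤ R := (Nat.mul_le_mul_left _ hc).trans hY1
      have h5 : (2 * Q * F n) * (2 * Q * F n) ≤ N := (Nat.mul_le_mul h4 h4).trans hR1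
      have h6 : (2 * Q * F n) * (2 * Q * F n) = 4 * (F n ^ 2 * Q ^ 2) := by ring
      have h7 : 0 < F n ^ 2 * Q ^ 2 := by positivity
      omega
    · have h4 : F n ^ 2 ≤ ((R + 1) * Q) ^ 2 := by
        calc F n ^ 2 ≤ N * Q ^ 2 := h3
          _ ≤ ((R + 1) * (R + 1)) * Q ^ 2 := Nat.mul_le_mul_right _ hR2.le
          _ = ((R + 1) * Q) ^ 2 := by ring
      have h5 : F n ≤ (R + 1) * Q := le_of_pow_le_pow_left₀ (by norm_num) (by positivity) h4
      have h6 : (R + 1) * Q ≤ 2 * R * Q := Nat.mul_le_mul_right _ (by omega)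
      calc F n ≤ 2 * R * Q := h5.trans h6
        _ = (2 * Q) * R := by ring
        _ ≤ (2 * Q) * (4 * Q * Y) := Nat.mul_le_mul_left _ hY3
        _ = Y * (8 * Q ^ 2) := by ring
  -- the double sum
  have hsum : ∑ n ∈ B, FF (fun _ => 3 / 5) n ≤
      ∑ f ∈ Finset.Ioc Y (Y * (8 * Q ^ 2)), ∑ g ∈ Finset.Icc 1 (N / f),
        FF (fun _ => 3 / 5) f * FF (fun _ => 3 / 5) g := by
    rw [Finset.sum_sigma']
    have h1 : ∑ n ∈ B, FF (fun _ => 3 / 5) n =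
        ∑ x ∈ B.image (fun n => (⟨F n, n / F n⟩ : Σ _ : ℕ, ℕ)),
          FF (fun _ => 3 / 5) x.1 * FF (fun _ => 3 / 5) x.2 := by
      rw [Finset.sum_image]
      · refine Finset.sum_congr rfl fun n hn => ?_
        obtain ⟨-, h2, -⟩ := hF1 n hn
        obtain ⟨-, -, h3, -⟩ := hS n (hBS n hn).1
        rw [← h2] at h3
        change _ = FF (fun _ => 3 / 5) (F n) * FF (fun _ => 3 / 5) (n / F n)
        rw [← t4b_FF_mul h3, h2]
      · intro n hn n' hn' heq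
        have e1 : F n = F n' := congrArg Sigma.fst heq
        have e2 : n / F n = n' / F n' := by
          have := (Sigma.mk.inj_iff.mp heq).2
          exact eq_of_heq this
        obtain ⟨-, h2, -⟩ := hF1 n hn
        obtain ⟨-, h2', -⟩ := hF1 n' hn'
        rw [← h2, ← h2', ← e2, ← e1]
    rw [h1]
    refine Finset.sum_le_sum_of_subset_of_nonneg ?_ ?_
    · intro x hx
      rw [Finset.mem_image] at hx
      obtain ⟨n, hn, rfl⟩ := hx
      obtain ⟨-, -, h3, h4, h5, h6⟩ := hF1 n hn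
      rw [Finset.mem_sigma, Finset.mem_Ioc, Finset.mem_Icc]
      exact ⟨⟨h3, h4⟩, h5, h6⟩
    · intro x _ _
      exact mul_nonneg (t4b_FF_nonneg _) (t4b_FF_nonneg _)
  have hin : ∀ f ∈ Finset.Ioc Y (Y * (8 * Q ^ 2)), ∑ g ∈ Finset.Icc 1 (N / f),
      FF (fun _ => 3 / 5) f * FF (fun _ => 3 / 5) g ≤
        (2 * C₄ * N * Real.exp (-(2 / 5) * LL N)) * (FF (fun _ => 3 / 5) f / f) := by
    intro f hf
    rw [Finset.mem_Ioc] at hf
    have hf0 : 0 < f := by omega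
    have hfR : f ≤ 4 * Q * R := by
      calc f ≤ Y * (8 * Q ^ 2) := hf.2
        _ = 4 * Q * (2 * Q * Y) := by ring
        _ ≤ 4 * Q * R := Nat.mul_le_mul_left _ hY1
    have hM2 : N < f * (N / f + 1) := Nat.lt_mul_div_succ N hf0
    have hM3 : R < 4 * Q * (N / f + 1) := by
      have h1 : R * R < R * (4 * Q * (N / f + 1)) := by
        calc R * R ≤ N := hR1
          _ < f * (N / f + 1) := hM2
          _ ≤ 4 * Q * R * (N / f + 1) := Nat.mul_le_mul_right _ hfR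
          _ = R * (4 * Q * (N / f + 1)) := by ring
      exact Nat.lt_of_mul_lt_mul_left h1
    obtain ⟨M, hM⟩ : ∃ M, M = N / f := ⟨_, rfl⟩
    rw [← hM] at hM3
    have hM0 : 1 ≤ M := by
      by_contra hc
      have : M = 0 := by omega
      rw [this] at hM3
      omega
    have hM4 : N ≤ M ^ 4 := t4b_four hQ4 hR3 hN4 (by nlinarith)
    rw [← Finset.mul_sum, ← hM]
    have h1 := h₄ M hM0
    have h2 := t4b_LL hM0 hN1 hM4
    have hMN : (M : ℝ) ≤ N / f := by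
      rw [hM]
      exact Nat.cast_div_le
    have hfr : (0 : ℝ) < f := by exact_mod_cast hf0
    have h3 : ∑ g ∈ Finset.Icc 1 M, FF (fun _ => 3 / 5) g ≤
        C₄ * (N / f) * (2 * Real.exp (-(2 / 5) * LL N)) := by
      refine h1.trans ?_
      gcongr
    calc FF (fun _ => 3 / 5) f * ∑ g ∈ Finset.Icc 1 M, FF (fun _ => 3 / 5) g
        ≤ FF (fun _ => 3 / 5) f * (C₄ * (N / f) * (2 * Real.exp (-(2 / 5) * LL N))) :=
          mul_le_mul_of_nonneg_left h3 (t4b_FF_nonneg f)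
      _ = _ := by ring
  have hout := h₅ (fun _ => 3 / 5) (3 / 5) (3 / 5 * C₃) (fun _ => by norm_num)
    (fun _ => by norm_num) (by norm_num) (by norm_num) (by
      intro x hx
      have h3 := (abs_le.mp (h₃ x hx)).2
      have h4 : ∑ p ∈ PP x, (3 / 5 : ℝ) / p = 3 / 5 * ∑ p ∈ PP x, 1 / (p : ℝ) := by
        rw [Finset.mul_sum]
        exact Finset.sum_congr rfl fun p _ => by ring
      rw [h4]
      linarith) Y (8 * Q ^ 2) hY0 (by nlinarith [Nat.one_le_pow 2 Q hQ])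
  have hX : 1 + Real.log ((8 * Q ^ 2 : ℕ) : ℝ) ≤ 6 * Real.exp (1 / 9 * LL N) := by
    have hQ0 : (0 : ℝ) < Q := by exact_mod_cast hQ
    have h1 : Real.log ((8 * Q ^ 2 : ℕ) : ℝ) = 3 * Real.log 2 + 2 * Real.log Q := by
      push_cast
      rw [Real.log_mul (by norm_num) (by positivity), Real.log_pow,
        show (8 : ℝ) = 2 ^ 3 by norm_num, Real.log_pow]
      push_cast
      ring
    have h2 : Real.exp (1 / 9 * LL N) = (1 + Real.log N) ^ (1 / 9 : ℝ) := by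
      rw [LL, Real.rpow_def_of_pos (by linarith), mul_comm]
    have h3 : (Real.log N) ^ (1 / 9 : ℝ) ≤ (1 + Real.log N) ^ (1 / 9 : ℝ) :=
      Real.rpow_le_rpow hlN (by linarith) (by norm_num)
    have h4 : 1 ≤ (1 + Real.log N) ^ (1 / 9 : ℝ) := Real.one_le_rpow (by linarith) (by norm_num)
    have h5 := Real.log_two_lt_d9
    rw [h1, h2]
    linarith
  have hYL := t4b_LL hY0 hN1 hY4
  have hfinal : (B.card : ℝ) ≤ Real.exp (6 / 5 * LL N * Real.log (5 / 3)) *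
      ((2 * C₄ * N * Real.exp (-(2 / 5) * LL N)) * (C₅ * Real.exp (3 / 5 * C₃) *
        (6 * Real.exp (1 / 9 * LL N)) * (2 * Real.exp (-(2 / 5) * LL N)))) := by
    have h1 : (B.card : ℝ) ≤ ∑ n ∈ B, Real.exp (6 / 5 * LL N * Real.log (5 / 3)) *
        FF (fun _ => 3 / 5) n := by
      rw [Finset.card_eq_sum_ones, Nat.cast_sum]
      refine Finset.sum_le_sum fun n hn => ?_
      rw [Nat.cast_one]
      exact hw n hn
    refine h1.trans ?_
    rw [← Finset.mul_sum]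
    refine mul_le_mul_of_nonneg_left (hsum.trans ((Finset.sum_le_sum hin).trans ?_))
      (Real.exp_pos _).le
    rw [← Finset.mul_sum]
    refine mul_le_mul_of_nonneg_left (hout.trans ?_) (by positivity)
    have h2 : (-(1 - 3 / 5) * LL Y : ℝ) = -(2 / 5) * LL Y := by ring
    rw [h2]
    have h0 : 0 ≤ 1 + Real.log ((8 * Q ^ 2 : ℕ) : ℝ) := by
      have : 0 ≤ Real.log ((8 * Q ^ 2 : ℕ) : ℝ) := Real.log_natCast_nonneg _
      linarith
    gcongr
  have hexp : Real.exp (6 / 5 * LL N * Real.log (5 / 3)) * Real.exp (-(2 / 5) * LL N) *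
      Real.exp (1 / 9 * LL N) * Real.exp (-(2 / 5) * LL N) ≤ Real.exp (-(1 / 60) * LL N) := by
    rw [← Real.exp_add, ← Real.exp_add, ← Real.exp_add]
    apply Real.exp_le_exp.mpr
    have h1 := t4b_log53
    have h2 : 6 / 5 * LL N * Real.log (5 / 3) ≤ 6 / 5 * LL N * (52 / 100) :=
      mul_le_mul_of_nonneg_left h1 (by positivity)
    nlinarith
  calc (S.card : ℝ) ≤ C₁ * N * Real.exp (-(1 / 60) * LL N) + (B.card : ℝ) :=
        hcard.trans (add_le_add (h₁ N hN1) le_rfl)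
    _ ≤ C₁ * N * Real.exp (-(1 / 60) * LL N) + (24 * C₄ * C₅ * Real.exp (3 / 5 * C₃)) * N *
        (Real.exp (6 / 5 * LL N * Real.log (5 / 3)) * Real.exp (-(2 / 5) * LL N) *
      Real.exp (1 / 9 * LL N) * Real.exp (-(2 / 5) * LL N)) := by
        refine add_le_add le_rfl (hfinal.trans (le_of_eq ?_))
        ring
    _ ≤ C₁ * N * Real.exp (-(1 / 60) * LL N) + (24 * C₄ * C₅ * Real.exp (3 / 5 * C₃)) * N *
        Real.exp (-(1 / 60) * LL N) := by
        refine add_le_add le_rfl (mul_le_mul_of_nonneg_left hexp (by positivity))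
    _ = (C₁ + 24 * C₄ * C₅ * Real.exp (3 / 5 * C₃)) * N * Real.exp (-(1 / 60) * LL N) := by ring

end N44
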