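import Pool.Agent.LibN44.T4b

namespace N44

open TwHL

open Classical in
/-- numbers divisible by a large square -/
theorem t4c_large (N k₀ : ℕ) (hk : 1 ≤ k₀) :
    (((Finset.Icc 1 N).filter (fun n => ∃ k : ℕ, k₀ < k ∧ k ^ 2 ∣ n)).card : ℝ) ≤ N / k₀ := by
  have hsub : (Finset.Icc 1 N).filter (fun n => ∃ k : ℕ, k₀ < k ∧ k ^ 2 ∣ n) ⊆
      (Finset.Ioc k₀ N).biUnion (fun k => (Finset.Ioc 0 N).filter (fun n => k ^ 2 ∣ n)) := by
    intro n hn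
    rw [Finset.mem_filter, Finset.mem_Icc] at hn
    obtain ⟨⟨h1, h2⟩, k, h3, h4⟩ := hn
    rw [Finset.mem_biUnion]
    have h5 : k ≤ N := by
      have h6 : k ^ 2 ≤ n := Nat.le_of_dvd h1 h4
      nlinarith
    refine ⟨k, Finset.mem_Ioc.mpr ⟨h3, h5⟩, ?_⟩
    rw [Finset.mem_filter, Finset.mem_Ioc]
    exact ⟨⟨h1, h2⟩, h4⟩
  have h1 : (((Finset.Icc 1 N).filter (fun n => ∃ k : ℕ, k₀ < k ∧ k ^ 2 ∣ n)).card : ℝ) ≤
      ∑ k ∈ Finset.Ioc k₀ N, (N : ℝ) * ((k : ℝ) ^ 2)⁻¹ := by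
    have h2 := (Finset.card_le_card hsub).trans Finset.card_biUnion_le
    have h3 : ∀ k ∈ Finset.Ioc k₀ N,
        (((Finset.Ioc 0 N).filter (fun n => k ^ 2 ∣ n)).card : ℝ) ≤ (N : ℝ) * ((k : ℝ) ^ 2)⁻¹ := by
      intro k _
      rw [Nat.Ioc_filter_dvd_card_eq_div]
      have h4 : ((N / k ^ 2 : ℕ) : ℝ) ≤ (N : ℝ) / ((k ^ 2 : ℕ) : ℝ) := Nat.cast_div_le
      refine h4.trans (le_of_eq ?_)
      rw [div_eq_mul_inv]
      push_cast
      rfl
    calc (((Finset.Icc 1 N).filter (fun n => ∃ k : ℕ, k₀ < k ∧ k ^ 2 ∣ n)).card : ℝ)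
        ≤ ((∑ k ∈ Finset.Ioc k₀ N, ((Finset.Ioc 0 N).filter (fun n => k ^ 2 ∣ n)).card : ℕ) : ℝ) := by
          exact_mod_cast h2
      _ = ∑ k ∈ Finset.Ioc k₀ N, (((Finset.Ioc 0 N).filter (fun n => k ^ 2 ∣ n)).card : ℝ) := by
          push_cast
          rfl
      _ ≤ _ := Finset.sum_le_sum h3
  refine h1.trans ?_
  rw [← Finset.mul_sum, div_eq_mul_inv]
  refine mul_le_mul_of_nonneg_left ?_ (Nat.cast_nonneg N)
  rcases Nat.lt_or_ge N k₀ with h | h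
  · rw [Finset.Ioc_eq_empty (by omega), Finset.sum_empty]
    positivity
  · refine (sum_Ioc_inv_sq_le_sub (by omega) h).trans ?_
    have : (0 : ℝ) ≤ (N : ℝ)⁻¹ := by positivity
    linarith

theorem t4c_sum (k₀ : ℕ) : ∑ k ∈ Finset.Icc 1 k₀, ((k : ℝ) ^ 2)⁻¹ ≤ 2 := by
  rcases Nat.eq_zero_or_pos k₀ with h | h
  · rw [h]
    simp
  · have h1 : Finset.Icc 1 k₀ = insert 1 (Finset.Ioc 1 k₀) := by
      ext k
      rw [Finset.mem_insert, Finset.mem_Icc, Finset.mem_Ioc]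
      omega
    rw [h1, Finset.sum_insert (by simp)]
    have h2 := sum_Ioc_inv_sq_le_sub (α := ℝ) (k := 1) (n := k₀) (by norm_num) h
    have h3 : (0 : ℝ) ≤ (k₀ : ℝ)⁻¹ := by positivity
    norm_num at h2 ⊢
    linarith

/-- the inequality for the parameter -/
theorem t4c_ineq {x : ℝ} (hx : (10 : ℝ) ^ 90 ≤ x) :
    1 + Real.log (1 + x) / 30 + x ^ (1 / 10 : ℝ) ≤ 1 / 2 * x ^ (1 / 9 : ℝ) := by
  have hx0 : (0 : ℝ) < x := lt_of_lt_of_le (by positivity) hx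
  obtain ⟨u, hu⟩ : ∃ u, u = x ^ (1 / 90 : ℝ) := ⟨_, rfl⟩
  have hu10 : 10 ≤ u := by
    rw [hu]
    calc (10 : ℝ) = ((10 : ℝ) ^ 90) ^ (1 / 90 : ℝ) := by
          rw [← Real.rpow_natCast, ← Real.rpow_mul (by norm_num)]
          norm_num
      _ ≤ x ^ (1 / 90 : ℝ) := Real.rpow_le_rpow (by positivity) hx (by norm_num)
  have h1 : x ^ (1 / 9 : ℝ) = u ^ 10 := by
    rw [hu, ← Real.rpow_natCast, ← Real.rpow_mul hx0.le]
    norm_num
  have h2 : x ^ (1 / 10 : ℝ) = u ^ 9 := by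
    rw [hu, ← Real.rpow_natCast, ← Real.rpow_mul hx0.le]
    norm_num
  have h3 : x = u ^ 90 := by
    rw [hu, ← Real.rpow_natCast, ← Real.rpow_mul hx0.le]
    norm_num
  have hu0 : 0 < u := by linarith
  have hx1 : (1 : ℝ) ≤ x := le_trans (one_le_pow₀ (by norm_num)) hx
  have h4 : Real.log (1 + x) ≤ 90 * u := by
    have h5 : Real.log (1 + x) ≤ Real.log (2 * x) := Real.log_le_log (by linarith) (by linarith)
    have h6 : Real.log (2 * x) = Real.log 2 + 90 * Real.log u := by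
      rw [Real.log_mul (by norm_num) hx0.ne', h3, Real.log_pow]
      norm_num
    have h7 : Real.log u ≤ u - 1 := Real.log_le_sub_one_of_pos hu0
    have h8 := Real.log_two_lt_d9
    linarith
  have h9 : u ≤ u ^ 9 := by
    calc u = u ^ 1 := (pow_one u).symm
      _ ≤ u ^ 9 := pow_le_pow_right₀ (by linarith) (by norm_num)
  have h10 : 10 * u ^ 9 ≤ u ^ 10 := by
    calc 10 * u ^ 9 ≤ u * u ^ 9 := mul_le_mul_of_nonneg_right hu10 (by positivity)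
      _ = u ^ 10 := by ring
  rw [h1, h2]
  linarith

/-- Row T4c. All numbers. `n = k² n₁`, `n₁` squarefree (`Nat.sq_mul_squarefree`). `k > k₀`: at most
`N/k₀` numbers, `k₀ = ⌊(1 + log N)^(1/60)⌋`. For `k ≤ k₀`: `f₁ = f / gcd (f, k²)` divides `n₁`
(`f ∣ k² n₁`), `f₁ ≥ f/k²`, `f₁ ≤ f`; put `N₁ = N / k²` (`n₁ ≤ N₁`, `N ≤ 2 k² N₁`) and `Q₁ = 2 k₀² Q`: then
`N₁ ≤ N ≤ f² Q² ≤ f₁² k⁴ Q² ≤ f₁² Q₁²` and `f₁² ≤ f² ≤ N Q² ≤ 2 k² N₁ Q² ≤ N₁ Q₁²`; `log Q₁ ≤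
(log N₁)^(1/9)` for large `N`. Sum of `mt_sqf` over `k ≤ k₀`: `∑_k C (N/k²) exp (-(1/60) LL N₁)`,
`LL N₁ ≥ LL N - 1`. -/
theorem mt : ∃ C : ℝ, 0 < C ∧ ∃ N₀ : ℕ, ∀ N Q : ℕ, N₀ ≤ N → 1 ≤ Q →
    Real.log Q ≤ (Real.log N) ^ (1 / 10 : ℝ) → ∀ S : Finset ℕ,
    (∀ n ∈ S, 1 ≤ n ∧ n ≤ N ∧ ∃ f : ℕ, f ∣ n ∧ N ≤ f ^ 2 * Q ^ 2 ∧ f ^ 2 ≤ N * Q ^ 2) →
    (S.card : ℝ) ≤ C * N * Real.exp (- (1 / 60) * LL N) := by
  classical
  obtain ⟨C, hC, N₀, hmt⟩ := mt_sqf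
  refine ⟨2 + 4 * C, by positivity, ⌈Real.exp ((10 : ℝ) ^ 90)⌉₊ + N₀ ^ 2 + 1, ?_⟩
  intro N Q hN hQ hlQ S hS
  have hNe : Real.exp ((10 : ℝ) ^ 90) ≤ N := by
    have h1 : (⌈Real.exp ((10 : ℝ) ^ 90)⌉₊ : ℝ) ≤ N := Nat.cast_le.mpr (by omega)
    exact (Nat.le_ceil _).trans h1
  have hN2 : N₀ ^ 2 ≤ N := by omega
  have hN1 : 1 ≤ N := by omega
  have hNr : (1 : ℝ) ≤ N := by exact_mod_cast hN1
  obtain ⟨x, hx⟩ : ∃ x, x = Real.log N := ⟨_, rfl⟩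
  have hx10 : (10 : ℝ) ^ 90 ≤ x := by
    rw [hx, Real.le_log_iff_exp_le (by linarith)]
    exact hNe
  have hx3 : (3 : ℝ) ≤ x := le_trans (by norm_num) hx10
  have hineq := t4c_ineq hx10
  have hLL : LL N = Real.log (1 + x) := by rw [LL, hx]
  have hLLx : LL N ≤ x := by
    rw [hLL]
    have := Real.log_le_sub_one_of_pos (show 0 < 1 + x by linarith)
    linarith
  have hLL0 : 0 ≤ LL N := by
    rw [hLL]
    exact Real.log_nonneg (by linarith)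
  obtain ⟨E, hE⟩ : ∃ E, E = Real.exp (LL N / 60) := ⟨_, rfl⟩
  have hE1 : 1 ≤ E := by
    rw [hE]
    exact Real.one_le_exp (by positivity)
  obtain ⟨k₀, hk₀⟩ : ∃ k₀, k₀ = ⌊E⌋₊ := ⟨_, rfl⟩
  have hk1 : 1 ≤ k₀ := by
    rw [hk₀, Nat.one_le_floor_iff]
    exact hE1
  have hkE : (k₀ : ℝ) ≤ E := by
    rw [hk₀]
    exact Nat.floor_le (by linarith)
  have hEk : E ≤ 2 * k₀ := by
    have h1 : E < k₀ + 1 := by
      rw [hk₀]
      exact Nat.lt_floor_add_one E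
    have h2 : (1 : ℝ) ≤ k₀ := by exact_mod_cast hk1
    linarith
  have hk0r : (0 : ℝ) < k₀ := by exact_mod_cast hk1
  have hlk : ∀ k : ℕ, 1 ≤ k → k ≤ k₀ → Real.log k ≤ LL N / 60 := by
    intro k h1 h2
    have h3 : (k : ℝ) ≤ E := le_trans (by exact_mod_cast h2) hkE
    have h4 : (0 : ℝ) < k := by exact_mod_cast h1
    calc Real.log k ≤ Real.log E := Real.log_le_log h4 h3
      _ = LL N / 60 := by rw [hE, Real.log_exp]
  -- the parameter for the squarefree parts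
  have hpar : ∀ k : ℕ, 1 ≤ k → k ≤ k₀ → 1 ≤ N / k ^ 2 ∧ N ≤ 2 * k ^ 2 * (N / k ^ 2) ∧
      x / 2 ≤ Real.log ((N / k ^ 2 : ℕ) : ℝ) := by
    intro k h1 h2
    have hkr : (0 : ℝ) < k := by exact_mod_cast h1
    have h3 := hlk k h1 h2
    have h4 : Real.log ((k : ℝ) ^ 2) ≤ LL N / 30 := by
      rw [Real.log_pow]
      push_cast
      linarith
    have h5 : 1 ≤ N / k ^ 2 := by
      rw [Nat.one_le_div_iff (by positivity)]
      have h6 : Real.log ((k : ℝ) ^ 2) ≤ Real.log N := by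
        rw [← hx]
        linarith
      have h7 : (k : ℝ) ^ 2 ≤ N := (Real.log_le_log_iff (by positivity) (by linarith)).mp h6
      exact_mod_cast h7
    have h6 : N ≤ 2 * k ^ 2 * (N / k ^ 2) := by
      have h7 := Nat.lt_mul_div_succ N (show 0 < k ^ 2 by positivity)
      calc N ≤ k ^ 2 * (N / k ^ 2 + 1) := h7.le
        _ ≤ k ^ 2 * (N / k ^ 2 + N / k ^ 2) := Nat.mul_le_mul_left _ (by omega)
        _ = 2 * k ^ 2 * (N / k ^ 2) := by ring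
    refine ⟨h5, h6, ?_⟩
    have h7 : (N : ℝ) ≤ 2 * (k : ℝ) ^ 2 * ((N / k ^ 2 : ℕ) : ℝ) := by exact_mod_cast h6
    have h8 : (0 : ℝ) < ((N / k ^ 2 : ℕ) : ℝ) := by exact_mod_cast h5
    have h9 := Real.log_le_log (by linarith) h7
    rw [Real.log_mul (by positivity) h8.ne', Real.log_mul (by norm_num) (by positivity), ← hx] at h9
    have h10 := Real.log_two_lt_d9
    linarith
  obtain ⟨Q₁, hQ₁⟩ : ∃ Q₁, Q₁ = 2 * k₀ ^ 2 * Q := ⟨_, rfl⟩
  have hQ1 : 1 ≤ Q₁ := by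
    rw [hQ₁]
    have : 0 < 2 * k₀ ^ 2 * Q := by positivity
    omega
  have hlQ1 : Real.log Q₁ ≤ 1 + LL N / 30 + x ^ (1 / 10 : ℝ) := by
    have hQr : (0 : ℝ) < Q := by exact_mod_cast hQ
    rw [hQ₁]
    push_cast
    rw [Real.log_mul (by positivity) hQr.ne', Real.log_mul (by norm_num) (by positivity),
      Real.log_pow]
    have h1 := hlk k₀ hk1 le_rfl
    have h2 := Real.log_two_lt_d9
    rw [hx]
    push_cast
    linarith
  -- the sets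
  let T : ℕ → Finset ℕ := fun k =>
    (Finset.Icc 1 N).filter (fun m => Squarefree m ∧ k ^ 2 * m ∈ S)
  have hT : ∀ k ∈ Finset.Icc 1 k₀, ((T k).card : ℝ) ≤
      (2 * C * N * Real.exp (-(1 / 60) * LL N)) * ((k : ℝ) ^ 2)⁻¹ := by
    intro k hk
    rw [Finset.mem_Icc] at hk
    obtain ⟨h5, h6, h7⟩ := hpar k hk.1 hk.2
    have hkr : (0 : ℝ) < k := by exact_mod_cast hk.1
    have hN0 : N₀ ≤ N / k ^ 2 := by
      rcases Nat.eq_zero_or_pos N₀ with h | h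
      · omega
      · have h8 : (0 : ℝ) < N₀ := by exact_mod_cast h
        have h9 : 2 * Real.log N₀ ≤ x := by
          have h10 : ((N₀ : ℝ)) ^ 2 ≤ N := by exact_mod_cast hN2
          have h11 := Real.log_le_log (by positivity) h10
          rw [Real.log_pow, ← hx] at h11
          exact_mod_cast h11
        have h10 : Real.log N₀ ≤ Real.log ((N / k ^ 2 : ℕ) : ℝ) := by linarith
        have h11 : (N₀ : ℝ) ≤ ((N / k ^ 2 : ℕ) : ℝ) :=
          (Real.log_le_log_iff h8 (by exact_mod_cast h5)).mp h10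
        exact_mod_cast h11
    have hl : Real.log Q₁ ≤ (Real.log ((N / k ^ 2 : ℕ) : ℝ)) ^ (1 / 9 : ℝ) := by
      have h8 : (x / 2) ^ (1 / 9 : ℝ) ≤ (Real.log ((N / k ^ 2 : ℕ) : ℝ)) ^ (1 / 9 : ℝ) :=
        Real.rpow_le_rpow (by linarith) h7 (by norm_num)
      have h9 : 1 / 2 * x ^ (1 / 9 : ℝ) ≤ (x / 2) ^ (1 / 9 : ℝ) := by
        rw [div_eq_mul_inv x 2, Real.mul_rpow (by linarith) (by norm_num), mul_comm]
        refine mul_le_mul_of_nonneg_left ?_ (Real.rpow_nonneg (by linarith) _)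
        have h10 : (2⁻¹ : ℝ) ^ (1 : ℝ) ≤ (2⁻¹ : ℝ) ^ (1 / 9 : ℝ) :=
          Real.rpow_le_rpow_of_exponent_ge (by norm_num) (by norm_num) (by norm_num)
        rw [Real.rpow_one] at h10
        linarith
      rw [hLL] at hlQ1
      linarith
    have hm := hmt (N / k ^ 2) Q₁ hN0 hQ1 hl (T k) (by
      intro m hm
      rw [Finset.mem_filter, Finset.mem_Icc] at hm
      obtain ⟨⟨hm1, -⟩, hm2, hm3⟩ := hm
      obtain ⟨-, hs2, f, hf1, hf2, hf3⟩ := hS _ hm3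
      have hmN : m ≤ N / k ^ 2 := by
        rw [Nat.le_div_iff_mul_le (pow_pos hk.1 2), mul_comm]
        exact hs2
      have hpos : 0 < k ^ 2 * m := Nat.mul_pos (pow_pos hk.1 2) hm1
      have hf0 : 0 < f := Nat.pos_of_dvd_of_pos hf1 hpos
      obtain ⟨g, hg⟩ : ∃ g, g = Nat.gcd f (k ^ 2) := ⟨_, rfl⟩
      have hg0 : 0 < g := by
        rw [hg]
        exact Nat.gcd_pos_of_pos_left _ hf0
      have hgf : g ∣ f := by rw [hg]; exact Nat.gcd_dvd_left _ _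
      have hgk : g ∣ k ^ 2 := by rw [hg]; exact Nat.gcd_dvd_right _ _
      have hgle : g ≤ k ^ 2 := Nat.le_of_dvd (pow_pos hk.1 2) hgk
      obtain ⟨f₁, hf₁⟩ := hgf
      obtain ⟨c, hc⟩ := hgk
      have hcop : f₁.Coprime c := by
        have h1 : Nat.gcd (g * f₁) (g * c) = g := by rw [← hf₁, ← hc]; exact hg.symm
        rw [Nat.gcd_mul_left] at h1
        have h2 : g * Nat.gcd f₁ c = g * 1 := by rw [h1, mul_one]
        exact Nat.eq_of_mul_eq_mul_left hg0 h2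
      have hdvd : f₁ ∣ m := by
        have h1 : g * f₁ ∣ g * (c * m) := by
          rw [← hf₁, ← mul_assoc, ← hc]
          exact hf1
        have h2 : f₁ ∣ c * m := Nat.dvd_of_mul_dvd_mul_left hg0 h1
        exact hcop.dvd_of_dvd_mul_left h2
      refine ⟨hm1, hmN, hm2, f₁, hdvd, ?_, ?_⟩
      · have h1 : f ≤ k₀ ^ 2 * f₁ := by
          rw [hf₁]
          refine Nat.mul_le_mul_right _ (hgle.trans ?_)
          exact Nat.pow_le_pow_left hk.2 2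
        calc N / k ^ 2 ≤ N := Nat.div_le_self _ _
          _ ≤ f ^ 2 * Q ^ 2 := hf2
          _ ≤ (k₀ ^ 2 * f₁) ^ 2 * Q ^ 2 := Nat.mul_le_mul_right _ (Nat.pow_le_pow_left h1 2)
          _ ≤ 4 * ((k₀ ^ 2 * f₁) ^ 2 * Q ^ 2) := by omega
          _ = f₁ ^ 2 * Q₁ ^ 2 := by rw [hQ₁]; ring
      · have h1 : f₁ ≤ f := by
          rw [hf₁]
          exact Nat.le_mul_of_pos_left _ hg0
        have h2 : k ^ 2 ≤ k₀ ^ 2 := Nat.pow_le_pow_left hk.2 2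
        calc f₁ ^ 2 ≤ f ^ 2 := Nat.pow_le_pow_left h1 2
          _ ≤ N * Q ^ 2 := hf3
          _ ≤ (2 * k ^ 2 * (N / k ^ 2)) * Q ^ 2 := Nat.mul_le_mul_right _ h6
          _ ≤ (2 * k₀ ^ 2 * (N / k ^ 2)) * Q ^ 2 := by gcongr
          _ ≤ (2 * k₀ ^ 2 * (N / k ^ 2)) * Q ^ 2 * (2 * k₀ ^ 2) := by
              refine Nat.le_mul_of_pos_right _ (by positivity)
          _ = (N / k ^ 2) * Q₁ ^ 2 := by rw [hQ₁]; ring)
    refine hm.trans ?_
    have h8 : ((N / k ^ 2 : ℕ) : ℝ) ≤ N * ((k : ℝ) ^ 2)⁻¹ := by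
      have h9 : ((N / k ^ 2 : ℕ) : ℝ) ≤ (N : ℝ) / ((k ^ 2 : ℕ) : ℝ) := Nat.cast_div_le
      refine h9.trans (le_of_eq ?_)
      rw [div_eq_mul_inv]
      push_cast
      rfl
    have h9 : LL N ≤ Real.log 2 + LL (N / k ^ 2) := by
      rw [LL, LL, ← Real.log_mul (by norm_num) (by linarith), ← hx]
      apply Real.log_le_log (by linarith)
      linarith
    have h10 : Real.exp (-(1 / 60) * LL (N / k ^ 2)) ≤ 2 * Real.exp (-(1 / 60) * LL N) := by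
      have hl2 : 0 < Real.log 2 := Real.log_pos (by norm_num)
      calc Real.exp (-(1 / 60) * LL (N / k ^ 2))
          ≤ Real.exp (Real.log 2 + -(1 / 60) * LL N) := by
            apply Real.exp_le_exp.mpr
            linarith
        _ = 2 * Real.exp (-(1 / 60) * LL N) := by
            rw [Real.exp_add, Real.exp_log (by norm_num)]
    calc C * ((N / k ^ 2 : ℕ) : ℝ) * Real.exp (-(1 / 60) * LL (N / k ^ 2))
        ≤ C * (N * ((k : ℝ) ^ 2)⁻¹) * (2 * Real.exp (-(1 / 60) * LL N)) := by gcongr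
      _ = _ := by ring
  have hsub : S ⊆ (Finset.Icc 1 N).filter (fun n => ∃ k : ℕ, k₀ < k ∧ k ^ 2 ∣ n) ∪
      (Finset.Icc 1 k₀).biUnion (fun k => (T k).image (fun m => k ^ 2 * m)) := by
    intro n hn
    obtain ⟨h1, h2, -⟩ := hS n hn
    rw [Finset.mem_union, Finset.mem_filter, Finset.mem_Icc, Finset.mem_biUnion]
    obtain ⟨m, k, hm⟩ := Nat.sq_mul_squarefree n
    obtain ⟨hmk, hmsq⟩ := hm
    have hk0 : k ≠ 0 := by
      rintro rfl
      simp at hmk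
      omega
    have hm0 : m ≠ 0 := hmsq.ne_zero
    rcases Nat.lt_or_ge k₀ k with h | h
    · left
      exact ⟨⟨h1, h2⟩, k, h, ⟨m, hmk.symm⟩⟩
    · right
      refine ⟨k, Finset.mem_Icc.mpr ⟨by omega, h⟩, ?_⟩
      rw [Finset.mem_image]
      refine ⟨m, ?_, hmk⟩
      rw [Finset.mem_filter, Finset.mem_Icc]
      refine ⟨⟨by omega, ?_⟩, hmsq, by rw [hmk]; exact hn⟩
      have h3 : m ≤ k ^ 2 * m := Nat.le_mul_of_pos_left _ (by positivity)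
      omega
  have hcard : (S.card : ℝ) ≤
      (((Finset.Icc 1 N).filter (fun n => ∃ k : ℕ, k₀ < k ∧ k ^ 2 ∣ n)).card : ℝ) +
        ∑ k ∈ Finset.Icc 1 k₀, ((T k).card : ℝ) := by
    have h1 := (Finset.card_le_card hsub).trans (Finset.card_union_le _ _)
    have h2 : ((Finset.Icc 1 k₀).biUnion (fun k => (T k).image (fun m => k ^ 2 * m))).card ≤
        ∑ k ∈ Finset.Icc 1 k₀, (T k).card :=
      Finset.card_biUnion_le.trans (Finset.sum_le_sum fun k _ => Finset.card_image_le)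
    exact_mod_cast h1.trans (Nat.add_le_add_left h2 _)
  refine hcard.trans ?_
  have hA := t4c_large N k₀ hk1
  have hA2 : (N : ℝ) / k₀ ≤ 2 * N * Real.exp (-(1 / 60) * LL N) := by
    have h1 : Real.exp (-(1 / 60) * LL N) = E⁻¹ := by
      rw [hE, ← Real.exp_neg]
      congr 1
      ring
    rw [h1, div_eq_mul_inv]
    have h2 : (k₀ : ℝ)⁻¹ ≤ 2 * E⁻¹ := by
      rw [← div_eq_mul_inv, inv_eq_one_div, div_le_div_iff₀ hk0r (by linarith)]
      linarith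
    calc (N : ℝ) * (k₀ : ℝ)⁻¹ ≤ N * (2 * E⁻¹) := mul_le_mul_of_nonneg_left h2 (by linarith)
      _ = 2 * N * E⁻¹ := by ring
  have hB : ∑ k ∈ Finset.Icc 1 k₀, ((T k).card : ℝ) ≤
      (2 * C * N * Real.exp (-(1 / 60) * LL N)) * 2 := by
    refine (Finset.sum_le_sum hT).trans ?_
    rw [← Finset.mul_sum]
    exact mul_le_mul_of_nonneg_left (t4c_sum k₀) (by positivity)
  calc (((Finset.Icc 1 N).filter (fun n => ∃ k : ℕ, k₀ < k ∧ k ^ 2 ∣ n)).card : ℝ) +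
        ∑ k ∈ Finset.Icc 1 k₀, ((T k).card : ℝ)
      ≤ 2 * N * Real.exp (-(1 / 60) * LL N) + (2 * C * N * Real.exp (-(1 / 60) * LL N)) * 2 :=
        add_le_add (hA.trans hA2) hB
    _ = (2 + 4 * C) * N * Real.exp (-(1 / 60) * LL N) := by ring

end N44
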