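import Pool.Agent.LibN44.T4c

namespace N44

open TwHL

theorem t4d_large : ∃ H₁ : ℕ, 3 ≤ H₁ ∧ ∀ H : ℕ, H₁ ≤ H →
    1 ≤ Real.log H ∧ Real.log 3 + (Real.log H) ^ (1 / 11 : ℝ) ≤ (Real.log H) ^ (1 / 10 : ℝ) := by
  have h1 : Filter.Tendsto (fun L : ℝ => L ^ (1 / 110 : ℝ)) Filter.atTop Filter.atTop :=
    tendsto_rpow_atTop (by norm_num)
  have h2 : Filter.Tendsto (fun H : ℕ => Real.log H) Filter.atTop Filter.atTop :=
    Real.tendsto_log_atTop.comp tendsto_natCast_atTop_atTop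
  have e1 := (h1.comp h2).eventually_ge_atTop (1 + Real.log 3)
  have e2 := h2.eventually_ge_atTop 1
  obtain ⟨H₁, hH₁⟩ := (e1.and e2).exists_forall_of_atTop
  refine ⟨max H₁ 3, le_max_right _ _, fun H hH => ?_⟩
  obtain ⟨a1, a2⟩ := hH₁ H ((le_max_left _ _).trans hH)
  refine ⟨a2, ?_⟩
  have a1' : 1 + Real.log 3 ≤ (Real.log H) ^ (1 / 110 : ℝ) := a1
  have hL : (0 : ℝ) < Real.log H := by linarith
  have e3 : (Real.log H) ^ (1 / 10 : ℝ) = (Real.log H) ^ (1 / 11 : ℝ) * (Real.log H) ^ (1 / 110 : ℝ) := by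
    rw [← Real.rpow_add hL]
    norm_num
  rw [e3]
  have h3 : 1 ≤ (Real.log H) ^ (1 / 11 : ℝ) := Real.one_le_rpow a2 (by norm_num)
  have h4 : 0 ≤ Real.log 3 := Real.log_nonneg (by norm_num)
  nlinarith

/-- counting pairs `(a, b)` by the number `|a² - 4 b|` -/
theorem t4d_card (H : ℕ) (S : Finset (ℤ × ℤ)) (hS : ∀ z ∈ S, |z.1| ≤ (H : ℤ)) :
    S.card ≤ (2 * H + 1) * (2 * (S.image fun z => (z.1 ^ 2 - 4 * z.2).natAbs).card) := by
  classical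
  set T := S.image fun z => (z.1 ^ 2 - 4 * z.2).natAbs with hT
  have h1 : S.card ≤ (Finset.Icc (-(H : ℤ)) H ×ˢ
      (T.image (fun n : ℕ => (n : ℤ)) ∪ T.image (fun n : ℕ => -(n : ℤ)))).card := by
    refine Finset.card_le_card_of_injOn (fun z => (z.1, z.1 ^ 2 - 4 * z.2)) ?_ ?_
    · intro z hz
      have hz' : z ∈ S := hz
      have h2 : (z.1 ^ 2 - 4 * z.2).natAbs ∈ T := by
        rw [hT]
        exact Finset.mem_image_of_mem _ hz'
      simp only [Finset.coe_product, Set.mem_prod, Finset.mem_coe, Finset.mem_Icc, Finset.mem_union,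
        Finset.mem_image]
      refine ⟨abs_le.1 (hS z hz'), ?_⟩
      rcases Int.natAbs_eq (z.1 ^ 2 - 4 * z.2) with h | h
      · exact Or.inl ⟨_, h2, h.symm⟩
      · exact Or.inr ⟨_, h2, h.symm⟩
    · rintro ⟨a, b⟩ _ ⟨a', b'⟩ _ h
      simp only [Prod.mk.injEq] at h
      obtain ⟨rfl, h⟩ := h
      have : b = b' := by linarith
      rw [this]
  refine h1.trans ?_
  rw [Finset.card_product]
  refine Nat.mul_le_mul ?_ ?_
  · rw [Int.card_Icc]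
    omega
  · refine (Finset.card_union_le _ _).trans ?_
    have := Finset.card_image_le (s := T) (f := fun n : ℕ => (n : ℤ))
    have := Finset.card_image_le (s := T) (f := fun n : ℕ => -(n : ℤ))
    omega

/-- Row T4d. `D = a² - 4 b`, `1 ≤ |D| ≤ 5 H² =: N`. `f ∣ |D|` with `H ≤ E |f|`, `|f| ≤ 3 H`: with `Q = 3 E`:
`N ≤ 9 E² f²` and `f² ≤ 9 H² ≤ N Q²`. For given `a` and sign the map `b ↦ |D|` is injective: so
`card ≤ 2 (2 H + 1) · (number of |D|)`, `mt`, `exp (-(1/60) LL N) ≤ (log H)^(-1/60)`. -/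
theorem sect3a : ∃ C : ℝ, 0 < C ∧ ∃ H₀ : ℕ, ∀ H E : ℕ, H₀ ≤ H → 1 ≤ E →
    Real.log E ≤ (Real.log H) ^ (1 / 11 : ℝ) → ∀ S : Finset (ℤ × ℤ),
    (∀ z ∈ S, Box H z ∧ ∃ f : ℤ, f ∣ z.1 ^ 2 - 4 * z.2 ∧ (H : ℤ) ≤ E * |f| ∧ |f| ≤ 3 * (H : ℤ)) →
    (S.card : ℝ) ≤ C * (H : ℝ) ^ 3 / (Real.log H) ^ (1 / 60 : ℝ) := by
  classical
  obtain ⟨C0, hC0, N₀, hmt⟩ := mt
  obtain ⟨H₁, hH₁3, hH₁⟩ := t4d_large
  refine ⟨30 * C0, by positivity, max N₀ H₁, fun H E hH hE hlog S hS => ?_⟩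
  have hHN : N₀ ≤ H := (le_max_left _ _).trans hH
  have hHH : H₁ ≤ H := (le_max_right _ _).trans hH
  have hH3 : 3 ≤ H := hH₁3.trans hHH
  obtain ⟨hL, hlarge⟩ := hH₁ H hHH
  have hHpos : (0 : ℝ) < H := by
    have : 0 < H := by omega
    exact_mod_cast this
  have hHN2 : H ≤ 5 * H ^ 2 := by nlinarith
  have hlogN : Real.log H ≤ Real.log ((5 * H ^ 2 : ℕ) : ℝ) :=
    Real.log_le_log hHpos (by exact_mod_cast hHN2)
  have hL0 : (0 : ℝ) < Real.log H := by linarith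
  -- the numbers `|D|`
  set T := S.image fun z => (z.1 ^ 2 - 4 * z.2).natAbs with hT
  have hTcard : (T.card : ℝ) ≤ C0 * (5 * H ^ 2 : ℕ) * Real.exp (- (1 / 60) * LL (5 * H ^ 2 : ℕ)) := by
    refine hmt (5 * H ^ 2) (3 * E) (hHN.trans hHN2) (by omega) ?_ T ?_
    · have hE0 : (E : ℝ) ≠ 0 := by
        have : E ≠ 0 := by omega
        exact_mod_cast this
      rw [Nat.cast_mul, Nat.cast_ofNat, Real.log_mul (by norm_num) hE0]
      refine le_trans (by linarith) (hlarge.trans ?_)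
      exact Real.rpow_le_rpow hL0.le hlogN (by norm_num)
    · intro n hn
      rw [hT, Finset.mem_image] at hn
      obtain ⟨z, hz, rfl⟩ := hn
      obtain ⟨⟨b1, b2, b3, b4⟩, f, hf, f1, f2⟩ := hS z hz
      have c1 : z.1 ^ 2 ≤ (H : ℤ) ^ 2 := by
        have := abs_le.1 b1
        nlinarith
      have c1' : 0 ≤ z.1 ^ 2 := sq_nonneg _
      have c2 := abs_le.1 b2
      refine ⟨Nat.one_le_iff_ne_zero.2 (Int.natAbs_ne_zero.2 b4), ?_, f.natAbs,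
        Int.natAbs_dvd_natAbs.2 hf, ?_, ?_⟩
      · have h5 : |z.1 ^ 2 - 4 * z.2| ≤ 5 * (H : ℤ) ^ 2 := by
          rw [abs_le]
          constructor <;> linarith [c2.1, c2.2]
        have : ((z.1 ^ 2 - 4 * z.2).natAbs : ℤ) ≤ 5 * (H : ℤ) ^ 2 := by
          rw [Int.natCast_natAbs]
          exact h5
        exact_mod_cast this
      · have h6 : (H : ℤ) ^ 2 ≤ (E * |f|) ^ 2 := by
          have : (0 : ℤ) ≤ H := Int.natCast_nonneg _
          gcongr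
        have h7 : (5 : ℤ) * (H : ℤ) ^ 2 ≤ |f| ^ 2 * (3 * (E : ℤ)) ^ 2 := by nlinarith
        have h8 : (((5 * H ^ 2 : ℕ) : ℤ)) ≤ (((f.natAbs) ^ 2 * (3 * E) ^ 2 : ℕ) : ℤ) := by
          push_cast
          exact h7
        exact_mod_cast h8
      · have h6 : |f| ^ 2 ≤ (3 * (H : ℤ)) ^ 2 := by
          have : (0 : ℤ) ≤ |f| := abs_nonneg _
          gcongr
        have hE1 : (1 : ℤ) ≤ (E : ℤ) ^ 2 := by
          have : (1 : ℤ) ≤ (E : ℤ) := by exact_mod_cast hE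
          nlinarith
        have h7 : |f| ^ 2 ≤ 5 * (H : ℤ) ^ 2 * (3 * (E : ℤ)) ^ 2 := by nlinarith [sq_nonneg (H : ℤ)]
        have h8 : ((((f.natAbs) ^ 2 : ℕ)) : ℤ) ≤ ((5 * H ^ 2 * (3 * E) ^ 2 : ℕ) : ℤ) := by
          push_cast
          exact h7
        exact_mod_cast h8
  have hexp : Real.exp (- (1 / 60) * LL (5 * H ^ 2 : ℕ)) ≤ 1 / (Real.log H) ^ (1 / 60 : ℝ) := by
    have h9 : Real.log (Real.log H) ≤ LL (5 * H ^ 2 : ℕ) := by
      unfold LL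
      exact Real.log_le_log hL0 (by linarith)
    have h12 : 1 / (Real.log H) ^ (1 / 60 : ℝ) =
        Real.exp (-(Real.log (Real.log H) * (1 / 60 : ℝ))) := by
      rw [Real.rpow_def_of_pos hL0, Real.exp_neg]
      exact one_div _
    rw [h12]
    apply Real.exp_le_exp.2
    linarith
  have hcard := t4d_card H S fun z hz => (hS z hz).1.1
  have hcard' : (S.card : ℝ) ≤ (2 * H + 1) * (2 * T.card) := by exact_mod_cast hcard
  have hpow : 0 < (Real.log H) ^ (1 / 60 : ℝ) := Real.rpow_pos_of_pos hL0 _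
  have h10 : (T.card : ℝ) ≤ C0 * (5 * (H : ℝ) ^ 2) * (1 / (Real.log H) ^ (1 / 60 : ℝ)) := by
    refine hTcard.trans ?_
    have : (((5 * H ^ 2 : ℕ)) : ℝ) = 5 * (H : ℝ) ^ 2 := by push_cast; ring
    rw [this]
    gcongr
  have h11 : (2 * (H : ℝ) + 1) ≤ 3 * H := by
    have : (1 : ℝ) ≤ H := by
      have : 1 ≤ H := by omega
      exact_mod_cast this
    linarith
  calc (S.card : ℝ) ≤ (2 * H + 1) * (2 * T.card) := hcard'
    _ ≤ (3 * H) * (2 * (C0 * (5 * (H : ℝ) ^ 2) * (1 / (Real.log H) ^ (1 / 60 : ℝ)))) := by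
        gcongr
    _ = 30 * C0 * (H : ℝ) ^ 3 / (Real.log H) ^ (1 / 60 : ℝ) := by ring

end N44
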