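import Pool.Agent.LibN44.S2c
import Pool.Agent.LibN44.S2d

namespace N44

open TwHL

theorem t5_z (k : ℕ) (hk : 1 ≤ k) : ∃ H₀ : ℕ, 1 ≤ H₀ ∧ ∀ H w : ℕ, H₀ ≤ H →
    (w : ℝ) ≤ 2 * Real.log H + 4 →
    ∃ z : ℕ, 2 ≤ z ∧ w ≤ z ∧ z ^ k ≤ H ∧ LL H - Real.log (2 * k) ≤ LL z := by
  have hkR : (0 : ℝ) < k := by exact_mod_cast hk
  have hk1 : (1 : ℝ) ≤ k := by exact_mod_cast hk
  have hr : (0 : ℝ) < 1 / (2 * (k : ℝ)) := by positivity
  have h1 := (isLittleO_log_rpow_atTop hr).bound (show (0 : ℝ) < 1 / 4 by norm_num)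
  have h2 := (tendsto_rpow_atTop hr).eventually_ge_atTop 8
  have h3 : ∀ᶠ x : ℝ in Filter.atTop, 2 * Real.log x + 4 ≤ x ^ (1 / (2 * (k : ℝ))) ∧
      8 ≤ x ^ (1 / (2 * (k : ℝ))) ∧ 1 ≤ x := by
    filter_upwards [h1, h2, Filter.eventually_ge_atTop 1] with x hx1 hx2 hx3
    refine ⟨?_, hx2, hx3⟩
    rw [Real.norm_eq_abs, Real.norm_eq_abs, abs_of_nonneg (Real.rpow_nonneg (by linarith) _)] at hx1
    have := le_abs_self (Real.log x)
    linarith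
  obtain ⟨x0, hx0⟩ := Filter.eventually_atTop.mp h3
  refine ⟨⌈x0⌉₊ + 1, by omega, fun H w hH hw => ?_⟩
  have hHx : x0 ≤ (H : ℝ) :=
    le_trans (Nat.le_ceil x0) (by exact_mod_cast (by omega : ⌈x0⌉₊ ≤ H))
  obtain ⟨g1, g2, g3⟩ := hx0 H hHx
  set y : ℝ := (H : ℝ) ^ (1 / (2 * (k : ℝ))) with hy
  have hH0 : (0 : ℝ) < H := by linarith
  have hy2 : (H : ℝ) ^ (1 / (k : ℝ)) = y ^ 2 := by
    rw [hy, ← Real.rpow_natCast, ← Real.rpow_mul hH0.le]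
    congr 1
    push_cast
    field_simp
  have hyk : (y ^ 2) ^ k = H := by
    rw [← hy2, ← Real.rpow_natCast, ← Real.rpow_mul hH0.le, one_div,
      inv_mul_cancel₀ hkR.ne', Real.rpow_one]
  have hy0 : (0 : ℝ) < y := by linarith
  have hfl : y ≤ (⌊y ^ 2⌋₊ : ℝ) := by
    have := Nat.lt_floor_add_one (y ^ 2)
    nlinarith
  refine ⟨⌊y ^ 2⌋₊, ?_, ?_, ?_, ?_⟩
  · have : (2 : ℝ) ≤ (⌊y ^ 2⌋₊ : ℝ) := by linarith
    exact_mod_cast this
  · have : (w : ℝ) ≤ (⌊y ^ 2⌋₊ : ℝ) := by linarith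
    exact_mod_cast this
  · have h4 : ((⌊y ^ 2⌋₊ : ℝ)) ^ k ≤ (y ^ 2) ^ k :=
      pow_le_pow_left₀ (Nat.cast_nonneg _) (Nat.floor_le (by positivity)) k
    rw [hyk] at h4
    exact_mod_cast h4
  · have hlogH : 0 ≤ Real.log H := Real.log_nonneg g3
    have hlogy : Real.log y = Real.log H / (2 * k) := by
      rw [hy, Real.log_rpow hH0]
      ring
    have h5 : Real.log y ≤ Real.log (⌊y ^ 2⌋₊ : ℝ) := Real.log_le_log hy0 hfl
    have h6 : (1 + Real.log H) / (2 * k) ≤ 1 + Real.log (⌊y ^ 2⌋₊ : ℝ) := by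
      rw [hlogy] at h5
      have h7 : (1 : ℝ) / (2 * k) ≤ 1 := by
        rw [div_le_one (by positivity)]
        linarith
      rw [add_div]
      linarith
    unfold LL
    rw [← Real.log_div (by positivity) (by positivity)]
    exact Real.log_le_log (by positivity) h6

/-- Row T5 (section 5.5, one `f`). `f ∣ a² - 4 b`, and `(f/p) = 1` for every prime `p > w`, `p ∣ b`, `p ∤ f`.
Fix `a` (`2H+1` values). The `b` with `f ∣ a² - 4b` lie in at most `4` classes mod `|f|` (two solutions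
`b, b'` satisfy `f ∣ 4 (b - b')`). For each class `t` apply `sieve_ap` with `δ = |f|`, `A = -H²`,
`M = 2 H² / |f| + 1` (natural division; `M ≥ H`), `Q` = primes `w < p ≤ z`, `p ∤ f`, `(f/p) = -1`,
`Ω p = {0}`, `z = ⌊H^(1/k)⌋` (`LL z ≥ LL H - log (2k)`), and `chi_minus`. `M ≤ 3 H²/|f|`. -/
theorem sect3b_f : ∃ C : ℝ, 0 < C ∧ ∃ H₀ : ℕ, ∀ H w : ℕ, H₀ ≤ H → 4 ≤ w → Real.log H ≤ w →
    (w : ℝ) ≤ 2 * Real.log H + 4 → ∀ f : ℤ, ¬ IsSquare f → f.natAbs ≤ H → ∀ S : Finset (ℤ × ℤ),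
    (∀ z ∈ S, Box H z ∧ f ∣ z.1 ^ 2 - 4 * z.2 ∧ ∀ p : ℕ, p.Prime → w < p →
      (p : ℤ) ∣ z.2 → ¬ (p : ℤ) ∣ f → jacobiSym f p = 1) →
    (S.card : ℝ) ≤ C * ((H : ℝ) ^ 3 / f.natAbs) *
      Real.exp (- (1 / 2) * LL H + LL w + 1 / 2 * LL f.natAbs) := by
  classical
  obtain ⟨k, hk, hsieve⟩ := sieve_ap
  obtain ⟨C1, hC1, hchi⟩ := chi_minus
  obtain ⟨H₀, hH₀, hz⟩ := t5_z k hk
  refine ⟨648 * Real.exp (1 / 2 * Real.log (2 * k) + C1), by positivity, H₀, ?_⟩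
  intro H w hH hw4 hlw hwl f hf hfH S hS
  obtain ⟨z, hz2, hwz, hzk, hLL⟩ := hz H w hH hwl
  have hf0 : f ≠ 0 := by
    rintro rfl
    exact hf ⟨0, by simp⟩
  set δ := f.natAbs with hδ
  have hδ0 : 0 < δ := Int.natAbs_pos.mpr hf0
  have hH1 : 1 ≤ H := le_trans hH₀ hH
  have hδR : (0 : ℝ) < δ := by exact_mod_cast hδ0
  have hδ1R : (1 : ℝ) ≤ δ := by exact_mod_cast hδ0
  have hH1R : (1 : ℝ) ≤ H := by exact_mod_cast hH1
  have hδHR : (δ : ℝ) ≤ H := by exact_mod_cast hfH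
  obtain ⟨M, hM⟩ : ∃ M : ℕ, M = 2 * H ^ 2 / δ + 1 := ⟨_, rfl⟩
  have hHM : H ≤ M := by
    have h1 : H ≤ 2 * H ^ 2 / δ := by
      rw [Nat.le_div_iff_mul_le hδ0]
      nlinarith
    omega
  have hMlt : 2 * H ^ 2 < δ * M := by
    have h1 := Nat.lt_mul_div_succ (2 * H ^ 2) hδ0
    rw [hM]
    exact h1
  have hMR : (M : ℝ) ≤ 3 * (H : ℝ) ^ 2 / δ := by
    have h1 : ((2 * H ^ 2 / δ : ℕ) : ℝ) ≤ 2 * (H : ℝ) ^ 2 / δ := by
      have := Nat.cast_div_le (α := ℝ) (m := 2 * H ^ 2) (n := δ)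
      push_cast at this
      exact this
    have h2 : (1 : ℝ) ≤ (H : ℝ) ^ 2 / δ := by
      rw [le_div_iff₀ hδR]
      nlinarith
    rw [hM]
    push_cast
    have h3 : 3 * (H : ℝ) ^ 2 / δ = 2 * (H : ℝ) ^ 2 / δ + (H : ℝ) ^ 2 / δ := by ring
    rw [h3]
    linarith
  set Q : Finset ℕ := (PP z).filter (fun p => w < p ∧ ¬ (p : ℤ) ∣ f ∧ jacobiSym f p = -1) with hQ
  have hlf : Real.log (δ : ℝ) ≤ w := le_trans (Real.log_le_log hδR hδHR) hlw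
  have hsum := hchi f hf w z (by omega) hwz hlf
  rw [← hQ] at hsum
  have hQp : ∀ p ∈ Q, p.Prime ∧ 4 ≤ p ∧ p ≤ z ∧ ¬ p ∣ δ ∧ (({0} : Finset ℕ)).card ≤ 2 ∧
      ∀ h ∈ ({0} : Finset ℕ), h < p := by
    intro p hp
    rw [hQ, Finset.mem_filter, PP, Finset.mem_filter, Finset.mem_Icc] at hp
    obtain ⟨⟨⟨hp1, hp2⟩, hp3⟩, hp4, hp5, hp6⟩ := hp
    refine ⟨hp3, by omega, hp2, ?_, by simp, ?_⟩
    · intro h1
      exact hp5 (Int.natCast_dvd.mpr h1)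
    · intro h hh
      rw [Finset.mem_singleton] at hh
      omega
  have hfib : ∀ b : ℤ × ℤ,
      ((S.filter (fun x => (x.1, ((x.1 ^ 2 - 4 * x.2) / f) % 4) = b)).card : ℝ) ≤
        18 * M * Real.exp (- ∑ p ∈ Q, 1 / (p : ℝ)) := by
    intro b
    obtain ⟨T, hT⟩ : ∃ T, T = S.filter (fun x => (x.1, ((x.1 ^ 2 - 4 * x.2) / f) % 4) = b) :=
      ⟨_, rfl⟩
    rw [← hT]
    have hTm : ∀ x ∈ T, x ∈ S ∧ x.1 = b.1 ∧ ((x.1 ^ 2 - 4 * x.2) / f) % 4 = b.2 := by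
      intro x hx
      rw [hT, Finset.mem_filter] at hx
      obtain ⟨hx1, hx2⟩ := hx
      exact ⟨hx1, by rw [← hx2], by rw [← hx2]⟩
    rcases T.eq_empty_or_nonempty with h | ⟨x0, hx0⟩
    · rw [h, Finset.card_empty]
      push_cast
      positivity
    have hinj : Set.InjOn Prod.snd (T : Set (ℤ × ℤ)) := by
      intro x hx y hy hxy
      exact Prod.ext ((hTm x hx).2.1.trans (hTm y hy).2.1.symm) hxy
    rw [← Finset.card_image_of_injOn hinj]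
    have hmain := hsieve M z δ (-(H : ℤ) ^ 2) x0.2 Q (fun _ => {0}) hz2 (hzk.trans hHM) hδ0 hQp
      (T.image Prod.snd) ?_
    · simpa using hmain
    intro n hn
    rw [Finset.mem_image] at hn
    obtain ⟨x, hx, rfl⟩ := hn
    obtain ⟨hxS, hx1, hx2⟩ := hTm x hx
    obtain ⟨hx0S, hx01, hx02⟩ := hTm x0 hx0
    obtain ⟨⟨hb1, hb2, hb3, -⟩, hfd, hp⟩ := hS x hxS
    obtain ⟨-, hfd0, -⟩ := hS x0 hx0S
    obtain ⟨hl, hu⟩ := abs_le.mp hb2
    refine ⟨hl, ?_, ?_, ?_⟩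
    · have h1 : (2 * H ^ 2 : ℤ) < δ * M := by exact_mod_cast hMlt
      linarith
    · obtain ⟨q, hq⟩ := hfd
      obtain ⟨q0, hq0⟩ := hfd0
      rw [hq, Int.mul_ediv_cancel_left _ hf0] at hx2
      rw [hq0, Int.mul_ediv_cancel_left _ hf0] at hx02
      have h1 : (4 : ℤ) ∣ q - q0 := by
        apply Int.dvd_of_emod_eq_zero
        omega
      obtain ⟨c, hc⟩ := h1
      have h2 : x0.2 - x.2 = f * c := by
        have h3 : x.1 ^ 2 = x0.1 ^ 2 := by rw [hx1, hx01]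
        have h4 : 4 * (x0.2 - x.2) = 4 * (f * c) := by
          calc 4 * (x0.2 - x.2) = (x.1 ^ 2 - 4 * x.2) - (x0.1 ^ 2 - 4 * x0.2) := by rw [h3]; ring
            _ = f * (q - q0) := by rw [hq, hq0]; ring
            _ = 4 * (f * c) := by rw [hc]; ring
        linarith
      rw [Int.modEq_iff_dvd, h2]
      exact Dvd.dvd.mul_right (Int.natAbs_dvd.mpr dvd_rfl) _
    · intro p hpQ h hh
      rw [Finset.mem_singleton] at hh
      subst hh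
      intro hmod
      rw [hQ, Finset.mem_filter, PP, Finset.mem_filter] at hpQ
      obtain ⟨⟨-, hp3⟩, hp4, hp5, hp6⟩ := hpQ
      have h1 : (p : ℤ) ∣ x.2 := by
        have := hmod
        rw [Nat.cast_zero] at this
        exact Int.modEq_zero_iff_dvd.mp this
      have h2 := hp p hp3 hp4 h1 hp5
      rw [h2] at hp6
      norm_num at hp6
  have hmaps : ∀ x ∈ S, (x.1, ((x.1 ^ 2 - 4 * x.2) / f) % 4) ∈
      (Finset.Icc (-(H : ℤ)) H) ×ˢ (Finset.Ico (0 : ℤ) 4) := by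
    intro x hx
    obtain ⟨⟨hb1, -⟩, -⟩ := hS x hx
    rw [Finset.mem_product, Finset.mem_Icc, Finset.mem_Ico]
    exact ⟨abs_le.mp hb1, Int.emod_nonneg _ (by norm_num), Int.emod_lt_of_pos _ (by norm_num)⟩
  have hcard := Finset.card_eq_sum_card_fiberwise (s := S)
    (f := fun x : ℤ × ℤ => (x.1, ((x.1 ^ 2 - 4 * x.2) / f) % 4)) hmaps
  have hcardB : ((Finset.Icc (-(H : ℤ)) H) ×ˢ (Finset.Ico (0 : ℤ) 4)).card = (2 * H + 1) * 4 := by
    rw [Finset.card_product, Int.card_Icc, Int.card_Ico]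
    congr 1
    omega
  have h1 : (S.card : ℝ) ≤ ((2 * H + 1) * 4) * (18 * M * Real.exp (- ∑ p ∈ Q, 1 / (p : ℝ))) := by
    rw [hcard]
    push_cast
    refine (Finset.sum_le_card_nsmul _ _ _ (fun b _ => hfib b)).trans ?_
    rw [hcardB, nsmul_eq_mul]
    push_cast
    exact le_rfl
  have h2 : Real.exp (- ∑ p ∈ Q, 1 / (p : ℝ)) ≤ Real.exp (1 / 2 * Real.log (2 * k) + C1) *
      Real.exp (- (1 / 2) * LL H + LL w + 1 / 2 * LL δ) := by
    rw [← Real.exp_add]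
    apply Real.exp_le_exp.mpr
    linarith
  have h3 : (2 * (H : ℝ) + 1) * 4 ≤ 12 * H := by linarith
  calc (S.card : ℝ) ≤ ((2 * H + 1) * 4) * (18 * M * Real.exp (- ∑ p ∈ Q, 1 / (p : ℝ))) := h1
    _ ≤ (12 * H) * (18 * (3 * (H : ℝ) ^ 2 / δ) * (Real.exp (1 / 2 * Real.log (2 * k) + C1) *
      Real.exp (- (1 / 2) * LL H + LL w + 1 / 2 * LL δ))) := by
        apply mul_le_mul h3 _ (by positivity) (by positivity)
        apply mul_le_mul _ h2 (by positivity) (by positivity)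
        linarith
    _ = _ := by ring

end N44
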