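import Pool.Agent.LibN44.T5

namespace N44

open TwHL

theorem t5b_exp {x : ℕ} : Real.exp (LL x) = 1 + Real.log x := by
  unfold LL
  refine Real.exp_log ?_
  have : 0 ≤ Real.log x := Real.log_natCast_nonneg x
  linarith

theorem t5b_large : ∃ H₁ : ℕ, ∀ H : ℕ, H₁ ≤ H → 1 ≤ Real.log H ∧
    1 + Real.log (2 * Real.log H + 4) ≤ (Real.log H) ^ (1 / 100 : ℝ) := by
  have h1 : Filter.Tendsto (fun H : ℕ => Real.log H) Filter.atTop Filter.atTop :=
    Real.tendsto_log_atTop.comp tendsto_natCast_atTop_atTop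
  have h2 : ∀ᶠ L : ℝ in Filter.atTop, 1 ≤ L ∧ 1 + Real.log (2 * L + 4) ≤ L ^ (1 / 100 : ℝ) := by
    have h3 := (isLittleO_log_rpow_atTop (r := (1 / 100 : ℝ)) (by norm_num)).bound
      (show (0 : ℝ) < 1 / 2 by norm_num)
    have h4 : ∀ᶠ L : ℝ in Filter.atTop, 2 * (1 + Real.log 3) ≤ L ^ (1 / 100 : ℝ) :=
      (tendsto_rpow_atTop (by norm_num : (0 : ℝ) < 1 / 100)).eventually_ge_atTop _
    filter_upwards [h3, h4, Filter.eventually_ge_atTop (4 : ℝ)] with L a b c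
    have hL0 : 0 < L := by linarith
    have hlog : 0 ≤ Real.log L := Real.log_nonneg (by linarith)
    have hp : 0 ≤ L ^ (1 / 100 : ℝ) := Real.rpow_nonneg hL0.le _
    rw [Real.norm_of_nonneg hlog, Real.norm_of_nonneg hp] at a
    have h5 : Real.log (2 * L + 4) ≤ Real.log 3 + Real.log L := by
      rw [← Real.log_mul (by norm_num) hL0.ne']
      exact Real.log_le_log (by linarith) (by linarith)
    exact ⟨by linarith, by linarith⟩
  exact Filter.eventually_atTop.1 (h1.eventually h2)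

theorem t5b_expand {L lw lf C K n : ℝ} {H w f : ℕ} (hC : 0 ≤ C) (hK : 0 ≤ K) (hn : 0 < n)
    (hL : L = Real.log H) (hL1 : 1 ≤ L)
    (hlw : lw = Real.log w) (hlf : lf = Real.log f) (hw : 1 + lw ≤ L ^ (1 / 100 : ℝ))
    (hf : lf ≤ L ^ (1 / 10 : ℝ)) :
    C * (K / n) * Real.exp (- (1 / 2) * LL H + LL w + 1 / 2 * LL f) ≤
      2 * C * K * L ^ (-(39 / 100) : ℝ) / n := by
  have hL0 : 0 < L := by linarith
  have e1 : Real.exp (-(1 / 2) * LL H) ≤ L ^ (-(1 / 2) : ℝ) := by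
    have h1 : Real.exp (-(1 / 2) * LL H) = (1 + L) ^ (-(1 / 2) : ℝ) := by
      rw [Real.rpow_def_of_pos (by linarith)]
      unfold LL
      rw [hL, mul_comm]
    rw [h1]
    exact Real.rpow_le_rpow_of_nonpos hL0 (by linarith) (by norm_num)
  have e2 : Real.exp (LL w) ≤ L ^ (1 / 100 : ℝ) := by
    rw [t5b_exp, ← hlw]
    exact hw
  have hone : 1 ≤ L ^ (1 / 10 : ℝ) := Real.one_le_rpow hL1 (by norm_num)
  have hlf0 : 0 ≤ lf := by
    rw [hlf]
    exact Real.log_natCast_nonneg f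
  have e3 : Real.exp (1 / 2 * LL f) ≤ 2 * L ^ (1 / 10 : ℝ) := by
    have h2 : 0 ≤ LL f := by
      unfold LL
      refine Real.log_nonneg ?_
      rw [← hlf]
      linarith
    have h3 : Real.exp (1 / 2 * LL f) ≤ Real.exp (LL f) := Real.exp_le_exp.2 (by linarith)
    refine h3.trans ?_
    rw [t5b_exp, ← hlf]
    linarith
  have e4 : Real.exp (- (1 / 2) * LL H + LL w + 1 / 2 * LL f) ≤
      L ^ (-(1 / 2) : ℝ) * L ^ (1 / 100 : ℝ) * (2 * L ^ (1 / 10 : ℝ)) := by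
    rw [Real.exp_add, Real.exp_add]
    have := Real.exp_pos (LL w)
    have h5 := Real.exp_pos (1 / 2 * LL f)
    gcongr
  have e5 : L ^ (-(1 / 2) : ℝ) * L ^ (1 / 100 : ℝ) * (2 * L ^ (1 / 10 : ℝ)) =
      2 * L ^ (-(39 / 100) : ℝ) := by
    rw [← Real.rpow_add hL0, mul_left_comm, ← Real.rpow_add hL0]
    norm_num
  rw [e5] at e4
  calc C * (K / n) * Real.exp (- (1 / 2) * LL H + LL w + 1 / 2 * LL f)
      ≤ C * (K / n) * (2 * L ^ (-(39 / 100) : ℝ)) := mul_le_mul_of_nonneg_left e4 (by positivity)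
    _ = 2 * C * K * L ^ (-(39 / 100) : ℝ) / n := by ring

/-- Row T5b (section 5.5). Sum of `sect3b_f` over the nonsquare `f`, `|f| ≤ E`, with `w = ⌈log H⌉₊ + 4 ≥ W`
(`hW`); same computation as in Row S2f (no `Few` needed). -/
theorem sect3b : ∃ C : ℝ, 0 < C ∧ ∃ H₀ : ℕ, ∀ H : ℕ, H₀ ≤ H → ∀ E W : ℕ, 1 ≤ E →
    (W : ℝ) ≤ Real.log H → Real.log E ≤ (Real.log H) ^ (1 / 10 : ℝ) → ∀ S : Finset (ℤ × ℤ),
    (∀ z ∈ S, Box H z ∧ ∃ f : ℤ, ¬ IsSquare f ∧ f.natAbs ≤ E ∧ f ∣ z.1 ^ 2 - 4 * z.2 ∧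
      ∀ p : ℕ, p.Prime → W < p → (p : ℤ) ∣ z.2 → ¬ (p : ℤ) ∣ f → jacobiSym f p = 1) →
    (S.card : ℝ) ≤ C * (H : ℝ) ^ 3 / (Real.log H) ^ (1 / 4 : ℝ) := by
  classical
  obtain ⟨C₁, hC₁, H₁, h₁⟩ := sect3b_f
  obtain ⟨H₂, h₂⟩ := t5b_large
  refine ⟨8 * C₁, by positivity, max H₁ H₂, ?_⟩
  intro H hH E W hE hW hE2 S hS
  obtain ⟨hL1, hL2⟩ := h₂ H (le_trans (le_max_right _ _) hH)
  set L : ℝ := Real.log H with hL
  have hL0 : 0 < L := by linarith
  set w : ℕ := ⌈L⌉₊ + 4 with hw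
  have w4 : 4 ≤ w := by omega
  have wc : ((w : ℕ) : ℝ) = (⌈L⌉₊ : ℝ) + 4 := by
    rw [hw]
    push_cast
    ring
  have wL : L ≤ w := by
    have := Nat.le_ceil L
    rw [wc]
    linarith
  have w2 : (w : ℝ) ≤ 2 * L + 4 := by
    have := Nat.ceil_lt_add_one hL0.le
    rw [wc]
    linarith
  have hWw : W ≤ w := by
    have : (W : ℝ) ≤ w := hW.trans wL
    exact_mod_cast this
  have hH1 : 1 ≤ H := by
    rcases Nat.eq_zero_or_pos H with h0 | h0
    · rw [hL, h0] at hL0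
      simp at hL0
    · exact h0
  have hEH : E ≤ H := by
    have h3 : Real.log E ≤ Real.log H := by
      refine hE2.trans ?_
      calc L ^ (1 / 10 : ℝ) ≤ L ^ (1 : ℝ) := Real.rpow_le_rpow_of_exponent_le hL1 (by norm_num)
        _ = L := Real.rpow_one L
    have h4 := (Real.log_le_log_iff (by exact_mod_cast hE) (by exact_mod_cast hH1)).1 h3
    exact_mod_cast h4
  have hlw : 1 + Real.log w ≤ L ^ (1 / 100 : ℝ) := by
    refine le_trans ?_ hL2
    have : Real.log w ≤ Real.log (2 * L + 4) :=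
      Real.log_le_log (by exact_mod_cast (show 0 < w by omega)) w2
    linarith
  set B : ℝ := 2 * C₁ * (H : ℝ) ^ 3 * L ^ (-(39 / 100) : ℝ) with hB
  have hB0 : 0 ≤ B := by positivity
  let T : ℤ → Finset (ℤ × ℤ) := fun f => S.filter (fun z => ¬ IsSquare f ∧ f ∣ z.1 ^ 2 - 4 * z.2 ∧
    ∀ p : ℕ, p.Prime → w < p → (p : ℤ) ∣ z.2 → ¬ (p : ℤ) ∣ f → jacobiSym f p = 1)
  have hsub : S ⊆ (Finset.Icc 1 E ×ˢ ({1, -1} : Finset ℤ)).biUnion
      (fun q => T (q.2 * (q.1 : ℤ))) := by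
    intro z hz
    obtain ⟨_, f, hf1, hf2, hf3, hf4⟩ := hS z hz
    have hf0 : f ≠ 0 := by
      rintro rfl
      exact hf1 ⟨0, by simp⟩
    rw [Finset.mem_biUnion]
    have hmem : ∀ f' : ℤ, f' = f → z ∈ T f' := by
      rintro f' rfl
      rw [Finset.mem_filter]
      exact ⟨hz, hf1, hf3, fun p hp hwp => hf4 p hp (lt_of_le_of_lt hWw hwp)⟩
    have hn : 1 ≤ f.natAbs := Int.natAbs_pos.2 hf0
    rcases Int.natAbs_eq f with hc | hc
    · refine ⟨(f.natAbs, 1), ?_, hmem _ ?_⟩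
      · rw [Finset.mem_product, Finset.mem_Icc]
        exact ⟨⟨hn, hf2⟩, by simp⟩
      · rw [one_mul]
        exact hc.symm
    · refine ⟨(f.natAbs, -1), ?_, hmem _ ?_⟩
      · rw [Finset.mem_product, Finset.mem_Icc]
        exact ⟨⟨hn, hf2⟩, by simp⟩
      · rw [neg_one_mul]
        exact hc.symm
  have hT : ∀ n : ℕ, 1 ≤ n → n ≤ E → ∀ s : ℤ, s.natAbs = 1 →
      ((T (s * (n : ℤ))).card : ℝ) ≤ B / n := by
    intro n hn1 hnE s hs
    have hn0 : (0 : ℝ) < n := by exact_mod_cast hn1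
    by_cases hsq : IsSquare (s * (n : ℤ))
    · have : T (s * (n : ℤ)) = ∅ := by
        rw [Finset.filter_eq_empty_iff]
        intro z _ hz
        exact hz.1 hsq
      rw [this, Finset.card_empty, Nat.cast_zero]
      positivity
    · have hna : (s * (n : ℤ)).natAbs = n := by
        rw [Int.natAbs_mul, hs, one_mul, Int.natAbs_natCast]
      have h5 := h₁ H w (le_trans (le_max_left _ _) hH) w4 wL w2 (s * (n : ℤ)) hsq
        (by rw [hna]; omega) (T (s * (n : ℤ))) (by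
          intro z hz
          rw [Finset.mem_filter] at hz
          exact ⟨(hS z hz.1).1, hz.2.2.1, hz.2.2.2⟩)
      rw [hna] at h5
      refine h5.trans ?_
      refine t5b_expand hC₁.le (by positivity) hn0 hL hL1 rfl rfl hlw ?_
      refine le_trans (Real.log_le_log hn0 ?_) hE2
      exact_mod_cast hnE
  have hcard : (S.card : ℝ) ≤ ∑ q ∈ Finset.Icc 1 E ×ˢ ({1, -1} : Finset ℤ), B / (q.1 : ℝ) := by
    have h6 : S.card ≤ ∑ q ∈ Finset.Icc 1 E ×ˢ ({1, -1} : Finset ℤ), (T (q.2 * (q.1 : ℤ))).card :=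
      (Finset.card_le_card hsub).trans Finset.card_biUnion_le
    have h7 : (S.card : ℝ) ≤
        ∑ q ∈ Finset.Icc 1 E ×ˢ ({1, -1} : Finset ℤ), ((T (q.2 * (q.1 : ℤ))).card : ℝ) := by
      exact_mod_cast h6
    refine h7.trans (Finset.sum_le_sum ?_)
    intro q hq
    rw [Finset.mem_product, Finset.mem_Icc] at hq
    refine hT q.1 hq.1.1 hq.1.2 q.2 ?_
    have h8 := hq.2
    simp only [Finset.mem_insert, Finset.mem_singleton] at h8
    rcases h8 with h8 | h8 <;> rw [h8] <;> rfl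
  have hsum : ∑ q ∈ Finset.Icc 1 E ×ˢ ({1, -1} : Finset ℤ), B / (q.1 : ℝ) =
      2 * B * ∑ n ∈ Finset.Icc 1 E, ((n : ℝ))⁻¹ := by
    rw [Finset.sum_product, Finset.mul_sum]
    refine Finset.sum_congr rfl fun n _ => ?_
    rw [Finset.sum_pair (by norm_num : (1 : ℤ) ≠ -1)]
    simp only
    ring
  have hharm : ∑ n ∈ Finset.Icc 1 E, ((n : ℝ))⁻¹ ≤ 2 * L ^ (1 / 10 : ℝ) := by
    have h9 := harmonic_le_one_add_log E
    have h10 : ((harmonic E : ℚ) : ℝ) = ∑ k ∈ Finset.Icc 1 E, ((k : ℝ))⁻¹ := by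
      rw [harmonic_eq_sum_Icc]; push_cast; rfl
    rw [h10] at h9
    have hone : 1 ≤ L ^ (1 / 10 : ℝ) := Real.one_le_rpow hL1 (by norm_num)
    linarith
  have hfin : (S.card : ℝ) ≤ 2 * B * (2 * L ^ (1 / 10 : ℝ)) := by
    rw [hsum] at hcard
    exact hcard.trans (mul_le_mul_of_nonneg_left hharm (by positivity))
  refine hfin.trans ?_
  have h11 : 2 * B * (2 * L ^ (1 / 10 : ℝ)) = 8 * C₁ * (H : ℝ) ^ 3 * L ^ (-(29 / 100) : ℝ) := by
    have : L ^ (-(39 / 100) : ℝ) * L ^ (1 / 10 : ℝ) = L ^ (-(29 / 100) : ℝ) := by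
      rw [← Real.rpow_add hL0]
      norm_num
    rw [hB, ← this]
    ring
  have h12 : 8 * C₁ * (H : ℝ) ^ 3 / L ^ (1 / 4 : ℝ) = 8 * C₁ * (H : ℝ) ^ 3 * L ^ (-(1 / 4) : ℝ) := by
    rw [Real.rpow_neg hL0.le, ← div_eq_mul_inv]
  rw [h11, h12]
  refine mul_le_mul_of_nonneg_left ?_ (by positivity)
  exact Real.rpow_le_rpow_of_exponent_le hL1 (by norm_num)

end N44
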