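import Pool.Agent.LibN44.T5b

namespace N44

open TwHL

theorem t5c_jac {p : ℕ} (hp : p.Prime) {f m : ℤ} (h1 : (p : ℤ) ∣ m ^ 2 - f) (h2 : ¬ (p : ℤ) ∣ f) :
    jacobiSym f p = 1 := by
  have hmod : f % (p : ℤ) = m ^ 2 % (p : ℤ) := Int.modEq_iff_dvd.2 h1
  rw [jacobiSym.mod_left' hmod, jacobiSym.pow_left]
  refine jacobiSym.sq_one ?_
  have hm : ¬ (p : ℤ) ∣ m := by
    intro h3
    refine h2 ?_
    have h4 : (p : ℤ) ∣ m ^ 2 := dvd_pow h3 two_ne_zero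
    have h5 := dvd_sub h4 h1
    rwa [sub_sub_cancel] at h5
  rw [Int.gcd_eq_natAbs, Int.natAbs_natCast]
  refine Nat.Coprime.symm ((Nat.Prime.coprime_iff_not_dvd hp).2 ?_)
  intro h3
  exact hm (Int.natCast_dvd.2 h3)

/-- Row T5c (section 5.5 for the datum). `b = d s²`, `1 ≤ s ≤ W`, `(U)` with `f` not a square, `|f| ≤ E` and
`g² f ∣ D` (so `f ∣ D`). For a prime `p > W` with `p ∣ b`: `p ∤ s`, `p ∣ d`, so `f ≡ m²` mod `p`; if `p ∤ f` then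
`(f/p) = 1` (`p ≠ 2` since `W ≥ 2`). Apply `sect3b`. -/
theorem sect3b_U : ∃ C : ℝ, 0 < C ∧ ∃ H₀ : ℕ, ∀ H : ℕ, H₀ ≤ H → ∀ E W : ℕ, 1 ≤ E → 2 ≤ W →
    (W : ℝ) ≤ Real.log H → Real.log E ≤ (Real.log H) ^ (1 / 10 : ℝ) → ∀ S : Finset (ℤ × ℤ),
    (∀ z ∈ S, Box H z ∧ ∃ (d s ρ g X Y r : ℕ) (m f : ℤ), 0 < s ∧ s ≤ W ∧ z.2 = d * (s : ℤ) ^ 2 ∧
      UU z.1 d s ρ g X Y r m f ∧ (g : ℤ) ^ 2 * f ∣ z.1 ^ 2 - 4 * z.2 ∧ ¬ IsSquare f ∧ f.natAbs ≤ E) →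
    (S.card : ℝ) ≤ C * (H : ℝ) ^ 3 / (Real.log H) ^ (1 / 4 : ℝ) := by
  obtain ⟨C, hC, H₀, h⟩ := sect3b
  refine ⟨C, hC, H₀, ?_⟩
  intro H hH E W hE _ hW hE2 S hS
  refine h H hH E W hE hW hE2 S ?_
  intro z hz
  obtain ⟨hB, d, s, ρ, g, X, Y, r, m, f, hs0, hsW, hb, hU, hdvd, hsq, hfE⟩ := hS z hz
  refine ⟨hB, f, hsq, hfE, (Dvd.intro_left _ rfl).trans hdvd, ?_⟩
  intro p hp hWp hpb hpf
  obtain ⟨_, _, _, _, _, _, _, _, _, hf, _, _⟩ := hU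
  have hps : ¬ p ∣ s := by
    intro h1
    have := Nat.le_of_dvd hs0 h1
    omega
  have hpd : (p : ℤ) ∣ d := by
    rw [hb] at hpb
    have hpp : Prime (p : ℤ) := Nat.prime_iff_prime_int.1 hp
    rcases hpp.dvd_or_dvd hpb with h1 | h1
    · exact h1
    · exact absurd (Int.natCast_dvd_natCast.1 (hpp.dvd_of_dvd_pow h1)) hps
  refine t5c_jac hp (m := m) ?_ hpf
  rw [hf, sub_sub_cancel]
  exact hpd.mul_right _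

end N44
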