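import Pool.Agent.LibN44.Defs

namespace N44

theorem t6_ap (A B : ℤ) (hAB : A ≤ B) (n : ℕ) (hn : 0 < n) (v : ℤ) :
    (((Finset.Icc A B).filter (fun x => x ≡ v [ZMOD n])).card : ℝ) ≤ (B - A : ℝ) / n + 1 := by
  have hn' : (0 : ℤ) < n := by exact_mod_cast hn
  have h1 : ((Finset.Icc A B).filter (fun x => x ≡ v [ZMOD n])).card ≤
      (Finset.Icc (0 : ℤ) ((B - A) / n)).card := by
    apply Finset.card_le_card_of_injOn (fun x => (x - A) / n)
    · intro x hx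
      simp only [Finset.coe_filter, Finset.mem_Icc, Set.mem_ofPred_eq] at hx
      simp only [Finset.coe_Icc, Set.mem_Icc]
      exact ⟨Int.ediv_nonneg (by linarith [hx.1.1]) hn'.le,
        Int.ediv_le_ediv hn' (by linarith [hx.1.2])⟩
    · intro x hx y hy hxy
      simp only [Finset.coe_filter, Finset.mem_Icc, Set.mem_ofPred_eq] at hx hy
      have h2 : x ≡ y [ZMOD n] := hx.2.trans hy.2.symm
      have h3 : (x - A) % n = (y - A) % n := h2.sub_right A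
      have h4 := Int.emod_add_mul_ediv (x - A) n
      have h5 := Int.emod_add_mul_ediv (y - A) n
      simp only at hxy
      rw [hxy, h3] at h4
      linarith
  have h6 : (0 : ℤ) ≤ (B - A) / n := Int.ediv_nonneg (by linarith) hn'.le
  rw [Int.card_Icc, sub_zero] at h1
  have h7 : ((((B - A) / n + 1).toNat : ℕ) : ℤ) = (B - A) / n + 1 := Int.toNat_of_nonneg (by linarith)
  have h8 : (((Finset.Icc A B).filter (fun x => x ≡ v [ZMOD n])).card : ℤ) ≤ (B - A) / n + 1 := by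
    rw [← h7]
    exact_mod_cast h1
  have h9 : (((B - A) / (n : ℤ) : ℤ) : ℝ) ≤ (B - A : ℝ) / n := by
    rw [le_div_iff₀ (by exact_mod_cast hn)]
    have h10 := Int.ediv_mul_le (B - A) hn'.ne'
    exact_mod_cast h10
  have h11 : (((Finset.Icc A B).filter (fun x => x ≡ v [ZMOD n])).card : ℝ) ≤
      (((B - A) / (n : ℤ) : ℤ) : ℝ) + 1 := by exact_mod_cast h8
  linarith

theorem t6_class {a : ℤ} {d s ρ g X Y r : ℕ} {m f : ℤ} (h : UU a d s ρ g X Y r m f) :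
    ∃ t : ℕ, t < f.natAbs ∧ a ≡ 2 * s * t [ZMOD f.natAbs] ∧
      (d : ℤ) ≡ (t : ℤ) ^ 2 [ZMOD f.natAbs] := by
  obtain ⟨-, -, -, -, -, -, -, hmr, hf0, hf, -, hX⟩ := h
  have hcop : IsCoprime (r : ℤ) f := by
    have h1 : IsCoprime (m ^ 2) (r : ℤ) := hmr.pow_left
    have h2 : IsCoprime (m ^ 2 + (r : ℤ) * (-(d : ℤ) * r)) (r : ℤ) :=
      IsCoprime.add_mul_left_left h1 _
    have h3 : m ^ 2 + (r : ℤ) * (-(d : ℤ) * r) = f := by rw [hf]; ring
    rw [h3] at h2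
    exact h2.symm
  have hn0 : 0 < f.natAbs := Int.natAbs_pos.mpr hf0
  have hn0' : (0 : ℤ) < (f.natAbs : ℤ) := by exact_mod_cast hn0
  obtain ⟨u, v, huv⟩ := hcop
  have hfn : ∀ x : ℤ, f ∣ x → ((f.natAbs : ℕ) : ℤ) ∣ x := fun x hx => Int.natAbs_dvd.mpr hx
  -- t = m u mod n
  refine ⟨(m * u % f.natAbs).toNat, ?_, ?_, ?_⟩
  · have h1 := Int.emod_lt_of_pos (m * u) hn0'
    have h2 := Int.emod_nonneg (m * u) hn0'.ne'
    omega
  · have ht : (((m * u % f.natAbs).toNat : ℕ) : ℤ) = m * u % f.natAbs :=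
      Int.toNat_of_nonneg (Int.emod_nonneg _ hn0'.ne')
    rw [ht]
    have h1 : m * u % (f.natAbs : ℤ) ≡ m * u [ZMOD f.natAbs] := Int.mod_modEq _ _
    have h2 : a ≡ 2 * s * (m * u) [ZMOD f.natAbs] := by
      apply Int.ModEq.symm
      rw [Int.modEq_iff_dvd]
      apply hfn
      -- a - 2 s m u = a (u r + v f) - 2 s m u = u (a r - 2 s m) + a v f
      refine ⟨u * (g * ρ * (X : ℤ) ^ 2) + a * v, ?_⟩
      have h3 : a - 2 * s * (m * u) = a * (u * r + v * f) - 2 * s * (m * u) := by rw [huv]; ring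
      rw [h3]
      linear_combination (-u) * hX
    exact h2.trans ((h1.symm.mul_left _))
  · have ht : (((m * u % f.natAbs).toNat : ℕ) : ℤ) = m * u % f.natAbs :=
      Int.toNat_of_nonneg (Int.emod_nonneg _ hn0'.ne')
    rw [ht]
    have h1 : m * u % (f.natAbs : ℤ) ≡ m * u [ZMOD f.natAbs] := Int.mod_modEq _ _
    have h2 : (d : ℤ) ≡ (m * u) ^ 2 [ZMOD f.natAbs] := by
      apply Int.ModEq.symm
      rw [Int.modEq_iff_dvd]
      apply hfn
      -- d - m²u² = d - (f + d r²) u² = d (1 - r²u²) - f u²; 1 - ru = v f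
      refine ⟨d * v * (1 + u * r) - u ^ 2, ?_⟩
      have h3 : (1 : ℤ) - u * r = v * f := by linarith
      have h4 : m ^ 2 = f + (d : ℤ) * (r : ℤ) ^ 2 := by rw [hf]; ring
      have h5 : (d : ℤ) - (m * u) ^ 2 = d * ((1 - u * r) * (1 + u * r)) - f * u ^ 2 := by
        rw [mul_pow, h4]; ring
      rw [h5, h3]
      ring
    exact h2.trans (h1.symm.pow 2)

/-- Row T6 (section 5.3, trivial count) for given `s, f`. From `(U)`: `(r, f) = 1` (`f = m² - d r²`,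
`(m, r) = 1`). Let `t` mod `|f|` with `m ≡ t r`: then `d ≡ t²` and `a ≡ 2 s t` mod `|f|` (as `f ∣ a r - 2 s m`).
So `(a, d)` lies in one of the `|f|` residue pairs `(2 s t, t²)`, `t` mod `|f|`; for each of them there are at
most `(2H/|f| + 1)(H²/(s²|f|) + 1) ≤ (5H/|f|)·(2H²/(s²|f|))` pairs (`|f| ≤ 3H` and `s²|f| ≤ H²`), and
`(a, d)` determines `z = (a, d s²)`. (Use `Int.Ioc_filter_modEq_card` or injectivity into a product.) -/
theorem tc : ∀ H s : ℕ, 1 ≤ H → 1 ≤ s → ∀ f : ℤ, f.natAbs ≤ 3 * H → s ^ 2 * f.natAbs ≤ H ^ 2 →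
    ∀ S : Finset (ℤ × ℤ),
    (∀ z ∈ S, Box H z ∧ ∃ (d ρ g X Y r : ℕ) (m : ℤ), z.2 = d * (s : ℤ) ^ 2 ∧
      UU z.1 d s ρ g X Y r m f) →
    (S.card : ℝ) ≤ 10 * (H : ℝ) ^ 3 / ((s : ℝ) ^ 2 * f.natAbs) := by
  intro H s hH hs f hf3 hf2 S hS
  classical
  rcases S.eq_empty_or_nonempty with rfl | ⟨z0, hz0⟩
  · rw [Finset.card_empty]
    push_cast
    positivity
  have hf0 : f ≠ 0 := by
    obtain ⟨-, d, ρ, g, X, Y, r, m, -, h⟩ := hS z0 hz0
    exact h.2.2.2.2.2.2.2.2.1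
  set n := f.natAbs with hn
  have hn0 : 0 < n := Int.natAbs_pos.mpr hf0
  have hs2 : 0 < s ^ 2 := by positivity
  let D : ℕ := H ^ 2 / s ^ 2
  have hD1 : n ≤ D := (Nat.le_div_iff_mul_le hs2).mpr (by rw [mul_comm]; exact hf2)
  let Fa : ℕ → Finset ℤ := fun t =>
    (Finset.Icc (-(H : ℤ)) H).filter (fun x => x ≡ 2 * s * t [ZMOD n])
  let Fd : ℕ → Finset ℤ := fun t =>
    (Finset.Icc (1 : ℤ) D).filter (fun x => x ≡ (t : ℤ) ^ 2 [ZMOD n])
  have hsub : S ⊆ ((Finset.range n).biUnion fun t => Fa t ×ˢ Fd t).image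
      (fun p => (p.1, p.2 * (s : ℤ) ^ 2)) := by
    intro z hz
    obtain ⟨⟨hb1, hb2, hb3, -⟩, d, ρ, g, X, Y, r, m, hz2, hU⟩ := hS z hz
    obtain ⟨t, ht1, ht2, ht3⟩ := t6_class hU
    rw [Finset.mem_image]
    refine ⟨(z.1, (d : ℤ)), ?_, ?_⟩
    · rw [Finset.mem_biUnion]
      refine ⟨t, Finset.mem_range.mpr ht1, ?_⟩
      rw [Finset.mem_product]
      refine ⟨?_, ?_⟩
      · simp only [Fa, Finset.mem_filter, Finset.mem_Icc]
        exact ⟨abs_le.mp hb1, ht2⟩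
      · simp only [Fd, Finset.mem_filter, Finset.mem_Icc]
        refine ⟨⟨?_, ?_⟩, ht3⟩
        · have hd0 : d ≠ 0 := by
            rintro rfl
            apply hb3
            rw [hz2]
            simp
          have : 1 ≤ d := Nat.one_le_iff_ne_zero.mpr hd0
          exact_mod_cast this
        · have h1 : d * s ^ 2 ≤ H ^ 2 := by
            have h2 : z.2 ≤ (H : ℤ) ^ 2 := le_trans (le_abs_self _) hb2
            rw [hz2] at h2
            exact_mod_cast h2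
          have h3 : d ≤ D := (Nat.le_div_iff_mul_le hs2).mpr h1
          exact_mod_cast h3
    · rw [← hz2]
  have hcard : S.card ≤ ∑ t ∈ Finset.range n, (Fa t).card * (Fd t).card := by
    calc S.card ≤ _ := Finset.card_le_card hsub
      _ ≤ _ := Finset.card_image_le
      _ ≤ ∑ t ∈ Finset.range n, (Fa t ×ˢ Fd t).card := Finset.card_biUnion_le
      _ = _ := Finset.sum_congr rfl (fun t _ => Finset.card_product _ _)
  have hnR : (0 : ℝ) < n := by exact_mod_cast hn0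
  have hsR : (0 : ℝ) < s := by exact_mod_cast hs
  have hHR : (1 : ℝ) ≤ H := by exact_mod_cast hH
  have hf3R : (n : ℝ) ≤ 3 * H := by exact_mod_cast hf3
  have hf2R : (s : ℝ) ^ 2 * n ≤ (H : ℝ) ^ 2 := by exact_mod_cast hf2
  have hFa : ∀ t, ((Fa t).card : ℝ) ≤ 5 * H / n := by
    intro t
    have h1 := t6_ap (-(H : ℤ)) H (by omega) n hn0 (2 * s * t)
    refine h1.trans ?_
    push_cast
    rw [div_add_one hnR.ne']
    apply div_le_div_of_nonneg_right _ hnR.le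
    linarith
  have hFd : ∀ t, ((Fd t).card : ℝ) ≤ 2 * (H : ℝ) ^ 2 / ((s : ℝ) ^ 2 * n) := by
    intro t
    have h1 := t6_ap 1 D (by have : 1 ≤ D := le_trans hn0 hD1; exact_mod_cast this) n hn0 ((t : ℤ) ^ 2)
    refine h1.trans ?_
    have h2 : (D : ℝ) ≤ (H : ℝ) ^ 2 / (s : ℝ) ^ 2 := by
      have := Nat.cast_div_le (α := ℝ) (m := H ^ 2) (n := s ^ 2)
      push_cast at this
      exact this
    have h3 : ((D : ℤ) : ℝ) = (D : ℝ) := by norm_cast
    rw [h3]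
    push_cast
    have h4 : ((D : ℝ) - 1) / n ≤ ((H : ℝ) ^ 2 / (s : ℝ) ^ 2) / n :=
      div_le_div_of_nonneg_right (by linarith) hnR.le
    have h5 : (1 : ℝ) ≤ (H : ℝ) ^ 2 / ((s : ℝ) ^ 2 * n) := by
      rw [le_div_iff₀ (by positivity), one_mul]
      exact hf2R
    rw [div_div] at h4
    have h6 : 2 * (H : ℝ) ^ 2 / ((s : ℝ) ^ 2 * n) =
      (H : ℝ) ^ 2 / ((s : ℝ) ^ 2 * n) + (H : ℝ) ^ 2 / ((s : ℝ) ^ 2 * n) := by ring
    rw [h6]
    linarith
  calc (S.card : ℝ) ≤ ((∑ t ∈ Finset.range n, (Fa t).card * (Fd t).card : ℕ) : ℝ) := by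
        exact_mod_cast hcard
    _ = ∑ t ∈ Finset.range n, ((Fa t).card : ℝ) * ((Fd t).card : ℝ) := by push_cast; rfl
    _ ≤ ∑ t ∈ Finset.range n, (5 * H / n) * (2 * (H : ℝ) ^ 2 / ((s : ℝ) ^ 2 * n)) := by
        apply Finset.sum_le_sum
        intro t _
        exact mul_le_mul (hFa t) (hFd t) (Nat.cast_nonneg _) (by positivity)
    _ = 10 * (H : ℝ) ^ 3 / ((s : ℝ) ^ 2 * n) := by
        rw [Finset.sum_const, Finset.card_range, nsmul_eq_mul]
        field_simp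
        ring

end N44
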