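import Pool.Agent.LibN44.T6

namespace N44

theorem t7_sum_one (W : ℕ) : ∑ s ∈ Finset.Icc 1 W, (1 : ℝ) / (s : ℝ) ^ 2 ≤ 2 := by
  have h : ∀ W : ℕ, 1 ≤ W → ∑ s ∈ Finset.Icc 1 W, (1 : ℝ) / (s : ℝ) ^ 2 ≤ 2 - 1 / W := by
    intro W hW
    induction W, hW using Nat.le_induction with
    | base => norm_num
    | succ n hn ih =>
      rw [Finset.sum_Icc_succ_top (by omega)]
      have hn' : (1 : ℝ) ≤ n := by exact_mod_cast hn
      have h1 : (1 : ℝ) / ((n + 1 : ℕ) : ℝ) ^ 2 ≤ 1 / n - 1 / ((n + 1 : ℕ) : ℝ) := by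
        push_cast
        rw [div_sub_div _ _ (by positivity) (by positivity), div_le_div_iff₀ (by positivity) (by positivity)]
        nlinarith
      linarith
  rcases Nat.eq_zero_or_pos W with h0 | h0
  · subst h0; simp
  · have := h W h0
    have h2 : (0 : ℝ) ≤ 1 / W := by positivity
    linarith

theorem t7_sum_two (W M : ℕ) (hW : 1 ≤ W) : ∑ F ∈ Finset.Ioc W M, (1 : ℝ) / (F : ℝ) ^ 2 ≤ 1 / W := by
  have h : ∀ M : ℕ, W ≤ M → ∑ F ∈ Finset.Ioc W M, (1 : ℝ) / (F : ℝ) ^ 2 ≤ 1 / W - 1 / M := by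
    intro M hM
    induction M, hM using Nat.le_induction with
    | base => simp
    | succ n hn ih =>
      rw [Finset.sum_Ioc_succ_top (by omega)]
      have hn' : (1 : ℝ) ≤ n := by exact_mod_cast (le_trans hW hn)
      have h1 : (1 : ℝ) / ((n + 1 : ℕ) : ℝ) ^ 2 ≤ 1 / n - 1 / ((n + 1 : ℕ) : ℝ) := by
        push_cast
        rw [div_sub_div _ _ (by positivity) (by positivity), div_le_div_iff₀ (by positivity) (by positivity)]
        nlinarith
      linarith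
  rcases le_or_gt W M with h0 | h0
  · have := h M h0
    have h2 : (0 : ℝ) ≤ 1 / M := by positivity
    linarith
  · rw [Finset.Ioc_eq_empty (by omega)]
    simp

/-- Row T7 (section 5.6). `f = F²` with `F > W`: sum of `tc` over `s ≤ W` and `F > W`, `F² ≤ 3H`
(`W² F² ≤ W² · 3H ≤ H²` by `hW`): `10 H³ ∑ 1/s² ∑_{F>W} 1/F² ≤ 20 H³ · 2/W`. -/
theorem sect3d : ∃ C : ℝ, 0 < C ∧ ∀ H W : ℕ, 1 ≤ H → 1 ≤ W → 3 * W ^ 2 ≤ H → ∀ S : Finset (ℤ × ℤ),
    (∀ z ∈ S, Box H z ∧ ∃ (d s ρ g X Y r : ℕ) (m : ℤ) (F : ℕ), 0 < s ∧ s ≤ W ∧ z.2 = d * (s : ℤ) ^ 2 ∧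
      W < F ∧ F ^ 2 ≤ 3 * H ∧ UU z.1 d s ρ g X Y r m ((F : ℤ) ^ 2)) →
    (S.card : ℝ) ≤ C * (H : ℝ) ^ 3 / W := by
  classical
  refine ⟨20, by norm_num, ?_⟩
  intro H W hH hW hWH S hS
  let Q : ℕ → ℕ → ℤ × ℤ → Prop := fun s F z => F ^ 2 ≤ 3 * H ∧
    ∃ (d ρ g X Y r : ℕ) (m : ℤ), z.2 = d * (s : ℤ) ^ 2 ∧ UU z.1 d s ρ g X Y r m ((F : ℤ) ^ 2)
  have hcov : S ⊆ (Finset.Icc 1 W).biUnion (fun s => (Finset.Ioc W (3 * H)).biUnion
      (fun F => S.filter (fun z => Q s F z))) := by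
    intro z hz
    obtain ⟨_, d, s, ρ, g, X, Y, r, m, F, hs0, hsW, hz2, hWF, hF, hU⟩ := hS z hz
    rw [Finset.mem_biUnion]
    refine ⟨s, Finset.mem_Icc.2 ⟨hs0, hsW⟩, ?_⟩
    rw [Finset.mem_biUnion]
    refine ⟨F, Finset.mem_Ioc.2 ⟨hWF, ?_⟩, ?_⟩
    · nlinarith
    · rw [Finset.mem_filter]
      exact ⟨hz, hF, d, ρ, g, X, Y, r, m, hz2, hU⟩
  have hone : ∀ s ∈ Finset.Icc 1 W, ∀ F ∈ Finset.Ioc W (3 * H),
      ((S.filter (fun z => Q s F z)).card : ℝ) ≤ 10 * (H : ℝ) ^ 3 * (1 / (s : ℝ) ^ 2) * (1 / (F : ℝ) ^ 2) := by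
    intro s hs F hF
    have hs' := Finset.mem_Icc.1 hs
    have hF' := Finset.mem_Ioc.1 hF
    by_cases h3 : F ^ 2 ≤ 3 * H
    · have hab : ((F : ℤ) ^ 2).natAbs = F ^ 2 := by
        rw [Int.natAbs_pow]; rfl
      have h1 := tc H s hH hs'.1 ((F : ℤ) ^ 2) (by rw [hab]; exact h3) (by
          rw [hab]
          calc s ^ 2 * F ^ 2 ≤ W ^ 2 * (3 * H) := Nat.mul_le_mul (Nat.pow_le_pow_left hs'.2 2) h3
            _ = (3 * W ^ 2) * H := by ring
            _ ≤ H * H := Nat.mul_le_mul_right _ hWH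
            _ = H ^ 2 := by ring) (S.filter (fun z => Q s F z)) (by
          intro z hz
          have hz' := Finset.mem_filter.1 hz
          exact ⟨(hS z hz'.1).1, hz'.2.2⟩)
      rw [hab] at h1
      push_cast at h1
      calc _ ≤ _ := h1
        _ = _ := by
          have hs0 : (0 : ℝ) < s := by exact_mod_cast hs'.1
          have hF0 : (0 : ℝ) < F := by exact_mod_cast (lt_of_le_of_lt (Nat.zero_le _) hF'.1)
          field_simp
    · have : S.filter (fun z => Q s F z) = ∅ := by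
        rw [Finset.filter_eq_empty_iff]
        intro z _ hq
        exact h3 hq.1
      rw [this, Finset.card_empty]
      push_cast
      positivity
  have hW0 : (0 : ℝ) < W := by exact_mod_cast hW
  calc (S.card : ℝ) ≤ ((Finset.Icc 1 W).biUnion (fun s => (Finset.Ioc W (3 * H)).biUnion
      (fun F => S.filter (fun z => Q s F z)))).card := by exact_mod_cast Finset.card_le_card hcov
    _ ≤ ∑ s ∈ Finset.Icc 1 W, ∑ F ∈ Finset.Ioc W (3 * H), ((S.filter (fun z => Q s F z)).card : ℝ) := by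
        have h1 : ((Finset.Icc 1 W).biUnion (fun s => (Finset.Ioc W (3 * H)).biUnion
            (fun F => S.filter (fun z => Q s F z)))).card ≤
            ∑ s ∈ Finset.Icc 1 W, ∑ F ∈ Finset.Ioc W (3 * H), (S.filter (fun z => Q s F z)).card :=
          Finset.card_biUnion_le.trans (Finset.sum_le_sum (fun s _ => Finset.card_biUnion_le))
        exact_mod_cast h1
    _ ≤ ∑ s ∈ Finset.Icc 1 W, ∑ F ∈ Finset.Ioc W (3 * H),
        10 * (H : ℝ) ^ 3 * (1 / (s : ℝ) ^ 2) * (1 / (F : ℝ) ^ 2) :=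
        Finset.sum_le_sum (fun s hs => Finset.sum_le_sum (fun F hF => hone s hs F hF))
    _ = 10 * (H : ℝ) ^ 3 * (∑ s ∈ Finset.Icc 1 W, (1 : ℝ) / (s : ℝ) ^ 2) *
        ∑ F ∈ Finset.Ioc W (3 * H), (1 : ℝ) / (F : ℝ) ^ 2 := by
        rw [mul_assoc, Finset.sum_mul_sum, Finset.mul_sum]
        refine Finset.sum_congr rfl (fun s _ => ?_)
        rw [Finset.mul_sum]
        refine Finset.sum_congr rfl (fun F _ => ?_)
        ring
    _ ≤ 10 * (H : ℝ) ^ 3 * 2 * (1 / W) := by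
        have a1 := t7_sum_one W
        have a2 := t7_sum_two W (3 * H) hW
        have a3 : 0 ≤ ∑ F ∈ Finset.Ioc W (3 * H), (1 : ℝ) / (F : ℝ) ^ 2 :=
          Finset.sum_nonneg (fun F _ => by positivity)
        refine mul_le_mul ?_ a2 a3 (by positivity)
        exact mul_le_mul_of_nonneg_left a1 (by positivity)
    _ = 20 * (H : ℝ) ^ 3 / W := by ring

end N44
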