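import Pool.Agent.LibN44.Defs

namespace N44

/-- CRT for sums of products of functions of `x % m` and `x % n`. -/
theorem t8a_crt (m n : ℕ) (hm : 0 < m) (hn : 0 < n) (co : Nat.Coprime m n) (f g : ℕ → ℝ)
    (hf : ∀ x, f (x % m) = f x) (hg : ∀ x, g (x % n) = g x) :
    ∑ x ∈ Finset.range (m * n), f x * g x =
      (∑ x ∈ Finset.range m, f x) * ∑ x ∈ Finset.range n, g x := by
  classical
  rw [Finset.sum_mul_sum, ← Finset.sum_product']
  refine Finset.sum_bij' (fun x _ => (x % m, x % n))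
    (fun y _ => (Nat.chineseRemainder co y.1 y.2 : ℕ)) ?_ ?_ ?_ ?_ ?_
  · intro x hx
    rw [Finset.mem_product]
    exact ⟨Finset.mem_range.2 (Nat.mod_lt _ hm), Finset.mem_range.2 (Nat.mod_lt _ hn)⟩
  · intro y hy
    exact Finset.mem_range.2 (Nat.chineseRemainder_lt_mul co _ _ hm.ne' hn.ne')
  · intro x hx
    have hx' := Finset.mem_range.1 hx
    have h1 : (Nat.chineseRemainder co (x % m) (x % n) : ℕ) ≡ x [MOD m * n] := by
      refine (Nat.modEq_and_modEq_iff_modEq_mul co).1 ⟨?_, ?_⟩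
      · exact ((Nat.chineseRemainder co (x % m) (x % n)).2.1).trans (Nat.mod_modEq _ _)
      · exact ((Nat.chineseRemainder co (x % m) (x % n)).2.2).trans (Nat.mod_modEq _ _)
    exact Nat.ModEq.eq_of_lt_of_lt h1 (Nat.chineseRemainder_lt_mul co _ _ hm.ne' hn.ne') hx'
  · intro y hy
    rw [Finset.mem_product] at hy
    have h1 := (Nat.chineseRemainder co y.1 y.2).2.1
    have h2 := (Nat.chineseRemainder co y.1 y.2).2.2
    refine Prod.ext ?_ ?_
    · show (Nat.chineseRemainder co y.1 y.2 : ℕ) % m = y.1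
      rw [h1, Nat.mod_eq_of_lt (Finset.mem_range.1 hy.1)]
    · show (Nat.chineseRemainder co y.1 y.2 : ℕ) % n = y.2
      rw [h2, Nat.mod_eq_of_lt (Finset.mem_range.1 hy.2)]
  · intro x hx
    show f x * g x = f (x % m) * g (x % n)
    rw [hf, hg]

/-- the weight -/
noncomputable def t8a_w (κ : ℤ) (p x : ℕ) : ℝ := if jacobiSym (κ * x) p = -1 then 1 else 2

theorem t8a_per (κ : ℤ) (p x : ℕ) : t8a_w κ p (x % p) = t8a_w κ p x := by
  have : jacobiSym (κ * ((x % p : ℕ) : ℤ)) p = jacobiSym (κ * x) p := by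
    rw [jacobiSym.mod_left (κ * ((x % p : ℕ) : ℤ)), jacobiSym.mod_left (κ * (x : ℤ))]
    congr 1
    push_cast
    simp [Int.mul_emod]
  unfold t8a_w
  rw [this]

theorem t8a_one (κ : ℤ) (p : ℕ) (hp : p.Prime) (h100 : 100 ≤ p) (hκ : ¬ (p : ℤ) ∣ κ) :
    ∑ x ∈ Finset.range p, t8a_w κ p x ≤ 301 / 200 * (p : ℝ) := by
  classical
  haveI : Fact p.Prime := ⟨hp⟩
  have hp2 : ringChar (ZMod p) ≠ 2 := by
    rw [ZMod.ringChar_zmod_n]; omega
  -- jacobi symbol as a quadratic character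
  have hj : ∀ x : ℕ, jacobiSym (κ * x) p = quadraticChar (ZMod p) ((κ : ZMod p) * (x : ZMod p)) := by
    intro x
    rw [← jacobiSym.legendreSym.to_jacobiSym]
    unfold legendreSym
    push_cast
    rfl
  have hκ0 : (κ : ZMod p) ≠ 0 := by
    intro h
    exact hκ ((ZMod.intCast_zmod_eq_zero_iff_dvd κ p).1 h)
  -- value of the weight
  have hw : ∀ x : ℕ, t8a_w κ p x = (3 + (quadraticChar (ZMod p) ((κ : ZMod p) * (x : ZMod p)) : ℝ)) / 2
      + (if (x : ZMod p) = 0 then 1 / 2 else 0) := by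
    intro x
    unfold t8a_w
    rw [hj]
    by_cases hx : (x : ZMod p) = 0
    · simp [hx]
      norm_num
    · have hne : (κ : ZMod p) * (x : ZMod p) ≠ 0 := mul_ne_zero hκ0 hx
      rcases quadraticChar_dichotomy hne with h | h
      · rw [h]; simp [hx]; norm_num
      · rw [h]; simp [hx]; norm_num
  rw [Finset.sum_congr rfl (fun x _ => hw x), Finset.sum_add_distrib]
  have h1 : ∑ x ∈ Finset.range p, (3 + (quadraticChar (ZMod p) ((κ : ZMod p) * (x : ZMod p)) : ℝ)) / 2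
      = 3 * p / 2 := by
    rw [← Finset.sum_div, Finset.sum_add_distrib]
    have h2 : ∑ x ∈ Finset.range p, (quadraticChar (ZMod p) ((κ : ZMod p) * (x : ZMod p)) : ℝ) = 0 := by
      have h3 : ∑ x ∈ Finset.range p, (quadraticChar (ZMod p) ((κ : ZMod p) * (x : ZMod p)) : ℝ)
          = ∑ a : ZMod p, (quadraticChar (ZMod p) ((κ : ZMod p) * a) : ℝ) := by
        refine Finset.sum_bij' (fun x _ => (x : ZMod p)) (fun a _ => a.val) ?_ ?_ ?_ ?_ ?_
        · intro x hx; exact Finset.mem_univ _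
        · intro a ha; exact Finset.mem_range.2 (ZMod.val_lt a)
        · intro x hx; exact ZMod.val_cast_of_lt (Finset.mem_range.1 hx)
        · intro a ha; exact ZMod.natCast_zmod_val a
        · intro x hx; rfl
      rw [h3]
      have h4 : ∑ a : ZMod p, (quadraticChar (ZMod p) ((κ : ZMod p) * a) : ℝ)
          = (quadraticChar (ZMod p) (κ : ZMod p) : ℝ) * ∑ a : ZMod p, (quadraticChar (ZMod p) a : ℝ) := by
        rw [Finset.mul_sum]
        refine Finset.sum_congr rfl (fun a _ => ?_)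
        rw [map_mul]; push_cast; rfl
      rw [h4]
      have h5 : (∑ a : ZMod p, (quadraticChar (ZMod p) a : ℝ)) = 0 := by
        have := quadraticChar_sum_zero hp2
        exact_mod_cast this
      rw [h5, mul_zero]
    rw [h2]
    simp
    ring
  have h6 : ∑ x ∈ Finset.range p, (if (x : ZMod p) = 0 then (1 : ℝ) / 2 else 0) ≤ 1 / 2 := by
    have h7 : ∀ x ∈ Finset.range p, (if (x : ZMod p) = 0 then (1 : ℝ) / 2 else 0)
        = if x = 0 then 1 / 2 else 0 := by
      intro x hx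
      by_cases h : x = 0
      · simp [h]
      · have : ¬ ((x : ZMod p) = 0) := by
          rw [ZMod.natCast_eq_zero_iff]
          intro hd
          exact absurd (Nat.le_of_dvd (Nat.pos_of_ne_zero h) hd) (not_le.2 (Finset.mem_range.1 hx))
        simp [h, this]
    rw [Finset.sum_congr rfl h7, Finset.sum_ite_eq']
    split_ifs <;> norm_num
  rw [h1]
  have : (100 : ℝ) ≤ p := by exact_mod_cast h100
  linarith

theorem t8a_total (κ : ℤ) (P : Finset ℕ) (hP : ∀ p ∈ P, p.Prime ∧ 100 ≤ p)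
    (hκ : ∀ p ∈ P, ¬ (p : ℤ) ∣ κ) :
    ∑ x ∈ Finset.range (∏ p ∈ P, p), ∏ p ∈ P, t8a_w κ p x ≤ ∏ p ∈ P, (301 / 200 * (p : ℝ)) := by
  classical
  induction P using Finset.induction_on with
  | empty => simp
  | @insert q P hq ih =>
    have hP' : ∀ p ∈ P, p.Prime ∧ 100 ≤ p := fun p hp => hP p (Finset.mem_insert_of_mem hp)
    have hκ' : ∀ p ∈ P, ¬ (p : ℤ) ∣ κ := fun p hp => hκ p (Finset.mem_insert_of_mem hp)
    have hqp := hP q (Finset.mem_insert_self _ _)
    rw [Finset.prod_insert hq, Finset.prod_insert hq]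
    have hco : Nat.Coprime q (∏ p ∈ P, p) := by
      refine Nat.Coprime.prod_right (fun p hp => ?_)
      rw [Nat.coprime_primes hqp.1 (hP' p hp).1]
      rintro rfl
      exact hq hp
    have hpos : 0 < ∏ p ∈ P, p := Finset.prod_pos (fun p hp => (hP' p hp).1.pos)
    have h1 := t8a_crt q (∏ p ∈ P, p) hqp.1.pos hpos hco (fun x => t8a_w κ q x)
      (fun x => ∏ p ∈ P, t8a_w κ p x) (fun x => t8a_per κ q x) (by
        intro x
        refine Finset.prod_congr rfl (fun p hp => ?_)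
        have hd : p ∣ ∏ p ∈ P, p := Finset.dvd_prod_of_mem _ hp
        show t8a_w κ p (x % ∏ p ∈ P, p) = t8a_w κ p x
        rw [← t8a_per κ p (x % ∏ p ∈ P, p), Nat.mod_mod_of_dvd _ hd, t8a_per])
    have h2 : ∑ x ∈ Finset.range (q * ∏ p ∈ P, p), ∏ p ∈ insert q P, t8a_w κ p x
        = ∑ x ∈ Finset.range (q * ∏ p ∈ P, p), t8a_w κ q x * ∏ p ∈ P, t8a_w κ p x :=
      Finset.sum_congr rfl (fun x _ => Finset.prod_insert hq)
    rw [h2, h1]
    refine mul_le_mul (t8a_one κ q hqp.1 hqp.2 (hκ q (Finset.mem_insert_self _ _))) (ih hP' hκ') ?_ (by positivity)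
    refine Finset.sum_nonneg (fun x _ => Finset.prod_nonneg (fun p _ => ?_))
    unfold t8a_w
    split_ifs <;> norm_num

/-- Row T8a. Residues mod `q = ∏ P` which are nonresidues for few `p` are rare. Weight
`W(x) = ∏_{p ∈ P} w_p(x)`, `w_p(x) = 2` if `(κ x/p) ≠ -1` and `1` if `(κ x/p) = -1`: for each `p` the sum of `w_p` over
`x mod p` is `2 (p+1)/2 + (p-1)/2 = (3p+1)/2` (exactly `(p-1)/2` residues `x` have `(κ x/p) = -1`, `p ∤ κ`), so by CRT
(induction on `P`, or `ZMod.prodEquivPi`/`Nat.chineseRemainderOfFinset`) `∑_{x < q} W(x) = ∏ (3p+1)/2 ≤ q (1.505)^|P|`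
(`p ≥ 100`). A bad `x` (`3 #{(κx/p) = -1} < |P|`) has `W(x) = 2^(|P| - #{-1}) ≥ 2^(2|P|/3) ≥ (1.587)^|P|`, and
`1.505 / 1.587 < 19/20` (to avoid the real power: `W³ ≥ 4^|P|`, `(1.505)³ = 3.4089 < 4 (19/20)³ = 3.4295`; so
`4^{|P|/3} ≥ (1.505 · 20/19)^|P|`, i.e. `W(x) ≥ (1.505·20/19)^|P|` because the cube of the right side is
`≤ 4^|P| ≤ W(x)³`, `pow_le_pow_left` contrapositive). -/
theorem bad_res (P : Finset ℕ) (hP : ∀ p ∈ P, p.Prime ∧ 100 ≤ p) (κ : ℤ)
    (hκ : ∀ p ∈ P, ¬ (p : ℤ) ∣ κ) :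
    ((((Finset.range (∏ p ∈ P, p)).filter (fun x : ℕ =>
      3 * (P.filter (fun p => jacobiSym (κ * x) p = -1)).card < P.card)).card : ℕ) : ℝ)
      ≤ (∏ p ∈ P, (p : ℝ)) * (19 / 20) ^ P.card := by
  classical
  set B := (Finset.range (∏ p ∈ P, p)).filter (fun x : ℕ =>
      3 * (P.filter (fun p => jacobiSym (κ * x) p = -1)).card < P.card) with hB
  have hnn : ∀ x : ℕ, 0 ≤ ∏ p ∈ P, t8a_w κ p x := by
    intro x
    refine Finset.prod_nonneg (fun p _ => ?_)
    unfold t8a_w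
    split_ifs <;> norm_num
  have hbad : ∀ x ∈ B, ((301 : ℝ) / 190) ^ P.card ≤ ∏ p ∈ P, t8a_w κ p x := by
    intro x hx
    have hx2 := (Finset.mem_filter.1 hx).2
    have hval : ∏ p ∈ P, t8a_w κ p x = 2 ^ (P.filter (fun p => ¬ jacobiSym (κ * x) p = -1)).card := by
      unfold t8a_w
      rw [Finset.prod_ite]
      simp
    have hcard := Finset.card_filter_add_card_filter_not (s := P) (fun p => jacobiSym (κ * (x : ℤ)) p = -1)
    rw [hval]
    by_contra hlt
    push Not at hlt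
    have h3 : ((2 : ℝ) ^ (P.filter (fun p => ¬ jacobiSym (κ * x) p = -1)).card) ^ 3
        < (((301 : ℝ) / 190) ^ P.card) ^ 3 := by
      exact pow_lt_pow_left₀ hlt (by positivity) (by norm_num)
    have h4 : (4 : ℝ) ^ P.card ≤ ((2 : ℝ) ^ (P.filter (fun p => ¬ jacobiSym (κ * x) p = -1)).card) ^ 3 := by
      rw [← pow_mul]
      have : (4 : ℝ) ^ P.card = 2 ^ (2 * P.card) := by
        rw [pow_mul]; norm_num
      rw [this]
      exact pow_le_pow_right₀ (by norm_num) (by omega)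
    have h5 : (((301 : ℝ) / 190) ^ P.card) ^ 3 ≤ 4 ^ P.card := by
      rw [← pow_mul, mul_comm, pow_mul]
      exact pow_le_pow_left₀ (by positivity) (by norm_num) _
    linarith
  have h1 : (B.card : ℝ) * (301 / 190) ^ P.card ≤ ∏ p ∈ P, (301 / 200 * (p : ℝ)) := by
    calc (B.card : ℝ) * (301 / 190) ^ P.card = ∑ x ∈ B, ((301 : ℝ) / 190) ^ P.card := by
          rw [Finset.sum_const, nsmul_eq_mul]
      _ ≤ ∑ x ∈ B, ∏ p ∈ P, t8a_w κ p x := Finset.sum_le_sum hbad
      _ ≤ ∑ x ∈ Finset.range (∏ p ∈ P, p), ∏ p ∈ P, t8a_w κ p x :=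
          Finset.sum_le_sum_of_subset_of_nonneg (Finset.filter_subset _ _) (fun x _ _ => hnn x)
      _ ≤ _ := t8a_total κ P hP hκ
  rw [Finset.prod_mul_distrib, Finset.prod_const] at h1
  have h6 : ((301 : ℝ) / 200) ^ P.card = (19 / 20) ^ P.card * (301 / 190) ^ P.card := by
    rw [← mul_pow]; norm_num
  rw [h6] at h1
  have h7 : (0 : ℝ) < (301 / 190) ^ P.card := by positivity
  have h8 : (B.card : ℝ) * (301 / 190) ^ P.card
      ≤ ((∏ p ∈ P, (p : ℝ)) * (19 / 20) ^ P.card) * (301 / 190) ^ P.card := by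
    calc _ ≤ _ := h1
      _ = _ := by ring
  exact le_of_mul_le_mul_right h8 h7

end N44
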