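import Pool.Agent.LibN44.T8a

namespace N44

/-- the condition depends only on `f` modulo the product of the primes -/
theorem t8b_mod (P : Finset ℕ) (κ : ℤ) (f : ℕ) :
    P.filter (fun p => jacobiSym (κ * (f % (∏ p ∈ P, p) : ℕ)) p = -1) =
      P.filter (fun p => jacobiSym (κ * f) p = -1) := by
  refine Finset.filter_congr fun p hp => ?_
  have hdvd : p ∣ ∏ p ∈ P, p := Finset.dvd_prod_of_mem (fun p => p) hp
  have h1 : (κ * ((f % (∏ p ∈ P, p) : ℕ) : ℤ)) % (p : ℤ) = (κ * (f : ℤ)) % (p : ℤ) := by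
    have h2 : ((f % (∏ p ∈ P, p) : ℕ) : ℤ) ≡ (f : ℤ) [ZMOD (p : ℤ)] := by
      rw [Int.natCast_modEq_iff]
      exact (Nat.mod_modEq f _).of_dvd hdvd
    exact h2.mul_left κ
  rw [jacobiSym.mod_left, h1, ← jacobiSym.mod_left]

/-- Row T8b. Bad `f` in an interval, and the weighted sum. `(κ f/p)` depends only on `f` mod `p`. Write
`f = q j + x`, `0 ≤ x < q`, `j ≥ 1`; then `1/f ≤ 1/(q j)` and `x` is a bad residue (`bad_res` with `κ = ± 1`), so the
sum is at most `(19/20)^n ∑_{j ≤ H/q} 1/j`. -/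
theorem bad_sum (P : Finset ℕ) (hP : ∀ p ∈ P, p.Prime ∧ 100 ≤ p) (κ : ℤ) (hκ : κ = 1 ∨ κ = -1)
    (H : ℕ) (hH : 1 ≤ H) :
    ∑ f ∈ (Finset.Ioc (∏ p ∈ P, p) H).filter (fun f : ℕ =>
      3 * (P.filter (fun p => jacobiSym (κ * f) p = -1)).card < P.card), 1 / (f : ℝ)
      ≤ 5 * (1 + Real.log H) * (19 / 20) ^ P.card := by
  have hbad := bad_res P hP κ (by
    intro p hp hd
    have h1 : (p : ℤ) ∣ 1 := by
      rcases hκ with rfl | rfl
      · exact hd
      · exact (Int.dvd_neg (b := 1)).1 hd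
    have h2 := Int.le_of_dvd one_pos h1
    have h3 := (hP p hp).2
    omega)
  have hq0 : 0 < ∏ p ∈ P, p := Finset.prod_pos fun p hp => (hP p hp).1.pos
  have hmod := t8b_mod P κ
  have hcast : (∏ p ∈ P, (p : ℝ)) = ((∏ p ∈ P, p : ℕ) : ℝ) := by
    rw [Nat.cast_prod]
  rw [hcast] at hbad
  generalize hqd : ∏ p ∈ P, p = q at *
  have hqR : (0 : ℝ) < q := by exact_mod_cast hq0
  set R := (Finset.range q).filter (fun x : ℕ =>
      3 * (P.filter (fun p => jacobiSym (κ * x) p = -1)).card < P.card) with hR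
  set S := (Finset.Ioc q H).filter (fun f : ℕ =>
      3 * (P.filter (fun p => jacobiSym (κ * f) p = -1)).card < P.card) with hS
  have hmemS : ∀ f, f ∈ S ↔ (q < f ∧ f ≤ H) ∧
      3 * (P.filter (fun p => jacobiSym (κ * f) p = -1)).card < P.card := by
    intro f
    rw [hS, Finset.mem_filter, Finset.mem_Ioc]
  have hdiv : ∀ f ∈ S, f / q ∈ Finset.Icc 1 (H / q) := by
    intro f hf
    have h1 := ((hmemS f).1 hf).1
    rw [Finset.mem_Icc]
    refine ⟨(Nat.one_le_div_iff hq0).2 h1.1.le, Nat.div_le_div_right h1.2⟩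
  have hstep1 : ∑ f ∈ S, 1 / (f : ℝ) ≤ ∑ f ∈ S, 1 / ((q : ℝ) * ((f / q : ℕ) : ℝ)) := by
    refine Finset.sum_le_sum fun f hf => ?_
    have h1 := Finset.mem_Icc.1 (hdiv f hf)
    have h2 : (0 : ℝ) < ((f / q : ℕ) : ℝ) := by
      exact_mod_cast h1.1
    have h3 : q * (f / q) ≤ f := Nat.mul_div_le f q
    have h4 : (q : ℝ) * ((f / q : ℕ) : ℝ) ≤ f := by exact_mod_cast h3
    exact one_div_le_one_div_of_le (by positivity) h4
  have hstep2 : ∑ f ∈ S, 1 / ((q : ℝ) * ((f / q : ℕ) : ℝ)) ≤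
      ∑ j ∈ Finset.Icc 1 (H / q), (R.card : ℝ) / q * (1 / (j : ℝ)) := by
    rw [← Finset.sum_fiberwise_of_maps_to hdiv]
    refine Finset.sum_le_sum fun j hj => ?_
    have hj0 : (0 : ℝ) < j := by exact_mod_cast (Finset.mem_Icc.1 hj).1
    have h1 : ∑ f ∈ S with f / q = j, 1 / ((q : ℝ) * ((f / q : ℕ) : ℝ)) =
        ((S.filter fun f => f / q = j).card : ℝ) * (1 / ((q : ℝ) * j)) := by
      rw [← nsmul_eq_mul, ← Finset.sum_const]
      refine Finset.sum_congr rfl fun f hf => ?_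
      rw [(Finset.mem_filter.1 hf).2]
    have h2 : (S.filter fun f => f / q = j).card ≤ R.card := by
      refine Finset.card_le_card_of_injOn (fun f => f % q) ?_ ?_
      · intro f hf
        have hf1 := Finset.mem_filter.1 (Finset.mem_coe.1 hf)
        have hf2 := (hmemS f).1 hf1.1
        show f % q ∈ (R : Set ℕ)
        rw [Finset.mem_coe, hR, Finset.mem_filter, Finset.mem_range, hmod f]
        exact ⟨Nat.mod_lt _ hq0, hf2.2⟩
      · intro f hf g hg hfg
        have hf1 := (Finset.mem_filter.1 (Finset.mem_coe.1 hf)).2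
        have hg1 := (Finset.mem_filter.1 (Finset.mem_coe.1 hg)).2
        have hfg' : f % q = g % q := hfg
        rw [← Nat.div_add_mod f q, ← Nat.div_add_mod g q, hf1, hg1, hfg']
    rw [h1]
    have h3 : (R.card : ℝ) / q * (1 / (j : ℝ)) = (R.card : ℝ) * (1 / ((q : ℝ) * j)) := by
      field_simp
    rw [h3]
    exact mul_le_mul_of_nonneg_right (by exact_mod_cast h2) (by positivity)
  have hRq : (R.card : ℝ) / q ≤ (19 / 20) ^ P.card := by
    rw [div_le_iff₀ hqR, mul_comm]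
    exact hbad
  have hharm : ∑ j ∈ Finset.Icc 1 (H / q), 1 / (j : ℝ) ≤ 1 + Real.log H := by
    have h1 : ∑ j ∈ Finset.Icc 1 (H / q), 1 / (j : ℝ) = ((harmonic (H / q) : ℚ) : ℝ) := by
      rw [harmonic_eq_sum_Icc]
      push_cast
      refine Finset.sum_congr rfl fun j _ => ?_
      rw [one_div]
    rw [h1]
    refine (harmonic_le_one_add_log _).trans ?_
    have h2 : Real.log ((H / q : ℕ) : ℝ) ≤ Real.log H := by
      rcases Nat.eq_zero_or_pos (H / q) with h0 | h0
      · rw [h0, Nat.cast_zero, Real.log_zero]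
        exact Real.log_nonneg (by exact_mod_cast hH)
      · refine Real.log_le_log (by exact_mod_cast h0) ?_
        exact_mod_cast Nat.div_le_self H q
    linarith
  have hlog : 0 ≤ Real.log H := Real.log_nonneg (by exact_mod_cast hH)
  have hpow : (0 : ℝ) < (19 / 20) ^ P.card := by positivity
  refine hstep1.trans (hstep2.trans ?_)
  rw [← Finset.mul_sum]
  have hs0 : 0 ≤ ∑ j ∈ Finset.Icc 1 (H / q), 1 / (j : ℝ) :=
    Finset.sum_nonneg fun j _ => by positivity
  have h1 : (R.card : ℝ) / q * ∑ j ∈ Finset.Icc 1 (H / q), 1 / (j : ℝ) ≤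
      (19 / 20) ^ P.card * (1 + Real.log H) :=
    mul_le_mul hRq hharm hs0 hpow.le
  nlinarith [mul_nonneg hpow.le (by linarith : 0 ≤ 1 + Real.log H)]

end N44
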