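import Pool.Agent.LibN44.T6
import Pool.Agent.LibN44.T8b

namespace N44

private theorem T8c_sq (W : ℕ) (hW : 1 ≤ W) :
    ∑ s ∈ Finset.Icc 1 W, 1 / (s : ℝ) ^ 2 ≤ 2 - 1 / (W : ℝ) := by
  induction W, hW using Nat.le_induction with
  | base => norm_num
  | succ n hn ih =>
    rw [Finset.sum_Icc_succ_top (by omega)]
    have hn0 : (0 : ℝ) < n := by exact_mod_cast hn
    have h1 : 1 / (((n + 1 : ℕ) : ℝ)) ^ 2 ≤ 1 / (n : ℝ) - 1 / ((n + 1 : ℕ) : ℝ) := by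
      push_cast
      rw [div_sub_div _ _ hn0.ne' (by positivity), div_le_div_iff₀ (by positivity) (by positivity)]
      nlinarith
    linarith

private theorem T8c_log {H : ℕ} (hH : 2 ≤ H) : 1 + Real.log ((3 * H : ℕ) : ℝ) ≤ 5 * Real.log H := by
  have hH' : (2 : ℝ) ≤ H := by exact_mod_cast hH
  have h2 : Real.log 2 ≤ Real.log H := Real.log_le_log (by norm_num) hH'
  have h3 := Real.log_two_gt_d9
  have h4 : Real.log 3 ≤ 2 * Real.log 2 := by
    have h : Real.log 3 ≤ Real.log (2 ^ 2) := Real.log_le_log (by norm_num) (by norm_num)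
    rwa [Real.log_pow, Nat.cast_ofNat] at h
  push_cast
  rw [Real.log_mul (by norm_num) (by positivity)]
  linarith

/-- Row T8c (section 5.4). Datum with `|f| > q = ∏ P` bad: `tc` summed over `s ≤ W` (`∑ 1/s² ≤ 2`), both signs
of `f`, and `bad_sum`. (`|f| ≤ 3H`: put `H' = 3H` in `bad_sum`; `W² · 3H ≤ H²`.) -/
theorem sect3bad : ∃ C : ℝ, 0 < C ∧ ∀ H W : ℕ, 2 ≤ H → 1 ≤ W → 3 * W ^ 2 ≤ H → ∀ P : Finset ℕ,
    (∀ p ∈ P, p.Prime ∧ 100 ≤ p) → ∀ S : Finset (ℤ × ℤ),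
    (∀ z ∈ S, Box H z ∧ ∃ (d s ρ g X Y r : ℕ) (m f : ℤ), 0 < s ∧ s ≤ W ∧ z.2 = d * (s : ℤ) ^ 2 ∧
      UU z.1 d s ρ g X Y r m f ∧ (∏ p ∈ P, p) < f.natAbs ∧ f.natAbs ≤ 3 * H ∧
      3 * (P.filter (fun p => jacobiSym f p = -1)).card < P.card) →
    (S.card : ℝ) ≤ C * (H : ℝ) ^ 3 * Real.log H * (19 / 20) ^ P.card := by
  classical
  refine ⟨1000, by norm_num, ?_⟩
  intro H W hH hW hWH P hP S hS
  set q := ∏ p ∈ P, p with hq
  let Bad : ℤ → Finset ℕ := fun κ => (Finset.Ioc q (3 * H)).filter (fun f : ℕ =>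
      3 * (P.filter (fun p => jacobiSym (κ * f) p = -1)).card < P.card)
  let SS : ℤ → ℕ → ℕ → Finset (ℤ × ℤ) := fun κ s F => S.filter fun z =>
    ∃ (d ρ g X Y r : ℕ) (m : ℤ), z.2 = d * (s : ℤ) ^ 2 ∧ UU z.1 d s ρ g X Y r m (κ * F)
  have hcov : S ⊆ ({1, -1} : Finset ℤ).biUnion fun κ => (Finset.Icc 1 W).biUnion fun s =>
      (Bad κ).biUnion fun F => SS κ s F := by
    intro z hz
    obtain ⟨_, d, s, ρ, g, X, Y, r, m, f, hs0, hsW, hz2, hU, hf1, hf2, hf3⟩ := hS z hz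
    obtain ⟨κ, hκ, hfκ⟩ : ∃ κ ∈ ({1, -1} : Finset ℤ), f = κ * (f.natAbs : ℤ) := by
      rcases Int.natAbs_eq f with h | h
      · exact ⟨1, by simp, by rw [one_mul]; exact h⟩
      · exact ⟨-1, by simp, by rw [neg_one_mul]; exact h⟩
    simp only [Finset.mem_biUnion]
    refine ⟨κ, hκ, s, Finset.mem_Icc.2 ⟨hs0, hsW⟩, f.natAbs, ?_, ?_⟩
    · simp only [Bad, Finset.mem_filter, Finset.mem_Ioc]
      refine ⟨⟨hf1, hf2⟩, ?_⟩
      rw [← hfκ]
      exact hf3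
    · simp only [SS, Finset.mem_filter]
      refine ⟨hz, d, ρ, g, X, Y, r, m, hz2, ?_⟩
      rw [← hfκ]
      exact hU
  have hH1 : 1 ≤ H := by omega
  have hSS : ∀ κ ∈ ({1, -1} : Finset ℤ), ∀ s ∈ Finset.Icc 1 W, ∀ F ∈ Bad κ,
      ((SS κ s F).card : ℝ) ≤ 10 * (H : ℝ) ^ 3 * (1 / (s : ℝ) ^ 2) * (1 / (F : ℝ)) := by
    intro κ hκ s hs F hF
    simp only [Bad, Finset.mem_filter, Finset.mem_Ioc] at hF
    rw [Finset.mem_Icc] at hs
    have habs : (κ * (F : ℤ)).natAbs = F := by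
      rw [Finset.mem_insert, Finset.mem_singleton] at hκ
      rcases hκ with rfl | rfl
      · simp
      · simp
    have h1 : (κ * (F : ℤ)).natAbs ≤ 3 * H := by
      rw [habs]
      exact hF.1.2
    have h2 : s ^ 2 * (κ * (F : ℤ)).natAbs ≤ H ^ 2 := by
      rw [habs]
      calc s ^ 2 * F ≤ W ^ 2 * (3 * H) := Nat.mul_le_mul (Nat.pow_le_pow_left hs.2 2) hF.1.2
        _ = 3 * W ^ 2 * H := by ring
        _ ≤ H * H := Nat.mul_le_mul_right H hWH
        _ = H ^ 2 := by ring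
    have h3 := tc H s hH1 hs.1 (κ * F) h1 h2 (SS κ s F) (by
      intro z hz
      simp only [SS, Finset.mem_filter] at hz
      exact ⟨(hS z hz.1).1, hz.2⟩)
    rw [habs] at h3
    refine h3.trans (le_of_eq ?_)
    rw [mul_assoc (10 * (H : ℝ) ^ 3), one_div_mul_one_div, mul_one_div]
  have hpow : (0 : ℝ) ≤ (19 / 20 : ℝ) ^ P.card := by positivity
  have hlogH : 0 ≤ Real.log H := Real.log_nonneg (by exact_mod_cast hH1)
  have hκsum : ∀ κ ∈ ({1, -1} : Finset ℤ),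
      ∑ s ∈ Finset.Icc 1 W, ∑ F ∈ Bad κ, ((SS κ s F).card : ℝ) ≤
        500 * (H : ℝ) ^ 3 * Real.log H * (19 / 20) ^ P.card := by
    intro κ hκ
    have hκ' : κ = 1 ∨ κ = -1 := by
      rw [Finset.mem_insert, Finset.mem_singleton] at hκ
      exact hκ
    have hb := bad_sum P hP κ hκ' (3 * H) (by omega)
    have hb' : ∑ F ∈ Bad κ, 1 / (F : ℝ) ≤ 5 * (5 * Real.log H) * (19 / 20) ^ P.card := by
      refine hb.trans ?_
      have := T8c_log hH
      gcongr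
    calc ∑ s ∈ Finset.Icc 1 W, ∑ F ∈ Bad κ, ((SS κ s F).card : ℝ)
        ≤ ∑ s ∈ Finset.Icc 1 W, ∑ F ∈ Bad κ,
            10 * (H : ℝ) ^ 3 * (1 / (s : ℝ) ^ 2) * (1 / (F : ℝ)) :=
          Finset.sum_le_sum fun s hs => Finset.sum_le_sum fun F hF => hSS κ hκ s hs F hF
      _ = 10 * (H : ℝ) ^ 3 * ((∑ s ∈ Finset.Icc 1 W, 1 / (s : ℝ) ^ 2) *
            ∑ F ∈ Bad κ, 1 / (F : ℝ)) := by
          rw [Finset.sum_mul_sum, Finset.mul_sum]
          refine Finset.sum_congr rfl fun s _ => ?_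
          rw [Finset.mul_sum]
          refine Finset.sum_congr rfl fun F _ => ?_
          ring
      _ ≤ 10 * (H : ℝ) ^ 3 * (2 * (5 * (5 * Real.log H) * (19 / 20) ^ P.card)) := by
          have h4 : ∑ s ∈ Finset.Icc 1 W, 1 / (s : ℝ) ^ 2 ≤ 2 := by
            have h5 := T8c_sq W hW
            have h6 : (0 : ℝ) ≤ 1 / W := by positivity
            linarith
          have h7 : (0 : ℝ) ≤ ∑ F ∈ Bad κ, 1 / (F : ℝ) := Finset.sum_nonneg fun F _ => by positivity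
          have h8 := mul_le_mul h4 hb' h7 (by norm_num)
          exact mul_le_mul_of_nonneg_left h8 (by positivity)
      _ = 500 * (H : ℝ) ^ 3 * Real.log H * (19 / 20) ^ P.card := by ring
  have hcard : (S.card : ℝ) ≤ ∑ κ ∈ ({1, -1} : Finset ℤ), ∑ s ∈ Finset.Icc 1 W,
      ∑ F ∈ Bad κ, ((SS κ s F).card : ℝ) := by
    have h9 : S.card ≤ ∑ κ ∈ ({1, -1} : Finset ℤ), ∑ s ∈ Finset.Icc 1 W,
        ∑ F ∈ Bad κ, (SS κ s F).card := by
      refine (Finset.card_le_card hcov).trans (Finset.card_biUnion_le.trans ?_)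
      refine Finset.sum_le_sum fun κ _ => Finset.card_biUnion_le.trans ?_
      exact Finset.sum_le_sum fun s _ => Finset.card_biUnion_le
    exact_mod_cast h9
  refine hcard.trans ?_
  refine (Finset.sum_le_sum hκsum).trans (le_of_eq ?_)
  rw [Finset.sum_const, show ({1, -1} : Finset ℤ).card = 2 from rfl, nsmul_eq_mul]
  push_cast
  ring

end N44
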